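import Mathlib

/-!
# Oriented link diagrams in the two-sphere and in the projective plane, as closed tangle words

A diagram is read from bottom to top.  A level of the diagram is a finite row of oriented strands
(`true` = the strand runs upwards, `false` = downwards), listed from left to right.  A word is a
list of letters, each of which is placed above the level reached so far:

* `X i e p` : the strands in positions `i` and `i+1` cross.  `e = true` means that the strand which
  goes from the bottom left to the top right is the over strand.  `p` records whether the two
  strands run in the same vertical direction (`act` allows the letter only if `p` is correct).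
* `cup i o` : a local minimum; two new strands appear in positions `i`, `i+1`, the left one
  with orientation `o`, the right one with the opposite orientation.
* `cap i` : a local maximum; the strands `i`, `i+1` (of opposite orientations) are joined.

A diagram `⟨s, w⟩` has the bottom level `s` and the word `w`.  It is closed up in two ways.

* `S3` : the top level is glued to the bottom level by the identity.  The result is a diagram in
  an annulus, and the annulus lies in the two-sphere; it is the diagram of a link in `S³`.
* `RP3` : the top level is glued to the bottom level by the reflection `i ↦ n - 1 - i`.  The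
  result is a diagram in a Moebius band, and the Moebius band lies in the projective plane; it is
  the diagram of a link in `RP³` (which, minus a point, is the orientable line bundle over `RP²`).
  Every link in `RP³` has such a diagram.  The link is of class 1 iff the number of
  strands of its bottom level is odd.
-/

namespace FPS

/-- Letters of tangle words. -/
inductive Letter where
  | X (i : ℕ) (e p : Bool)
  | cup (i : ℕ) (o : Bool)
  | cap (i : ℕ)
deriving DecidableEq

open Letter

/-- Effect of a letter on a level; `none` if the letter cannot be placed there. -/
def act : Letter → List Bool → Option (List Bool)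
  | .X 0 _ p, a :: b :: s => if (a == b) = p then some (b :: a :: s) else none
  | .X (i + 1) e p, a :: s => (act (.X i e p) s).map (fun t => a :: t)
  | .cup 0 o, s => some (o :: (!o) :: s)
  | .cup (i + 1) o, a :: s => (act (.cup i o) s).map (fun t => a :: t)
  | .cap 0, a :: b :: s => if a = b then none else some s
  | .cap (i + 1), a :: s => (act (.cap i) s).map (fun t => a :: t)
  | _, _ => none

/-- Effect of a word on a level. -/
def run : List Bool → List Letter → Option (List Bool)
  | s, [] => some s
  | s, l :: w => (act l s).bind (fun t => run t w)

/-- Leftmost position touched by a letter. -/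
def Letter.pos : Letter → ℕ
  | .X i _ _ => i
  | .cup i _ => i
  | .cap i => i

/-- Number of strands consumed by a letter. -/
def Letter.inw : Letter → ℕ
  | .X _ _ _ => 2
  | .cup _ _ => 0
  | .cap _ => 2

/-- Number of strands produced by a letter. -/
def Letter.outw : Letter → ℕ
  | .X _ _ _ => 2
  | .cup _ _ => 2
  | .cap _ => 0

/-- The same letter, `k` positions further to the right. -/
def Letter.shift (k : ℕ) : Letter → Letter
  | .X i e p => .X (i + k) e p
  | .cup i o => .cup (i + k) o
  | .cap i => .cap (i + k)

/-- The letter seen from behind, when it is placed above a level of `n` strands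
(the picture is turned by the half turn about the vertical axis, so that a letter which passes
through the seam of the Moebius band becomes this letter). -/
def Letter.flip (n : ℕ) : Letter → Letter
  | .X i e p => .X (n - 2 - i) e p
  | .cup i o => .cup (n - i) (!o)
  | .cap i => .cap (n - 2 - i)

/-- Local moves: planar isotopies and Reidemeister moves. -/
inductive Loc : List Letter → List Letter → Prop
  /-- letters at disjoint places commute -/
  | far (l₁ l₂ : Letter) (h : l₁.pos ≤ l₂.pos) :
      Loc [l₂.shift l₁.inw, l₁] [l₁, l₂.shift l₁.outw]
  /-- a zigzag is straightened -/
  | zigR (i : ℕ) (o : Bool) : Loc [.cup i o, .cap (i + 1)] []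
  | zigL (i : ℕ) (o : Bool) : Loc [.cup (i + 1) o, .cap i] []
  /-- a crossing is rotated at a minimum or a maximum -/
  | turnU (i : ℕ) (o e p : Bool) :
      Loc [.cup i o, .X (i + 1) e p] [.cup (i + 1) o, .X i (!e) (!p)]
  | turnA (i : ℕ) (e p : Bool) :
      Loc [.X (i + 1) e p, .cap i] [.X i (!e) (!p), .cap (i + 1)]
  /-- the first Reidemeister move -/
  | r1U (i : ℕ) (o e : Bool) : Loc [.cup i o, .X i e false] [.cup i (!o)]
  | r1A (i : ℕ) (e : Bool) : Loc [.X i e false, .cap i] [.cap i]
  /-- the second Reidemeister move -/
  | r2 (i : ℕ) (e p : Bool) : Loc [.X i e p, .X i (!e) p] []
  /-- the third Reidemeister move (the middle strand is between the two others; `p q r` satisfy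
  the parity condition that holds for three oriented strands) -/
  | r3 (i : ℕ) (a b c p q r : Bool) (h : a = b ∨ b = c) (hp : xor (xor p q) r = true) :
      Loc [.X i a p, .X (i + 1) b q, .X i c r] [.X (i + 1) c r, .X i b q, .X (i + 1) a p]

/-- A diagram: bottom level and word. -/
structure Dg where
  s : List Bool
  w : List Letter

/-- The two ambient three-manifolds. -/
inductive Space where
  | S3
  | RP3

/-- How the top level is read after the seam. -/
def Space.turn : Space → List Bool → List Bool
  | .S3, s => s
  | .RP3, s => s.reverse

/-- How a letter above a level of `n` strands looks after it has passed through the seam. -/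
def Space.push : Space → ℕ → Letter → Letter
  | .S3, _, l => l
  | .RP3, n, l => l.flip n

/-- `D` is a closed oriented link diagram. -/
def IsLink (X : Space) (D : Dg) : Prop := run D.s D.w = some (X.turn D.s)

/-- `B` arises from `A` by replacing a subword `x` by a subword `y` with `R x y` (the replacement
must have the same effect on the oriented strands). -/
def Subst (R : List Letter → List Letter → Prop) (A B : Dg) : Prop :=
  ∃ s u x y v, A = ⟨s, u ++ x ++ v⟩ ∧ B = ⟨s, u ++ y ++ v⟩ ∧ R x y ∧
    run s (u ++ x) = run s (u ++ y)

/-- Elementary isotopies of link diagrams in `S³` and in `RP³`. -/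
inductive Iso : Space → Dg → Dg → Prop
  /-- a local move -/
  | loc {X : Space} {A B : Dg} (h : Subst Loc A B) : Iso X A B
  /-- the first letter passes through the seam -/
  | rot {X : Space} (s t : List Bool) (l : Letter) (w : List Letter) (h : act l s = some t) :
      Iso X ⟨s, l :: w⟩ ⟨t, w ++ [X.push s.length l]⟩
  /-- in the two-sphere: the rightmost strand, which runs to the right of the word `u` and takes
  part in the word `v`, is pulled over the point at the right end of all levels -/
  | poleS (t t' : List Bool) (o : Bool) (u v : List Letter) (hu : run t u = some t')
      (hv : run (t' ++ [o]) v = some (t ++ [o])) :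
      Iso .S3 ⟨t ++ [o], u ++ v⟩ ⟨t, u ++ [.cup t'.length o] ++ v ++ [.cap t.length]⟩
  /-- in the projective plane: the rightmost strand, which runs to the right of the whole word
  `w`, is pulled over the point at the ends of all levels and now runs to the left of `w` -/
  | poleP (t : List Bool) (o : Bool) (w : List Letter)
      (hw : run (o :: t) w = some (o :: t.reverse)) :
      Iso .RP3 ⟨(o :: t) ++ [o], w⟩ ⟨t, [.cup 0 (!o)] ++ w.map (Letter.shift 1) ++ [.cap 0]⟩

/-- A small circle is born. -/
inductive BirthR : List Letter → List Letter → Prop
  | mk (i : ℕ) (o : Bool) : BirthR [] [.cup i o, .cap i]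

/-- An oriented saddle move (also called band move). -/
inductive SaddleR : List Letter → List Letter → Prop
  | mk (i : ℕ) (o : Bool) : SaddleR [] [.cap i, .cup i o]

/-- `Movie X A B b c`: the diagram `B` is obtained from `A` by isotopies, `b` births of circles and
`c` oriented saddle moves, in some order; all diagrams of the movie are link diagrams.
The trace of the movie is a surface in `X × [0,1]` without local maxima; its Euler characteristic is
`b - c`. -/
inductive Movie (X : Space) : Dg → Dg → ℕ → ℕ → Prop
  | refl {A : Dg} (hA : IsLink X A) : Movie X A A 0 0
  | iso {A B C : Dg} {b c : ℕ} (hA : IsLink X A) (h : Iso X A B ∨ Iso X B A)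
      (m : Movie X B C b c) : Movie X A C b c
  | birth {A B C : Dg} {b c : ℕ} (hA : IsLink X A) (h : Subst BirthR A B)
      (m : Movie X B C b c) : Movie X A C (b + 1) c
  | saddle {A B C : Dg} {b c : ℕ} (hA : IsLink X A) (h : Subst SaddleR A B ∨ Subst SaddleR B A)
      (m : Movie X B C b c) : Movie X A C b (c + 1)

/-- How a colouring of the strands (by position) passes through a letter: it is constant along
strands. -/
def CRel : Letter → (ℕ → Bool) → (ℕ → Bool) → Prop
  | .X i _ _, c, d => d i = c (i + 1) ∧ d (i + 1) = c i ∧ ∀ q, q ≠ i → q ≠ i + 1 → d q = c q
  | .cup i _, c, d => d i = d (i + 1) ∧ (∀ q, q < i → d q = c q) ∧ ∀ q, i ≤ q → d (q + 2) = c q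
  | .cap i, c, d => c i = c (i + 1) ∧ (∀ q, q < i → d q = c q) ∧ ∀ q, i ≤ q → d q = c (q + 2)

/-- `C` is a colouring of all the strands at all the levels, constant along strands
(apart from the seam). -/
def Col : List Letter → (ℕ → ℕ → Bool) → Prop
  | [], _ => True
  | l :: w, C => CRel l (C 0) (C 1) ∧ Col w (fun j => C (j + 1))

/-- Position behind the seam of the strand in position `q` of the top level (`n` strands). -/
def Space.seam : Space → ℕ → ℕ → ℕ
  | .S3, _, q => q
  | .RP3, n, q => n - 1 - q

/-- The closed diagram `D` is connected: it is non-empty and a two-colouring of its strands which is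
constant along strands is constant. -/
def Connected (X : Space) (D : Dg) : Prop :=
  (∃ j t, run D.s (D.w.take j) = some t ∧ t ≠ []) ∧
  ∀ C : ℕ → ℕ → Bool, Col D.w C →
    (∀ q, q < D.s.length → C D.w.length q = C 0 (X.seam D.s.length q)) →
    ∀ j j' q q' t t', j ≤ D.w.length → j' ≤ D.w.length →
      run D.s (D.w.take j) = some t → run D.s (D.w.take j') = some t' →
      q < t.length → q' < t'.length → C j q = C j' q'

/-- `D` is a knot diagram. -/
def IsKnot (X : Space) (D : Dg) : Prop := IsLink X D ∧ Connected X D

/-- Concordance of knots.  Two knots cobound a smooth annulus in `X × [0,1]` iff there is a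
knot `C` such that both are connected to `C` by movies with as many births as saddles (the annulus
is put in general position, births first, then the saddles which make the level connected, then the
other saddles, then the maxima; conversely such a movie has connected trace, since
it has no maxima and ends with a knot, and Euler characteristic 0). -/
def Concordant (X : Space) (A B : Dg) : Prop :=
  ∃ C b c, IsKnot X C ∧ Movie X A C b b ∧ Movie X B C c c

/-- One strand and no letter: in `S³` the unknot, in `RP³` the projective line `U₁`. -/
def line : Dg := ⟨[true], []⟩

/-- The word seen from behind, above a level of `n` strands. -/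
def flipWord : ℕ → List Letter → List Letter
  | _, [] => []
  | n, l :: w => l.flip n :: flipWord (n + l.outw - l.inw) w

/-- The preimage in `S³` of the link in `RP³` with diagram `D`: the annulus is the double cover of
the Moebius band. -/
def lift (D : Dg) : Dg := ⟨D.s, D.w ++ flipWord D.s.length D.w⟩

end FPS
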