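import Mathlib
import Pool.Agent.H61.RP.Defs

/-!
Labels of the regions of a diagram, the quadratic form, and the numerical condition `E`.

A level with `n` strands has the slots `0, ..., n` (the regions met by the level, from left to
right).  A labelling `F : ℕ → ℕ → k` gives the label `F j q` of slot `q` of level `j`.
-/

namespace FPS

open Letter

/-- Relation between the labels below and above a letter. -/
def Rel {k : Type} : Letter → (ℕ → k) → (ℕ → k) → Prop
  | .X i _ _, f, g => ∀ q, q ≠ i + 1 → g q = f q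
  | .cup i _, f, g => (∀ q, q ≤ i → g q = f q) ∧ ∀ q, i ≤ q → g (q + 2) = f q
  | .cap i, f, g => (∀ q, q ≤ i → g q = f q) ∧ ∀ q, i ≤ q → g q = f (q + 2)

/-- Valid labellings of a word (zero above the top level). -/
def Val {k : Type} [Zero k] : List Letter → (ℕ → ℕ → k) → Prop
  | [], F => ∀ j, F (j + 1) = 0
  | l :: w, F => Rel l (F 0) (F 1) ∧ Val w (fun j => F (j + 1))

/-- Valid labellings of the diagram with `n` strands at the bottom, closed in `RP³`. -/
def VV {k : Type} [Zero k] (n : ℕ) (w : List Letter) (F : ℕ → ℕ → k) : Prop :=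
  Val w F ∧ (∀ q, n < q → F 0 q = 0) ∧ ∀ q, q ≤ n → F w.length q = F 0 (n - q)

/-- The basic quadratic polynomial. -/
def qq (a b c d : ℚ) : ℚ := 2 * (a + b) ^ 2 - 2 * (a + b) * (c + d) - c ^ 2 - d ^ 2 + 4 * c * d

/-- Sign of a crossing. -/
def eps (e p : Bool) : ℚ := if e = p then 1 else -1

/-- Contribution of a letter with labels `f` below and `g` above. -/
def wt : Letter → (ℕ → ℚ) → (ℕ → ℚ) → ℚ
  | .X i e true, f, g => eps e true * qq (f i) (f (i + 2)) (g (i + 1)) (f (i + 1))
  | .X i e false, f, g => eps e false * qq (g (i + 1)) (f (i + 1)) (f i) (f (i + 2))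
  | .cup _ _, _, _ => 0
  | .cap _, _, _ => 0

/-- The quadratic form of a word. -/
def Qf : List Letter → (ℕ → ℕ → ℚ) → ℚ
  | [], _ => 0
  | l :: w, F => wt l (F 0) (F 1) + Qf w (fun j => F (j + 1))

/-- A letter counts for `σ` if it is a crossing of sign `σ`. -/
def cnt (σ : Bool) : Letter → ℕ
  | .X _ e p => if (e == p) = σ then 1 else 0
  | .cup _ _ => 0
  | .cap _ => 0

/-- Number of crossings of sign `σ`. -/
def cs (σ : Bool) (w : List Letter) : ℕ := (w.map (cnt σ)).sum

/-- `1` or `-1`. -/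
def sg (σ : Bool) : ℚ := if σ then 1 else -1

/-- There is a space of dimension at least `cs σ w + e` of valid labellings on which `σ Qf` is
positive semidefinite. -/
def E (σ : Bool) (n : ℕ) (w : List Letter) (e : ℤ) : Prop :=
  ∃ (M : Type) (_ : AddCommGroup M) (_ : Module ℚ M) (_ : FiniteDimensional ℚ M)
    (H : M →ₗ[ℚ] (ℕ → ℕ → ℚ)), Function.Injective H ∧ (∀ m, VV n w (H m)) ∧
    (∀ m, 0 ≤ sg σ * Qf w (H m)) ∧ (cs σ w : ℤ) + e ≤ Module.finrank ℚ M

end FPS
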