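import Mathlib
import Pool.Agent.H61.RP.Form

/-!
Append lemmas, local transformations `LT`, and the theorem `E_of_LT`.
-/

namespace FPS

open Letter

/-- The conditions on a labelling along a prefix `u`. -/
def Pre {k : Type} : List Letter → (ℕ → ℕ → k) → Prop
  | [], _ => True
  | l :: w, F => Rel l (F 0) (F 1) ∧ Pre w (fun j => F (j + 1))

theorem Pre_congr {k : Type} (u : List Letter) (F G : ℕ → ℕ → k)
    (h : ∀ j, j ≤ u.length → F j = G j) : Pre u F ↔ Pre u G := by
  induction u generalizing F G with
  | nil => simp [Pre]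
  | cons l u ih =>
    simp only [Pre]
    rw [h 0 (by simp), h 1 (by simp)]
    rw [ih (fun j => F (j + 1)) (fun j => G (j + 1)) (fun j hj => h (j + 1) (by simp; omega))]

theorem Qf_congr (u : List Letter) (F G : ℕ → ℕ → ℚ)
    (h : ∀ j, j ≤ u.length → F j = G j) : Qf u F = Qf u G := by
  induction u generalizing F G with
  | nil => simp [Qf]
  | cons l u ih =>
    simp only [Qf]
    rw [h 0 (by simp), h 1 (by simp)]
    rw [ih (fun j => F (j + 1)) (fun j => G (j + 1)) (fun j hj => h (j + 1) (by simp; omega))]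

theorem Val_append {k : Type} [Zero k] (u w : List Letter) (F : ℕ → ℕ → k) :
    Val (u ++ w) F ↔ Pre u F ∧ Val w (fun j => F (j + u.length)) := by
  induction u generalizing F with
  | nil => simp [Pre]
  | cons l u ih =>
    simp only [List.cons_append, Val, Pre, ih, List.length_cons]
    constructor
    · rintro ⟨h1, h2, h3⟩
      exact ⟨⟨h1, h2⟩, h3⟩
    · rintro ⟨⟨h1, h2⟩, h3⟩
      exact ⟨h1, h2, h3⟩

theorem Pre_append {k : Type} (u w : List Letter) (F : ℕ → ℕ → k) :
    Pre (u ++ w) F ↔ Pre u F ∧ Pre w (fun j => F (j + u.length)) := by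
  induction u generalizing F with
  | nil => simp [Pre]
  | cons l u ih =>
    simp only [List.cons_append, Pre, ih, List.length_cons]
    constructor
    · rintro ⟨h1, h2, h3⟩
      exact ⟨⟨h1, h2⟩, h3⟩
    · rintro ⟨⟨h1, h2⟩, h3⟩
      exact ⟨h1, h2, h3⟩

theorem Qf_append (u w : List Letter) (F : ℕ → ℕ → ℚ) :
    Qf (u ++ w) F = Qf u F + Qf w (fun j => F (j + u.length)) := by
  induction u generalizing F with
  | nil => simp [Qf]
  | cons l u ih =>
    simp only [List.cons_append, Qf, ih, List.length_cons]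
    rw [add_assoc]
    rfl

theorem cs_append (σ : Bool) (u w : List Letter) : cs σ (u ++ w) = cs σ u + cs σ w := by
  simp [cs]

theorem Val_iff_Pre {k : Type} [Zero k] (w : List Letter) (F : ℕ → ℕ → k) :
    Val w F ↔ Pre w F ∧ ∀ j, w.length < j → F j = 0 := by
  induction w generalizing F with
  | nil =>
    simp only [Val, Pre, List.length_nil, true_and]
    constructor
    · intro h j hj
      obtain ⟨i, rfl⟩ : ∃ i, j = i + 1 := ⟨j - 1, by omega⟩
      exact h i
    · intro h j
      exact h (j + 1) (by omega)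
  | cons l w ih =>
    simp only [Val, Pre, ih, List.length_cons]
    constructor
    · rintro ⟨h1, h2, h3⟩
      refine ⟨⟨h1, h2⟩, fun j hj => ?_⟩
      obtain ⟨i, rfl⟩ : ∃ i, j = i + 1 := ⟨j - 1, by omega⟩
      exact h3 i (by omega)
    · rintro ⟨⟨h1, h2⟩, h3⟩
      exact ⟨h1, h2, fun j hj => h3 (j + 1) (by omega)⟩

/-- A local transformation from the word `x` to the word `y` with a change `d` of dimension.
`T` is the family of labellings of `x` (the levels `0..|x|` matter; the levels above `|x|` are the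
labels of the rest of the diagram), `q` the contribution of the rest of the diagram to the form,
`K` the subspace on which all labels outside `x` vanish. -/
def LT (σ : Bool) (x y : List Letter) (d : ℤ) : Prop :=
  ∀ (M : Type) (_ : AddCommGroup M) (_ : Module ℚ M) (_ : FiniteDimensional ℚ M)
    (T : M →ₗ[ℚ] (ℕ → ℕ → ℚ)) (q : M → ℚ) (K : Submodule ℚ M),
    (∀ m ∈ K, T m 0 = 0 ∧ ∀ j, T m (j + x.length) = 0) →
    (∀ m, ∀ k ∈ K, q (m + k) = q m) →
    (∀ m ∈ K, T m = 0 → m = 0) →
    (∀ m, Pre x (T m)) →
    (∀ m, 0 ≤ q m + sg σ * Qf x (T m)) →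
    ∃ (M' : Type) (_ : AddCommGroup M') (_ : Module ℚ M') (_ : FiniteDimensional ℚ M')
      (i : M' →ₗ[ℚ] M) (T' : M' →ₗ[ℚ] (ℕ → ℕ → ℚ)),
      (∀ m, Pre y (T' m)) ∧ (∀ m, T' m 0 = T (i m) 0) ∧
      (∀ m j, T' m (j + y.length) = T (i m) (j + x.length)) ∧
      (∀ m, i m ∈ K → T' m = 0 → m = 0) ∧
      (∀ m, 0 ≤ q (i m) + sg σ * Qf y (T' m)) ∧
      (Module.finrank ℚ M : ℤ) + d ≤ Module.finrank ℚ M'

/-- Gluing a tail onto the first `p` levels of a labelling. -/
def glue {M' : Type} [AddCommGroup M'] [Module ℚ M'] (p : ℕ)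
    (A : M' →ₗ[ℚ] (ℕ → ℕ → ℚ)) (B : M' →ₗ[ℚ] (ℕ → ℕ → ℚ)) : M' →ₗ[ℚ] (ℕ → ℕ → ℚ) where
  toFun m := fun j => if j < p then A m j else B m (j - p)
  map_add' a b := by
    funext j q
    by_cases h : j < p <;> simp [h]
  map_smul' a b := by
    funext j q
    by_cases h : j < p <;> simp [h]

/-- Shift of a labelling. -/
def shiftL (p : ℕ) : (ℕ → ℕ → ℚ) →ₗ[ℚ] (ℕ → ℕ → ℚ) where
  toFun F := fun j => F (j + p)
  map_add' a b := by funext j q; simp
  map_smul' a b := by funext j q; simp

@[simp] theorem shiftL_apply (p : ℕ) (F : ℕ → ℕ → ℚ) (j : ℕ) : shiftL p F j = F (j + p) := rfl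

theorem wt_smul_zero (l : Letter) : wt l 0 0 = 0 := by
  cases l with
  | X i e p => cases p <;> simp [wt, qq]
  | cup i o => simp [wt]
  | cap i => simp [wt]

/-- The form does not see the labels which vanish. -/
theorem Qf_add_zero (u : List Letter) (F G : ℕ → ℕ → ℚ) (h : ∀ j, j ≤ u.length → G j = 0) :
    Qf u (F + G) = Qf u F := by
  apply Qf_congr
  intro j hj
  simp [h j hj]

theorem E_of_LT {σ : Bool} {x y : List Letter} {d : ℤ} (hLT : LT σ x y d) (n : ℕ)
    (u v : List Letter) (e : ℤ) (hE : E σ n (u ++ x ++ v) e) :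
    E σ n (u ++ y ++ v) (e + d + cs σ x - cs σ y) := by
  obtain ⟨M, _, _, _, H, hinj, hV, hpos, hdim⟩ := hE
  set p := u.length with hp
  let T : M →ₗ[ℚ] (ℕ → ℕ → ℚ) := (shiftL p).comp H
  let K : Submodule ℚ M :=
    { carrier := {m | (∀ j, j ≤ p → H m j = 0) ∧ ∀ j, H m (j + x.length + p) = 0}
      add_mem' := by
        rintro a b ⟨h1, h2⟩ ⟨h3, h4⟩
        exact ⟨fun j hj => by simp [h1 j hj, h3 j hj], fun j => by simp [h2 j, h4 j]⟩
      zero_mem' := ⟨fun j _ => by simp, fun j => by simp⟩
      smul_mem' := by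
        rintro c a ⟨h1, h2⟩
        exact ⟨fun j hj => by simp [h1 j hj], fun j => by simp [h2 j]⟩ }
  let q : M → ℚ := fun m => sg σ * (Qf u (H m) + Qf v (fun j => H m (j + x.length + p)))
  have hVal : ∀ m, Pre u (H m) ∧ Pre x (T m) ∧ Val v (fun j => H m (j + x.length + p)) := by
    intro m
    have h := (hV m).1
    rw [List.append_assoc, Val_append, Val_append] at h
    exact h
  have hQ : ∀ m, Qf (u ++ x ++ v) (H m) =
      Qf u (H m) + (Qf x (T m) + Qf v (fun j => H m (j + x.length + p))) := by
    intro m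
    rw [List.append_assoc, Qf_append, Qf_append]
    rfl
  obtain ⟨M', _, _, _, i, T', h1, h2, h3, h4, h5, h6⟩ := hLT M _ _ inferInstance T q K
    (by
      rintro m ⟨ha, hb⟩
      refine ⟨?_, ?_⟩
      · have := ha p le_rfl
        simpa [T] using this
      · intro j
        exact hb j)
    (by
      rintro m k ⟨ha, hb⟩
      have e1 : Qf u (H (m + k)) = Qf u (H m) := by
        rw [map_add]
        exact Qf_add_zero u _ _ (fun j hj => ha j hj)
      have e2 : Qf v (fun j => H (m + k) (j + x.length + p)) =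
          Qf v (fun j => H m (j + x.length + p)) := by
        apply Qf_congr
        intro j _
        rw [map_add]
        have := hb j
        simp [this]
      simp only [q, e1, e2])
    (by
      rintro m ⟨ha, hb⟩ hT
      apply hinj
      rw [map_zero]
      funext j
      by_cases hj : j ≤ p
      · exact ha j hj
      · have := congrFun hT (j - p)
        have h2 : T m (j - p) = H m (j - p + p) := rfl
        rw [h2, show j - p + p = j by omega] at this
        exact this)
    (fun m => (hVal m).2.1)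
    (by
      intro m
      have h := hpos m
      rw [hQ] at h
      simp only [q]
      linarith [h, mul_add (sg σ) (Qf u (H m)) (Qf x (T m) + Qf v (fun j => H m (j + x.length + p))),
        mul_add (sg σ) (Qf x (T m)) (Qf v (fun j => H m (j + x.length + p))),
        mul_add (sg σ) (Qf u (H m)) (Qf v (fun j => H m (j + x.length + p)))])
  let H' : M' →ₗ[ℚ] (ℕ → ℕ → ℚ) := glue p (H.comp i) T'
  have hH'lt : ∀ m j, j < p → H' m j = H (i m) j := by
    intro m j hj
    change (if j < p then H (i m) j else T' m (j - p)) = _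
    rw [if_pos hj]
  have hH'ge : ∀ m j, H' m (j + p) = T' m j := by
    intro m j
    change (if j + p < p then H (i m) (j + p) else T' m (j + p - p)) = _
    rw [if_neg (by omega), Nat.add_sub_cancel]
  have hTi : ∀ m j, T (i m) j = H (i m) (j + p) := fun m j => rfl
  have hH'le : ∀ m j, j ≤ p → H' m j = H (i m) j := by
    intro m j hj
    rcases Nat.lt_or_eq_of_le hj with h | h
    · exact hH'lt m j h
    · subst h
      have := hH'ge m 0
      rw [Nat.zero_add] at this
      rw [this, h2, hTi, Nat.zero_add]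
  have hH'end : ∀ m j, H' m (j + y.length + p) = H (i m) (j + x.length + p) := by
    intro m j
    rw [hH'ge, h3, hTi]
  refine ⟨M', _, _, inferInstance, H', ?_, ?_, ?_, ?_⟩
  · rw [injective_iff_map_eq_zero]
    intro m hm
    have hT0 : T' m = 0 := by
      funext j
      rw [← hH'ge m j, hm]
      rfl
    apply h4 m _ hT0
    refine ⟨fun j hj => ?_, fun j => ?_⟩
    · rw [← hH'le m j hj, hm]
      rfl
    · rw [← hH'end m j, hm]
      rfl
  · intro m
    obtain ⟨g1, g2, g3⟩ := hVal (i m)
    obtain ⟨_, k2, k3⟩ := hV (i m)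
    refine ⟨?_, ?_, ?_⟩
    · rw [List.append_assoc, Val_append, Val_append]
      refine ⟨?_, ?_, ?_⟩
      · rw [Pre_congr u (H' m) (H (i m)) (fun j hj => hH'le m j hj)]
        exact g1
      · have : (fun j => H' m (j + u.length)) = T' m := by
          funext j
          exact hH'ge m j
        rw [this]
        exact h1 m
      · have : (fun j => (fun j => H' m (j + u.length)) (j + y.length)) =
            fun j => H (i m) (j + x.length + p) := by
          funext j
          exact hH'end m j
        rw [this]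
        exact g3
    · intro q hq
      rw [hH'le m 0 (Nat.zero_le _)]
      exact k2 q hq
    · intro q hq
      have e1 : (u ++ y ++ v).length = v.length + y.length + p := by
        simp [hp]; omega
      have e2 : (u ++ x ++ v).length = v.length + x.length + p := by
        simp [hp]; omega
      rw [e1, hH'end, hH'le m 0 (Nat.zero_le _), ← e2]
      exact k3 q hq
  · intro m
    have h := h5 m
    have e1 : Qf (u ++ y ++ v) (H' m) =
        Qf u (H (i m)) + (Qf y (T' m) + Qf v (fun j => H (i m) (j + x.length + p))) := by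
      rw [List.append_assoc, Qf_append, Qf_append]
      rw [Qf_congr u (H' m) (H (i m)) (fun j hj => hH'le m j hj)]
      have t1 : (fun j => H' m (j + u.length)) = T' m := by
        funext j
        exact hH'ge m j
      have t2 : (fun j => (fun j => H' m (j + u.length)) (j + y.length)) =
            fun j => H (i m) (j + x.length + p) := by
        funext j
        exact hH'end m j
      rw [t2, t1]
    rw [e1]
    simp only [q] at h
    linarith [h, mul_add (sg σ) (Qf u (H (i m)))
        (Qf y (T' m) + Qf v (fun j => H (i m) (j + x.length + p))),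
      mul_add (sg σ) (Qf y (T' m)) (Qf v (fun j => H (i m) (j + x.length + p))),
      mul_add (sg σ) (Qf u (H (i m))) (Qf v (fun j => H (i m) (j + x.length + p)))]
  · rw [cs_append, cs_append] at *
    push_cast at *
    linarith

/-- Isometric local transformations. -/
theorem LT_iso (σ : Bool) (x y : List Letter) (φ : (ℕ → ℕ → ℚ) →ₗ[ℚ] (ℕ → ℕ → ℚ))
    (h0 : ∀ F, φ F 0 = F 0) (h1 : ∀ F j, φ F (j + y.length) = F (j + x.length))
    (h2 : ∀ F, Pre x F → Pre y (φ F) ∧ Qf y (φ F) = Qf x F ∧ (φ F = 0 → F = 0)) :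
    LT σ x y 0 := by
  intro M _ _ _ T q K hK hq hinj hpre hpos
  refine ⟨M, _, _, ‹_›, LinearMap.id, φ.comp T, ?_, ?_, ?_, ?_, ?_, ?_⟩
  · exact fun m => (h2 _ (hpre m)).1
  · exact fun m => h0 _
  · exact fun m j => h1 _ j
  · exact fun m hm h => hinj m hm ((h2 _ (hpre m)).2.2 h)
  · intro m
    have := hpos m
    rw [← (h2 _ (hpre m)).2.1] at this
    exact this
  · simp

end FPS
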