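import Mathlib
import Pool.Agent.H61.RP.Base

/-!
The bilinear form of the quadratic form `Qf`, and the criterion `E_of_orth`.
-/

namespace FPS

open Letter

/-- Bilinear version of `qq`, over any commutative ring. -/
def qb {R : Type} [CommRing R] (a b c d a' b' c' d' : R) : R :=
  2 * (a + b) * (a' + b') - (a + b) * (c' + d') - (a' + b') * (c + d) - c * c' - d * d'
    + 2 * c * d' + 2 * c' * d

/-- Sign of a crossing in a ring. -/
def epsR (R : Type) [CommRing R] (e p : Bool) : R := if e = p then 1 else -1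

/-- Bilinear version of `wt`. -/
def wb {R : Type} [CommRing R] : Letter → (ℕ → R) → (ℕ → R) → (ℕ → R) → (ℕ → R) → R
  | .X i e true, f, g, f', g' => epsR R e true *
      qb (f i) (f (i + 2)) (g (i + 1)) (f (i + 1)) (f' i) (f' (i + 2)) (g' (i + 1)) (f' (i + 1))
  | .X i e false, f, g, f', g' => epsR R e false *
      qb (g (i + 1)) (f (i + 1)) (f i) (f (i + 2)) (g' (i + 1)) (f' (i + 1)) (f' i) (f' (i + 2))
  | .cup _ _, _, _, _, _ => 0
  | .cap _, _, _, _, _ => 0

/-- The bilinear form of a word. -/
def Bf {R : Type} [CommRing R] : List Letter → (ℕ → ℕ → R) → (ℕ → ℕ → R) → R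
  | [], _, _ => 0
  | l :: w, F, G => wb l (F 0) (F 1) (G 0) (G 1) + Bf w (fun j => F (j + 1)) (fun j => G (j + 1))

theorem wb_self (l : Letter) (f g : ℕ → ℚ) : wb l f g f g = wt l f g := by
  cases l with
  | X i e p =>
    cases p <;> cases e <;> simp [wb, wt, qb, qq, epsR, eps] <;> ring
  | cup i o => simp [wb, wt]
  | cap i => simp [wb, wt]

theorem Bf_self (w : List Letter) (F : ℕ → ℕ → ℚ) : Bf w F F = Qf w F := by
  induction w generalizing F with
  | nil => simp [Bf, Qf]
  | cons l w ih => simp [Bf, Qf, wb_self, ih]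

theorem wb_symm {R : Type} [CommRing R] (l : Letter) (f g f' g' : ℕ → R) :
    wb l f g f' g' = wb l f' g' f g := by
  cases l with
  | X i e p =>
    cases p <;> simp only [wb, qb] <;> ring
  | cup i o => simp [wb]
  | cap i => simp [wb]

theorem Bf_symm {R : Type} [CommRing R] (w : List Letter) (F G : ℕ → ℕ → R) :
    Bf w F G = Bf w G F := by
  induction w generalizing F G with
  | nil => simp [Bf]
  | cons l w ih => simp only [Bf]; rw [wb_symm, ih]

theorem wb_add {R : Type} [CommRing R] (l : Letter) (f₁ g₁ f₂ g₂ f' g' : ℕ → R) :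
    wb l (f₁ + f₂) (g₁ + g₂) f' g' = wb l f₁ g₁ f' g' + wb l f₂ g₂ f' g' := by
  cases l with
  | X i e p =>
    cases p <;> simp only [wb, qb, Pi.add_apply] <;> ring
  | cup i o => simp [wb]
  | cap i => simp [wb]

theorem Bf_add {R : Type} [CommRing R] (w : List Letter) (F G H : ℕ → ℕ → R) :
    Bf w (F + G) H = Bf w F H + Bf w G H := by
  induction w generalizing F G H with
  | nil => simp [Bf]
  | cons l w ih =>
    simp only [Bf]
    have h1 : (fun j => (F + G) (j + 1)) = (fun j => F (j + 1)) + (fun j => G (j + 1)) := rfl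
    rw [h1, ih]
    have h2 : (F + G) 0 = F 0 + G 0 := rfl
    have h3 : (F + G) 1 = F 1 + G 1 := rfl
    rw [h2, h3, wb_add]
    ring

theorem wb_smul {R : Type} [CommRing R] (c : R) (l : Letter) (f g f' g' : ℕ → R) :
    wb l (c • f) (c • g) f' g' = c * wb l f g f' g' := by
  cases l with
  | X i e p =>
    cases p <;> simp only [wb, qb, Pi.smul_apply, smul_eq_mul] <;> ring
  | cup i o => simp [wb]
  | cap i => simp [wb]

theorem Bf_smul {R : Type} [CommRing R] (c : R) (w : List Letter) (F H : ℕ → ℕ → R) :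
    Bf w (c • F) H = c * Bf w F H := by
  induction w generalizing F H with
  | nil => simp [Bf]
  | cons l w ih =>
    simp only [Bf]
    have h1 : (fun j => (c • F) (j + 1)) = c • (fun j => F (j + 1)) := rfl
    rw [h1, ih]
    have h2 : (c • F) 0 = c • F 0 := rfl
    have h3 : (c • F) 1 = c • F 1 := rfl
    rw [h2, h3, wb_smul]
    ring

/-- The bilinear form as a bilinear map. -/
def BL (w : List Letter) : (ℕ → ℕ → ℚ) →ₗ[ℚ] (ℕ → ℕ → ℚ) →ₗ[ℚ] ℚ :=
  LinearMap.mk₂ ℚ (Bf w) (Bf_add w) (fun c F H => Bf_smul c w F H)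
    (fun F G H => by rw [Bf_symm, Bf_add, Bf_symm w G F, Bf_symm w H F])
    (fun c F H => by rw [Bf_symm, Bf_smul, Bf_symm w H F]; rfl)

@[simp] theorem BL_apply (w : List Letter) (F G : ℕ → ℕ → ℚ) : BL w F G = Bf w F G := rfl

/-- The valid labellings form a subspace. -/
def VVs (k : Type) [Field k] (n : ℕ) (w : List Letter) : Submodule k (ℕ → ℕ → k) where
  carrier := {F | VV n w F}
  add_mem' := by
    rintro F G ⟨h1, h2, h3⟩ ⟨g1, g2, g3⟩
    refine ⟨?_, ?_, ?_⟩
    · clear h2 h3 g2 g3
      induction w generalizing F G with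
      | nil => intro j; simp [h1 j, g1 j]
      | cons l w ih =>
        refine ⟨?_, ih (F := fun j => F (j + 1)) (G := fun j => G (j + 1)) h1.2 g1.2⟩
        have a := h1.1
        have b := g1.1
        cases l with
        | X i e p => intro q hq; simp [a q hq, b q hq]
        | cup i o =>
          exact ⟨fun q hq => by simp [a.1 q hq, b.1 q hq], fun q hq => by simp [a.2 q hq, b.2 q hq]⟩
        | cap i =>
          exact ⟨fun q hq => by simp [a.1 q hq, b.1 q hq], fun q hq => by simp [a.2 q hq, b.2 q hq]⟩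
    · intro q hq
      simp [h2 q hq, g2 q hq]
    · intro q hq
      simp [h3 q hq, g3 q hq]
  zero_mem' := by
    refine ⟨?_, ?_, ?_⟩
    · induction w with
      | nil => intro j; rfl
      | cons l w ih =>
        refine ⟨?_, ih⟩
        cases l with
        | X i e p => intro q hq; rfl
        | cup i o => exact ⟨fun q hq => rfl, fun q hq => rfl⟩
        | cap i => exact ⟨fun q hq => rfl, fun q hq => rfl⟩
    · intro q hq
      rfl
    · intro q hq
      rfl
  smul_mem' := by
    rintro c F ⟨h1, h2, h3⟩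
    refine ⟨?_, ?_, ?_⟩
    · clear h2 h3
      induction w generalizing F with
      | nil => intro j; simp [h1 j]
      | cons l w ih =>
        refine ⟨?_, ih (F := fun j => F (j + 1)) h1.2⟩
        have a := h1.1
        cases l with
        | X i e p => intro q hq; simp [a q hq]
        | cup i o =>
          exact ⟨fun q hq => by simp [a.1 q hq], fun q hq => by simp [a.2 q hq]⟩
        | cap i =>
          exact ⟨fun q hq => by simp [a.1 q hq], fun q hq => by simp [a.2 q hq]⟩
    · intro q hq
      simp [h2 q hq]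
    · intro q hq
      simp [h3 q hq]

/-- A family of valid labellings, orthogonal and of positive square, gives `E`. -/
theorem E_of_orth (σ : Bool) (n : ℕ) (w : List Letter) (d : ℕ) (b : Fin d → (ℕ → ℕ → ℚ))
    (hV : ∀ i, VV n w (b i)) (horth : ∀ i j, i ≠ j → Bf w (b i) (b j) = 0)
    (hpos : ∀ i, 0 < sg σ * Bf w (b i) (b i)) (e : ℤ) (he : (cs σ w : ℤ) + e ≤ d) :
    E σ n w e := by
  classical
  let H : (Fin d → ℚ) →ₗ[ℚ] (ℕ → ℕ → ℚ) := Fintype.linearCombination ℚ b
  have hH : ∀ x, H x = ∑ i, x i • b i := fun x => by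
    simp [H, Fintype.linearCombination_apply]
  have hB : ∀ x, Bf w (H x) (H x) = ∑ i, x i * x i * Bf w (b i) (b i) := by
    intro x
    have h1 : Bf w (H x) (H x) = BL w (H x) (H x) := rfl
    rw [h1, hH, map_sum]
    apply Finset.sum_congr rfl
    intro i _
    rw [map_sum, LinearMap.sum_apply, Finset.sum_eq_single i]
    · simp; ring
    · intro j _ hj
      simp [horth j i hj]
    · simp
  have hsq : ∀ x, sg σ * Bf w (H x) (H x) = ∑ i, x i * x i * (sg σ * Bf w (b i) (b i)) := by
    intro x
    rw [hB, Finset.mul_sum]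
    apply Finset.sum_congr rfl
    intro i _
    ring
  refine ⟨Fin d → ℚ, inferInstance, inferInstance, inferInstance, H, ?_, ?_, ?_, ?_⟩
  · rw [injective_iff_map_eq_zero]
    intro x hx
    have h0 : sg σ * Bf w (H x) (H x) = 0 := by
      rw [hx]
      have : Bf w (0 : ℕ → ℕ → ℚ) 0 = BL w 0 0 := rfl
      rw [this]
      simp
    rw [hsq] at h0
    have h1 := (Finset.sum_eq_zero_iff_of_nonneg
      (fun i _ => mul_nonneg (mul_self_nonneg (x i)) (le_of_lt (hpos i)))).mp h0
    funext i
    have h2 := h1 i (Finset.mem_univ i)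
    rcases mul_eq_zero.mp h2 with h | h
    · exact mul_self_eq_zero.mp h
    · exact absurd h (ne_of_gt (hpos i))
  · intro x
    rw [hH]
    exact Submodule.sum_mem (VVs ℚ n w) (fun i _ => Submodule.smul_mem _ _ (hV i))
  · intro x
    rw [← Bf_self, hsq]
    exact Finset.sum_nonneg
      (fun i _ => mul_nonneg (mul_self_nonneg (x i)) (le_of_lt (hpos i)))
  · simpa using he

end FPS
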