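import Mathlib
import Pool.Agent.H61.RP.Defs

/-!
The example: a class 1 knot in `RP³` with a diagram with 7 strands and 22 crossings.
-/

namespace FPS

open Letter

/-- The knot `K`. -/
def Kex : Dg :=
  ⟨[true, false, true, true, false, true, false],
    [.X 2 false true, .X 3 false false, .X 1 false false, .X 2 false true,
     .X 4 false true, .X 5 false false, .X 3 false false, .X 4 false true,
     .X 4 false true, .X 5 false false, .X 3 false false, .X 4 false true,
     .cup 1 false, .X 0 true false, .X 2 false true, .X 3 false false,
     .X 4 false false, .X 3 false true, .X 2 false false, .X 4 false false,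
     .X 3 false true, .cap 5, .X 4 false true, .X 5 false false]⟩

end FPS
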