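import Mathlib
import Pool.Agent.H61.RP.Bil
import Pool.Agent.H61.RP.Kex

/-!
The certificate for `Kex`: the diagram has 23 regions, and 13 explicit labellings of the regions which are
orthogonal and of positive square for the form; there are 11 positive crossings.
-/

namespace FPS

open Letter

private theorem wb_cast (l : Letter) (f g f' g' : ℕ → ℤ) :
    wb l (fun q => (f q : ℚ)) (fun q => (g q : ℚ)) (fun q => (f' q : ℚ)) (fun q => (g' q : ℚ)) =
      ((wb l f g f' g' : ℤ) : ℚ) := by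
  cases l with
  | X i e p => cases p <;> cases e <;> simp [wb, qb, epsR]
  | cup i o => simp [wb]
  | cap i => simp [wb]

private theorem Bf_castQ (w : List Letter) (A B : ℕ → ℕ → ℤ) :
    Bf w (fun j q => (A j q : ℚ)) (fun j q => (B j q : ℚ)) = ((Bf w A B : ℤ) : ℚ) := by
  induction w generalizing A B with
  | nil => simp [Bf]
  | cons l w ih =>
    simp only [Bf]
    rw [wb_cast l (A 0) (A 1) (B 0) (B 1), ih (fun j => A (j + 1)) (fun j => B (j + 1))]
    push_cast
    ring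

private theorem Val_map {k k' : Type} [Zero k] [Zero k'] (τ : k → k') (h0 : τ 0 = 0)
    (w : List Letter) (F : ℕ → ℕ → k) (h : Val w F) : Val w (fun j q => τ (F j q)) := by
  induction w generalizing F with
  | nil =>
    intro j
    funext q
    have := congrFun (h j) q
    simp only [this, Pi.zero_apply, h0]
  | cons l w ih =>
    refine ⟨?_, ih (fun j => F (j + 1)) h.2⟩
    have h1 := h.1
    cases l with
    | X i e p => intro q hq; simp only [h1 q hq]
    | cup i o =>
      exact ⟨fun q hq => by simp only [h1.1 q hq], fun q hq => by simp only [h1.2 q hq]⟩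
    | cap i =>
      exact ⟨fun q hq => by simp only [h1.1 q hq], fun q hq => by simp only [h1.2 q hq]⟩

/-- Names of the regions: level by level, slot by slot. -/
def tabK : List (List ℕ) :=
  [
   [1, 2, 3, 4, 5, 6, 7, 1],
   [1, 2, 3, 8, 5, 6, 7, 1],
   [1, 2, 3, 8, 9, 6, 7, 1],
   [1, 2, 10, 8, 9, 6, 7, 1],
   [1, 2, 10, 11, 9, 6, 7, 1],
   [1, 2, 10, 11, 9, 12, 7, 1],
   [1, 2, 10, 11, 9, 12, 13, 1],
   [1, 2, 10, 11, 14, 12, 13, 1],
   [1, 2, 10, 11, 14, 15, 13, 1],
   [1, 2, 10, 11, 14, 16, 13, 1],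
   [1, 2, 10, 11, 14, 16, 17, 1],
   [1, 2, 10, 11, 18, 16, 17, 1],
   [1, 2, 10, 11, 18, 19, 17, 1],
   [1, 2, 6, 2, 10, 11, 18, 19, 17, 1],
   [1, 7, 6, 2, 10, 11, 18, 19, 17, 1],
   [1, 7, 6, 20, 10, 11, 18, 19, 17, 1],
   [1, 7, 6, 20, 21, 11, 18, 19, 17, 1],
   [1, 7, 6, 20, 21, 22, 18, 19, 17, 1],
   [1, 7, 6, 20, 23, 22, 18, 19, 17, 1],
   [1, 7, 6, 5, 23, 22, 18, 19, 17, 1],
   [1, 7, 6, 5, 23, 19, 18, 19, 17, 1],
   [1, 7, 6, 5, 4, 19, 18, 19, 17, 1],
   [1, 7, 6, 5, 4, 19, 17, 1],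
   [1, 7, 6, 5, 4, 3, 17, 1],
   [1, 7, 6, 5, 4, 3, 2, 1]
  ]

/-- Name of the region at slot `q` of level `j` (0 outside). -/
def rhoK (j q : ℕ) : ℕ := (tabK.getD j []).getD q 0

/-- Bounded check of the relation of a letter. -/
def relChk (l : Letter) (f g : List ℕ) : Bool :=
  decide (f.length ≤ 12) && decide (g.length ≤ 12) &&
  match l with
  | .X i _ _ => (List.range 12).all fun q => (q == i + 1) || (g.getD q 0 == f.getD q 0)
  | .cup i _ => (List.range 12).all fun q => (!(decide (q ≤ i)) || (g.getD q 0 == f.getD q 0)) &&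
      (!(decide (i ≤ q)) || (g.getD (q + 2) 0 == f.getD q 0))
  | .cap i => (List.range 12).all fun q => (!(decide (q ≤ i)) || (g.getD q 0 == f.getD q 0)) &&
      (!(decide (i ≤ q)) || (g.getD q 0 == f.getD (q + 2) 0))

private theorem getD_big {f : List ℕ} (h : f.length ≤ 12) {q : ℕ} (hq : 12 ≤ q) :
    f.getD q 0 = 0 := List.getD_eq_default _ _ (le_trans h hq)

theorem relChk_sound (l : Letter) (f g : List ℕ) (h : relChk l f g = true) :
    Rel l (fun q => f.getD q 0) (fun q => g.getD q 0) := by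
  unfold relChk at h
  cases l with
  | X i e p =>
    simp only [Bool.and_eq_true, decide_eq_true_eq, List.all_eq_true, List.mem_range,
      Bool.or_eq_true, beq_iff_eq] at h
    obtain ⟨⟨hf, hg⟩, h⟩ := h
    intro q hq
    by_cases h12 : q < 12
    · rcases h q h12 with h' | h'
      · exact absurd h' hq
      · exact h'
    · simp only
      rw [getD_big hf (by omega), getD_big hg (by omega)]
  | cup i o =>
    simp only [Bool.and_eq_true, decide_eq_true_eq, List.all_eq_true, List.mem_range,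
      Bool.or_eq_true, beq_iff_eq, Bool.not_eq_true', decide_eq_false_iff_not] at h
    obtain ⟨⟨hf, hg⟩, h⟩ := h
    refine ⟨fun q hq => ?_, fun q hq => ?_⟩
    · by_cases h12 : q < 12
      · rcases (h q h12).1 with h' | h'
        · exact absurd hq h'
        · exact h'
      · simp only
        rw [getD_big hf (by omega), getD_big hg (by omega)]
    · by_cases h12 : q < 12
      · rcases (h q h12).2 with h' | h'
        · exact absurd hq h'
        · exact h'
      · simp only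
        rw [getD_big hf (by omega), getD_big hg (by omega)]
  | cap i =>
    simp only [Bool.and_eq_true, decide_eq_true_eq, List.all_eq_true, List.mem_range,
      Bool.or_eq_true, beq_iff_eq, Bool.not_eq_true', decide_eq_false_iff_not] at h
    obtain ⟨⟨hf, hg⟩, h⟩ := h
    refine ⟨fun q hq => ?_, fun q hq => ?_⟩
    · by_cases h12 : q < 12
      · rcases (h q h12).1 with h' | h'
        · exact absurd hq h'
        · exact h'
      · simp only
        rw [getD_big hf (by omega), getD_big hg (by omega)]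
    · by_cases h12 : q < 12
      · rcases (h q h12).2 with h' | h'
        · exact absurd hq h'
        · exact h'
      · simp only
        rw [getD_big hf (by omega), getD_big hg (by omega)]

/-- Check of all relations. -/
def valChk : List Letter → List (List ℕ) → Bool
  | [], t => decide (t.length ≤ 1)
  | l :: w, f :: g :: t => relChk l f g && valChk w (g :: t)
  | _, _ => false

theorem valChk_sound (w : List Letter) (t : List (List ℕ)) (h : valChk w t = true) :
    Val w (fun j q => (t.getD j []).getD q 0) := by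
  induction w generalizing t with
  | nil =>
    intro j
    simp only [valChk, decide_eq_true_eq] at h
    funext q
    have : t.getD (j + 1) [] = [] := List.getD_eq_default _ _ (by omega)
    simp only [this, List.getD_nil, Pi.zero_apply]
  | cons l w ih =>
    match t, h with
    | f :: g :: t, h =>
      simp only [valChk, Bool.and_eq_true] at h
      refine ⟨relChk_sound l f g h.1, ?_⟩
      exact ih (g :: t) h.2

theorem rhoK_valid : VV Kex.s.length Kex.w rhoK := by
  refine ⟨valChk_sound Kex.w tabK (by decide +kernel), ?_, ?_⟩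
  · intro q hq
    have h1 : (tabK.getD 0 []).length ≤ 8 := by decide
    have h2 : Kex.s.length = 7 := by decide
    exact List.getD_eq_default _ _ (by omega)
  · have h2 : Kex.s.length = 7 := by decide
    rw [h2]
    have h3 : ∀ q, q < 8 → rhoK Kex.w.length q = rhoK 0 (7 - q) := by decide +kernel
    intro q hq
    exact h3 q (by omega)

/-- The labels of the regions in the 13 labellings (entry 0 is the outside). -/
def vecsK : List (List ℤ) :=
  [
   [0, 0, 0, 0, 0, 0, 0, 0, 0, 0, 0, 0, 0, 0, 0, 0, 0, 0, 0, 0, 0, 1, 0, 0],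
   [0, 0, 0, 0, 0, 0, 0, 0, 0, 0, 0, 0, 0, 0, 0, 0, 0, 0, 0, 0, 0, 0, 1, 0],
   [0, 0, 0, 0, 0, 0, 0, -1, 0, 1, 0, 0, 0, 0, 0, 0, 0, 0, 0, 0, 0, 0, 0, 0],
   [0, 0, 0, 0, 0, 0, 0, -1, 0, 2, 0, 0, 0, 1, -1, 0, 0, 0, 0, 0, 0, 0, 0, 0],
   [0, 0, 0, 0, 0, 0, 1, 1, 0, 0, 0, 0, 0, 0, 1, 0, 0, 1, 0, 0, 0, 1, 0, 1],
   [0, 0, 0, 0, 0, 1, 0, 0, 0, 0, 0, 0, -1, 0, -1, 0, 0, -2, 0, 0, 1, 0, 1, 0],
   [0, 0, 0, 0, 0, 0, -1, 0, 0, -1, 0, 0, 0, 0, 0, 1, 0, -1, 0, 0, 0, -1, 0, -1],
   [0, 0, 0, 1, 0, 1, 0, 0, 0, 0, 1, 0, -1, 0, 0, 0, 1, 0, 0, 0, 1, 0, 1, 1],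
   [0, 0, 0, 0, 0, 0, 0, 0, 0, 1, 0, 0, 2, 1, 0, 0, -1, 0, 1, 0, -1, 1, 0, 2],
   [0, 0, 0, 0, 0, 2, 0, 0, 2, -1, 2, -1, -1, -1, 0, -1, -1, 1, -1, 0, 1, -1, 1, 1],
   [0, 1, 0, 1, 0, 0, 0, 0, 2, 1, -1, 0, 1, 1, -1, 1, 0, -2, 0, 0, 0, 0, 0, -1],
   [0, -1, 0, 2, 1, 2, 0, -1, 0, 1, 2, -1, -2, 0, -1, -2, -1, 0, 0, 0, 0, -1, 1, 2],
   [0, 0, 2, -1, 1, 0, 0, -1, -2, -1, 1, 1, -1, 0, 0, 1, 2, 0, 1, 0, -1, 0, -1, 1]
  ]

/-- The labellings. -/
def bZ (i : Fin 13) (j q : ℕ) : ℤ := (vecsK.getD i.1 []).getD (rhoK j q) 0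

theorem bZ_zero (i : Fin 13) : (vecsK.getD i.1 []).getD 0 0 = 0 := by
  revert i
  decide +kernel

theorem bZ_orth : ∀ i j : Fin 13, i ≠ j → Bf Kex.w (bZ i) (bZ j) = 0 := by
  decide +kernel

theorem bZ_pos : ∀ i : Fin 13, 0 < Bf Kex.w (bZ i) (bZ i) := by
  decide +kernel

theorem E_Kex : E true Kex.s.length Kex.w 2 := by
  refine E_of_orth true Kex.s.length Kex.w 13 (fun i j q => (bZ i j q : ℚ)) ?_ ?_ ?_ 2 (by decide)
  · intro i
    obtain ⟨h1, h2, h3⟩ := rhoK_valid
    have h0 : ((((vecsK.getD i.1 []).getD 0 0 : ℤ)) : ℚ) = 0 := by rw [bZ_zero i]; rfl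
    refine ⟨?_, ?_, ?_⟩
    · exact Val_map (fun r => (((vecsK.getD i.1 []).getD r 0 : ℤ) : ℚ)) h0 Kex.w rhoK h1
    · intro q hq
      simp only [bZ, h2 q hq]
      exact h0
    · intro q hq
      simp only [bZ, h3 q hq]
  · intro i j hij
    rw [Bf_castQ, bZ_orth i j hij]
    rfl
  · intro i
    rw [Bf_castQ]
    have := bZ_pos i
    simp only [sg, if_true, one_mul]
    exact_mod_cast this

end FPS
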