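import Mathlib
import Pool.Agent.H61.RP.Bil

/-!
Index type of the crossings, and the linear forms `λ`.
-/

namespace FPS

open Letter

/-- Is the letter a crossing? -/
def isX : Letter → Bool
  | .X _ _ _ => true
  | .cup _ _ => false
  | .cap _ => false

/-- The crossings of a word. -/
abbrev CI (w : List Letter) : Type := {j : Fin w.length // isX (w.get j) = true}

/-- Sum of the labels around a crossing. -/
def lamL {k : Type} [Add k] [Zero k] : Letter → (ℕ → k) → (ℕ → k) → k
  | .X i _ _, f, g => f i + f (i + 2) + f (i + 1) + g (i + 1)
  | .cup _ _, _, _ => 0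
  | .cap _, _, _ => 0

/-- Sum of the labels around the crossing `j`. -/
def lam {k : Type} [Add k] [Zero k] (w : List Letter) (F : ℕ → ℕ → k) (j : Fin w.length) : k :=
  lamL (w.get j) (F j) (F (j + 1))

end FPS
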