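import Mathlib
import Pool.Agent.H61.RP.Cross

/-!
MODULE CrossCard (about 60 lines).  Number of crossings, and the mod 3 congruence.

`card_CI`: induction on `w`; or `Fintype.card {j : Fin n // P j} = ∑ j, if P j then 1 else 0`
(`Fintype.card_subtype`, `Finset.card_filter`), `Fin.sum_univ_succ`; `cnt true l + cnt false l = if isX l then 1 else 0`.

`Bf_mod3`: for integer labellings, `Bf w A B ≡ - ∑_v epsR (e,p of v) λ_v(A) λ_v(B)` mod 3.  It suffices to
have: `((Bf w A B : ℤ) : ZMod 3) = ∑ v : CI w, sgX (w.get v) * lam w A3 v * lam w B3 v` where `A3 j q = (A j q : ZMod 3)`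
and `sgX (X i e p) = - epsR (ZMod 3) e p`.  Induction on `w` (write the sum over all `j : Fin w.length`, where the
summand vanishes for cups and caps because `lamL = 0`, `Fin.sum_univ_succ`); at a crossing the identity
`qb a b c d a' b' c' d' = - (a+b+c+d) (a'+b'+c'+d') + 3 ((a+b)(a'+b') + c d' + c' d)` and `(3 : ZMod 3) = 0`.
-/

namespace FPS

open Letter

private theorem crossCard_sum (w : List Letter) :
    (∑ j : Fin w.length, if isX (w.get j) = true then 1 else 0) = cs true w + cs false w := by
  induction w with
  | nil => simp [cs]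
  | cons l w ih =>
    have h1 : (∑ j : Fin (l :: w).length, if isX ((l :: w).get j) = true then 1 else 0) =
        (if isX l = true then 1 else 0) + ∑ j : Fin w.length, if isX (w.get j) = true then 1 else 0 :=
      Fin.sum_univ_succ (n := w.length)
        (fun j : Fin (l :: w).length => if isX ((l :: w).get j) = true then 1 else 0)
    have h2 : ∀ σ, cs σ (l :: w) = cnt σ l + cs σ w := by
      intro σ
      simp [cs]
    rw [h1, ih, h2, h2]
    cases l with
    | X i e p => cases e <;> cases p <;> simp [isX, cnt] <;> omega
    | cup i o => simp [isX, cnt]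
    | cap i => simp [isX, cnt]

theorem card_CI (w : List Letter) : Fintype.card (CI w) = cs true w + cs false w := by
  rw [← crossCard_sum, Fintype.card_subtype, Finset.card_filter]

/-- Minus the sign of a crossing, mod 3. -/
def sgX : Letter → ZMod 3
  | .X _ e p => - epsR (ZMod 3) e p
  | .cup _ _ => 0
  | .cap _ => 0

theorem sgX_ne_zero (l : Letter) (h : isX l = true) : sgX l ≠ 0 := by
  cases l with
  | X i e p => cases e <;> cases p <;> simp [sgX, epsR]
  | cup i o => simp [isX] at h
  | cap i => simp [isX] at h

private theorem crossCard_wb (l : Letter) (f g f' g' : ℕ → ℤ) :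
    ((wb l f g f' g' : ℤ) : ZMod 3) = sgX l *
      lamL l (fun q => (f q : ZMod 3)) (fun q => (g q : ZMod 3)) *
      lamL l (fun q => (f' q : ZMod 3)) (fun q => (g' q : ZMod 3)) := by
  have h3 : (3 : ZMod 3) = 0 := by decide
  cases l with
  | X i e p =>
    cases p with
    | true =>
      simp only [wb, sgX, lamL, qb, epsR]
      cases e with
      | true =>
        simp only [if_true]
        push_cast
        linear_combination (((f i : ZMod 3) + f (i + 2)) * (f' i + f' (i + 2)) +
          (g (i + 1) : ZMod 3) * f' (i + 1) + g' (i + 1) * f (i + 1)) * h3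
      | false =>
        simp only [Bool.false_eq_true, if_false]
        push_cast
        linear_combination -(((f i : ZMod 3) + f (i + 2)) * (f' i + f' (i + 2)) +
          (g (i + 1) : ZMod 3) * f' (i + 1) + g' (i + 1) * f (i + 1)) * h3
    | false =>
      simp only [wb, sgX, lamL, qb, epsR]
      cases e with
      | true =>
        simp only [Bool.true_eq_false, if_false]
        push_cast
        linear_combination -(((g (i + 1) : ZMod 3) + f (i + 1)) * (g' (i + 1) + f' (i + 1)) +
          (f i : ZMod 3) * f' (i + 2) + f' i * f (i + 2)) * h3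
      | false =>
        simp only [if_true]
        push_cast
        linear_combination (((g (i + 1) : ZMod 3) + f (i + 1)) * (g' (i + 1) + f' (i + 1)) +
          (f i : ZMod 3) * f' (i + 2) + f' i * f (i + 2)) * h3
  | cup i o => simp [wb, sgX]
  | cap i => simp [wb, sgX]

private theorem crossCard_all (w : List Letter) (A B : ℕ → ℕ → ℤ) :
    ((Bf w A B : ℤ) : ZMod 3) = ∑ v : Fin w.length, sgX (w.get v) *
      lam w (fun j q => (A j q : ZMod 3)) v * lam w (fun j q => (B j q : ZMod 3)) v := by
  induction w generalizing A B with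
  | nil => simp [Bf]
  | cons l w ih =>
    have h1 : (∑ v : Fin (l :: w).length, sgX ((l :: w).get v) *
        lam (l :: w) (fun j q => (A j q : ZMod 3)) v *
        lam (l :: w) (fun j q => (B j q : ZMod 3)) v) =
        sgX l * lamL l (fun q => (A 0 q : ZMod 3)) (fun q => (A 1 q : ZMod 3)) *
          lamL l (fun q => (B 0 q : ZMod 3)) (fun q => (B 1 q : ZMod 3)) +
        ∑ v : Fin w.length, sgX (w.get v) *
          lam w (fun j q => (A (j + 1) q : ZMod 3)) v *
          lam w (fun j q => (B (j + 1) q : ZMod 3)) v :=
      Fin.sum_univ_succ (n := w.length)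
        (fun v : Fin (l :: w).length => sgX ((l :: w).get v) *
          lam (l :: w) (fun j q => (A j q : ZMod 3)) v *
          lam (l :: w) (fun j q => (B j q : ZMod 3)) v)
    rw [h1, ← ih (fun j => A (j + 1)) (fun j => B (j + 1)), ← crossCard_wb]
    simp only [Bf]
    push_cast
    rfl

theorem Bf_mod3 (w : List Letter) (A B : ℕ → ℕ → ℤ) :
    ((Bf w A B : ℤ) : ZMod 3) = ∑ v : CI w, sgX (w.get v.1) *
      lam w (fun j q => (A j q : ZMod 3)) v.1 * lam w (fun j q => (B j q : ZMod 3)) v.1 := by
  rw [crossCard_all, ← Finset.sum_subtype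
    (Finset.univ.filter (fun j : Fin w.length => isX (w.get j) = true)) (by intro x; simp)
    (fun v : Fin w.length => sgX (w.get v) *
      lam w (fun j q => (A j q : ZMod 3)) v * lam w (fun j q => (B j q : ZMod 3)) v)]
  symm
  apply Finset.sum_filter_of_ne
  intro v _ hv
  by_contra hx
  apply hv
  have h0 : sgX (w.get v) = 0 := by
    cases h : w.get v with
    | X i e p => rw [h] at hx; simp [isX] at hx
    | cup i o => simp [sgX]
    | cap i => simp [sgX]
  rw [h0, zero_mul, zero_mul]

theorem Bf_cast (w : List Letter) (A B : ℕ → ℕ → ℤ) :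
    Bf w (fun j q => (A j q : ℚ)) (fun j q => (B j q : ℚ)) = ((Bf w A B : ℤ) : ℚ) := by
  induction w generalizing A B with
  | nil => simp [Bf]
  | cons l w ih =>
    simp only [Bf]
    rw [ih (fun j => A (j + 1)) (fun j => B (j + 1))]
    push_cast
    congr 1
    cases l with
    | X i e p =>
      cases p <;> cases e <;> simp [wb, qb, epsR]
    | cup i o => simp [wb]
    | cap i => simp [wb]

end FPS
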