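import Mathlib
import Pool.Agent.H61.RP.Bil

/-!
MODULE ELine (about 25 lines).  For the projective line (one strand, no letter) the constant
labelling `F 0 0 = F 0 1 = 1` (all other labels 0) spans a line of valid labellings; `Qf [] = 0`.
`M = ℚ`, `H x j q = if j = 0 ∧ q ≤ 1 then x else 0`.
-/

namespace FPS

theorem E_line (σ : Bool) : E σ line.s.length line.w 1 := by
  refine ⟨ℚ, inferInstance, inferInstance, inferInstance,
    { toFun := fun x => fun j q => if j = 0 ∧ q ≤ 1 then x else 0
      map_add' := ?_
      map_smul' := ?_ }, ?_, ?_, ?_, ?_⟩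
  · intro x y
    funext j q
    by_cases h : j = 0 ∧ q ≤ 1 <;> simp [h]
  · intro c x
    funext j q
    by_cases h : j = 0 ∧ q ≤ 1 <;> simp [h]
  · intro x y h
    have h1 := congrFun (congrFun h 0) 0
    simpa using h1
  · intro x
    refine ⟨?_, ?_, ?_⟩
    · intro j
      funext q
      simp
    · intro q hq
      have h1 : 1 < q := hq
      have h2 : ¬ (q ≤ 1) := by omega
      simp [h2]
    · intro q hq
      have h1 : q ≤ 1 := hq
      have h2 : 1 - q ≤ 1 := by omega
      simp [line, h1]
  · intro x
    simp [line, Qf]
  · simp [line, cs]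

end FPS
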