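import Mathlib
import Pool.Agent.H61.RP.Kex

/-!
`Kex` is a knot diagram in `RP³` and its lift is a knot diagram in `S³`: walk along the knot and
check by kernel computation that all positions are visited.
-/

namespace FPS

open Letter

namespace KnotChk

/-- Upwards through a letter: `(true, q')` is the position `q'` above the letter, `(false, q')` the
position `q'` below it. -/
def stepUp : Letter → ℕ → Bool × ℕ
  | .X i _ _, q => if q = i then (true, i + 1) else if q = i + 1 then (true, i) else (true, q)
  | .cup i _, q => if q < i then (true, q) else (true, q + 2)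
  | .cap i, q => if q < i then (true, q) else if q = i then (false, i + 1)
      else if q = i + 1 then (false, i) else (true, q - 2)

/-- Downwards through a letter, same convention. -/
def stepDown : Letter → ℕ → Bool × ℕ
  | .X i _ _, q => if q = i then (false, i + 1) else if q = i + 1 then (false, i) else (false, q)
  | .cup i _, q => if q < i then (false, q) else if q = i then (true, i + 1)
      else if q = i + 1 then (true, i) else (false, q - 2)
  | .cap i, q => if q < i then (false, q) else (false, q + 2)

theorem stepUp_spec (l : Letter) (c d : ℕ → Bool) (h : CRel l c d) (q : ℕ) :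
    (if (stepUp l q).1 then d (stepUp l q).2 else c (stepUp l q).2) = c q := by
  cases l with
  | X i e p =>
    obtain ⟨h1, h2, h3⟩ := h
    by_cases a : q = i
    · subst a; simp [stepUp, h2]
    by_cases b : q = i + 1
    · subst b; simp [stepUp, h1]
    · simp [stepUp, a, b, h3 q a b]
  | cup i o =>
    obtain ⟨h1, h2, h3⟩ := h
    by_cases a : q < i
    · simp [stepUp, a, h2 q a]
    · simp [stepUp, a, h3 q (by omega)]
  | cap i =>
    obtain ⟨h1, h2, h3⟩ := h
    by_cases a : q < i
    · simp [stepUp, a, h2 q a]
    by_cases b : q = i
    · subst b; simp [stepUp, h1]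
    by_cases b' : q = i + 1
    · subst b'; simp [stepUp, h1]
    · have := h3 (q - 2) (by omega)
      rw [show q - 2 + 2 = q by omega] at this
      simp [stepUp, a, b, b', this]

theorem stepDown_spec (l : Letter) (c d : ℕ → Bool) (h : CRel l c d) (q : ℕ) :
    (if (stepDown l q).1 then d (stepDown l q).2 else c (stepDown l q).2) = d q := by
  cases l with
  | X i e p =>
    obtain ⟨h1, h2, h3⟩ := h
    by_cases a : q = i
    · subst a; simp [stepDown, h1]
    by_cases b : q = i + 1
    · subst b; simp [stepDown, h2]
    · simp [stepDown, a, b, h3 q a b]
  | cup i o =>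
    obtain ⟨h1, h2, h3⟩ := h
    by_cases a : q < i
    · simp [stepDown, a, h2 q a]
    by_cases b : q = i
    · subst b; simp [stepDown, h1]
    by_cases b' : q = i + 1
    · subst b'; simp [stepDown, h1]
    · have := h3 (q - 2) (by omega)
      rw [show q - 2 + 2 = q by omega] at this
      simp [stepDown, a, b, b', this]
  | cap i =>
    obtain ⟨h1, h2, h3⟩ := h
    by_cases a : q < i
    · simp [stepDown, a, h2 q a]
    · simp [stepDown, a, h3 q (by omega)]

theorem col_get (w : List Letter) (C : ℕ → ℕ → Bool) (h : Col w C) (j : ℕ) (l : Letter)
    (hl : w[j]? = some l) : CRel l (C j) (C (j + 1)) := by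
  induction w generalizing C j with
  | nil => simp at hl
  | cons a w ih =>
    obtain ⟨h1, h2⟩ := h
    cases j with
    | zero => simp at hl; subst hl; exact h1
    | succ j =>
      simp at hl
      exact ih _ h2 j hl

/-- State of the walk: level, position, direction. -/
structure St where
  j : ℕ
  q : ℕ
  up : Bool

/-- One step along the knot. -/
def next (X : Space) (D : Dg) (s : St) : St :=
  if s.up then
    match D.w[s.j]? with
    | some l => ⟨if (stepUp l s.q).1 then s.j + 1 else s.j, (stepUp l s.q).2, (stepUp l s.q).1⟩
    | none => if s.j = D.w.length ∧ s.q < D.s.length then ⟨0, X.seam D.s.length s.q, true⟩ else s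
  else
    match s.j with
    | 0 => if X.seam D.s.length s.q < D.s.length ∧
          X.seam D.s.length (X.seam D.s.length s.q) = s.q then
        ⟨D.w.length, X.seam D.s.length s.q, false⟩ else s
    | j + 1 =>
      match D.w[j]? with
      | some l => ⟨if (stepDown l s.q).1 then j + 1 else j, (stepDown l s.q).2, (stepDown l s.q).1⟩
      | none => s

theorem next_spec (X : Space) (D : Dg) (C : ℕ → ℕ → Bool) (hC : Col D.w C)
    (hs : ∀ q, q < D.s.length → C D.w.length q = C 0 (X.seam D.s.length q)) (s : St) :
    C (next X D s).j (next X D s).q = C s.j s.q := by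
  obtain ⟨j, q, up⟩ := s
  cases up with
  | true =>
    simp only [next, if_true]
    cases hl : D.w[j]? with
    | some l =>
      have h := stepUp_spec l _ _ (col_get D.w C hC j l hl) q
      simp only
      cases hb : (stepUp l q).1 with
      | true => simpa [hb] using h
      | false => simpa [hb] using h
    | none =>
      simp only
      split_ifs with h
      · simp only [h.1]; exact (hs q h.2).symm
      · rfl
  | false =>
    simp only [next]
    cases j with
    | zero =>
      simp only [Bool.false_eq_true, if_false]
      split_ifs with h
      · have := hs _ h.1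
        simp only [this, h.2]
      · rfl
    | succ j =>
      simp only [Bool.false_eq_true, if_false]
      cases hl : D.w[j]? with
      | some l =>
        have h := stepDown_spec l _ _ (col_get D.w C hC j l hl) q
        simp only
        cases hb : (stepDown l q).1 with
        | true => simpa [hb] using h
        | false => simpa [hb] using h
      | none => rfl

/-- The positions visited in `n` steps. -/
def walk (X : Space) (D : Dg) : ℕ → St → List (ℕ × ℕ)
  | 0, _ => []
  | n + 1, s => (s.j, s.q) :: walk X D n (next X D s)

theorem walk_spec (X : Space) (D : Dg) (C : ℕ → ℕ → Bool) (hC : Col D.w C)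
    (hs : ∀ q, q < D.s.length → C D.w.length q = C 0 (X.seam D.s.length q)) (n : ℕ) (s : St)
    (a : ℕ × ℕ) (ha : a ∈ walk X D n s) : C a.1 a.2 = C s.j s.q := by
  induction n generalizing s with
  | zero => simp [walk] at ha
  | succ n ih =>
    simp only [walk, List.mem_cons] at ha
    rcases ha with rfl | ha
    · rfl
    · rw [ih _ ha, next_spec X D C hC hs]

/-- Are all positions visited? -/
def full (D : Dg) (L : List (ℕ × ℕ)) : Bool :=
  (List.range (D.w.length + 1)).all fun j =>
    match run D.s (D.w.take j) with
    | some t => (List.range t.length).all fun q => L.contains (j, q)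
    | none => true

theorem connected_of_walk (X : Space) (D : Dg) (n : ℕ) (s : St) (h0 : D.s ≠ [])
    (hf : full D (walk X D n s) = true) : Connected X D := by
  refine ⟨⟨0, D.s, by simp [run], h0⟩, ?_⟩
  intro C hC hs j j' q q' t t' hj hj' ht ht' hq hq'
  have key : ∀ j q t, j ≤ D.w.length → run D.s (D.w.take j) = some t → q < t.length →
      C j q = C s.j s.q := by
    intro j q t hj ht hq
    simp only [full, List.all_eq_true, List.mem_range] at hf
    have h1 := hf j (by omega)
    rw [ht] at h1
    simp only [List.all_eq_true, List.mem_range] at h1
    have h2 := h1 q hq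
    rw [List.contains_iff_mem] at h2
    exact walk_spec X D C hC hs n s (j, q) h2
  rw [key j q t hj ht hq, key j' q' t' hj' ht' hq']

end KnotChk

theorem Kex_isKnot : IsKnot .RP3 Kex := by
  refine ⟨by unfold IsLink; decide +kernel, ?_⟩
  exact KnotChk.connected_of_walk .RP3 Kex 400 ⟨0, 0, true⟩ (by decide) (by decide +kernel)

theorem liftKex_isKnot : IsKnot .S3 (lift Kex) := by
  refine ⟨by unfold IsLink; decide +kernel, ?_⟩
  exact KnotChk.connected_of_walk .S3 (lift Kex) 800 ⟨0, 0, true⟩ (by decide) (by decide +kernel)

end FPS
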