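import Mathlib
import Pool.Agent.H61.RP.Base

/-!
MODULE LBS (about 120 lines).  Births and saddles.
BIRTH `[] → [cup i o, cap i]`, dimension + 1: `M' = M × ℚ`, `i = fst`,
`T' (m, s) = (T m 0, g, T m 0, T m 1, ...)`, where
`g q = if q ≤ i then T m 0 q else if q = i + 1 then s else T m 0 (q - 2)`.
SADDLE `[] → [cap i, cup i o]`, dimension - 1: `M' = ker θ`, `θ m = T m 0 i - T m 0 (i+2)`;
`T' m = (T m 0, g, T m 0, T m 1, ...)`, `g q = if q ≤ i then T m 0 q else T m 0 (q + 2)`.
SADDLE `[cap i, cup i o] → []`, dimension - 1: `M' = ker θ`, `θ m = T m 0 (i+1) - T m 2 (i+1)`;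
`T' m j = T m (j + 2)`.  On `ker θ` one has `T m 0 = T m 2` (compare all slots), and `T m 1` is determined by
`T m 0`, so injectivity is clear.
All forms vanish on these words.  `finrank (ker θ) + 1 ≥ finrank M`:
`LinearMap.finrank_range_add_finrank_ker`, `Submodule.finrank_le` (range in ℚ).
-/

namespace FPS

open Letter

/-- Levels: `T m 0`, the inserted level, then the old levels from level `0` on. -/
private def lbsMap {N : Type} [AddCommGroup N] [Module ℚ N] (A : N →ₗ[ℚ] (ℕ → ℕ → ℚ))
    (G : N →ₗ[ℚ] (ℕ → ℚ)) : N →ₗ[ℚ] (ℕ → ℕ → ℚ) where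
  toFun m := fun j => if j = 0 then A m 0 else if j = 1 then G m else A m (j - 2)
  map_add' a b := by
    funext j q
    by_cases h0 : j = 0
    · simp [h0]
    · by_cases h1 : j = 1 <;> simp [h0, h1]
  map_smul' a b := by
    funext j q
    by_cases h0 : j = 0
    · simp [h0]
    · by_cases h1 : j = 1 <;> simp [h0, h1]

private theorem lbsMap_zero {N : Type} [AddCommGroup N] [Module ℚ N]
    (A : N →ₗ[ℚ] (ℕ → ℕ → ℚ)) (G : N →ₗ[ℚ] (ℕ → ℚ)) (m : N) : lbsMap A G m 0 = A m 0 := rfl

private theorem lbsMap_one {N : Type} [AddCommGroup N] [Module ℚ N]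
    (A : N →ₗ[ℚ] (ℕ → ℕ → ℚ)) (G : N →ₗ[ℚ] (ℕ → ℚ)) (m : N) : lbsMap A G m 1 = G m := rfl

private theorem lbsMap_add_two {N : Type} [AddCommGroup N] [Module ℚ N]
    (A : N →ₗ[ℚ] (ℕ → ℕ → ℚ)) (G : N →ₗ[ℚ] (ℕ → ℚ)) (m : N) (j : ℕ) :
    lbsMap A G m (j + 2) = A m j := by
  change (if j + 2 = 0 then A m 0 else if j + 2 = 1 then G m else A m (j + 2 - 2)) = _
  rw [if_neg (by omega), if_neg (by omega), Nat.add_sub_cancel]

/-- The inserted level of a birth. -/
private def lbsG {N : Type} [AddCommGroup N] [Module ℚ N] (A : N →ₗ[ℚ] (ℕ → ℕ → ℚ)) (i : ℕ) :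
    N × ℚ →ₗ[ℚ] (ℕ → ℚ) where
  toFun m := fun q => if q ≤ i then A m.1 0 q else if q = i + 1 then m.2 else A m.1 0 (q - 2)
  map_add' a b := by
    funext q
    by_cases h0 : q ≤ i
    · simp [h0]
    · by_cases h1 : q = i + 1 <;> simp [h0, h1]
  map_smul' a b := by
    funext q
    by_cases h0 : q ≤ i
    · simp [h0]
    · by_cases h1 : q = i + 1 <;> simp [h0, h1]

/-- The inserted level of a saddle. -/
private def lbsS {N : Type} [AddCommGroup N] [Module ℚ N] (A : N →ₗ[ℚ] (ℕ → ℕ → ℚ)) (i : ℕ) :
    N →ₗ[ℚ] (ℕ → ℚ) where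
  toFun m := fun q => if q ≤ i then A m 0 q else A m 0 (q + 2)
  map_add' a b := by
    funext q
    by_cases h0 : q ≤ i <;> simp [h0]
  map_smul' a b := by
    funext q
    by_cases h0 : q ≤ i <;> simp [h0]

private theorem finrank_ker_lbs {N : Type} [AddCommGroup N] [Module ℚ N] [FiniteDimensional ℚ N]
    (θ : N →ₗ[ℚ] ℚ) : (Module.finrank ℚ N : ℤ) + (-1) ≤ Module.finrank ℚ (LinearMap.ker θ) := by
  have h1 := LinearMap.finrank_range_add_finrank_ker θ
  have h2 : Module.finrank ℚ (LinearMap.range θ) ≤ 1 := by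
    have := Submodule.finrank_le (LinearMap.range θ)
    simpa using this
  omega

theorem LT_birth (σ : Bool) (i : ℕ) (o : Bool) : LT σ [] [.cup i o, .cap i] 1 := by
  intro M _ _ _ T q K hK hq hinj hpre hpos
  refine ⟨M × ℚ, _, _, inferInstance, LinearMap.fst ℚ M ℚ,
    lbsMap (T.comp (LinearMap.fst ℚ M ℚ)) (lbsG T i), ?_, ?_, ?_, ?_, ?_, ?_⟩
  · intro m
    refine ⟨⟨fun r hr => ?_, fun r hr => ?_⟩, ⟨fun r hr => ?_, fun r hr => ?_⟩, trivial⟩
    · change (if r ≤ i then T m.1 0 r else if r = i + 1 then m.2 else T m.1 0 (r - 2)) = T m.1 0 r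
      rw [if_pos hr]
    · change (if r + 2 ≤ i then T m.1 0 (r + 2) else if r + 2 = i + 1 then m.2
        else T m.1 0 (r + 2 - 2)) = T m.1 0 r
      rw [if_neg (by omega), if_neg (by omega), Nat.add_sub_cancel]
    · change T m.1 0 r = (if r ≤ i then T m.1 0 r else if r = i + 1 then m.2 else T m.1 0 (r - 2))
      rw [if_pos hr]
    · change T m.1 0 r = (if r + 2 ≤ i then T m.1 0 (r + 2) else if r + 2 = i + 1 then m.2
        else T m.1 0 (r + 2 - 2))
      rw [if_neg (by omega), if_neg (by omega), Nat.add_sub_cancel]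
  · intro m
    rfl
  · intro m j
    exact lbsMap_add_two _ _ m j
  · intro m hm h
    have h1 : m.1 = 0 := by
      apply hinj m.1 hm
      funext j
      have h2 := congrFun h (j + 2)
      rw [lbsMap_add_two] at h2
      exact h2
    have h2 : m.2 = 0 := by
      have h3 := congrFun (congrFun h 1) (i + 1)
      change (if i + 1 ≤ i then T m.1 0 (i + 1) else if i + 1 = i + 1 then m.2
        else T m.1 0 (i + 1 - 2)) = 0 at h3
      rw [if_neg (by omega), if_pos rfl] at h3
      exact h3
    exact Prod.ext h1 h2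
  · intro m
    have h1 := hpos m.1
    simp only [Qf] at h1
    simp only [Qf, wt, add_zero]
    exact h1
  · rw [Module.finrank_prod]
    simp

theorem LT_saddle (σ : Bool) (i : ℕ) (o : Bool) :
    LT σ [] [.cap i, .cup i o] (-1) ∧ LT σ [.cap i, .cup i o] [] (-1) := by
  constructor
  · intro M _ _ _ T q K hK hq hinj hpre hpos
    let θ : M →ₗ[ℚ] ℚ :=
      { toFun := fun m => T m 0 i - T m 0 (i + 2)
        map_add' := by intro a b; simp; ring
        map_smul' := by intro a b; simp; ring }
    have hθ : ∀ m : LinearMap.ker θ, T m.1 0 i = T m.1 0 (i + 2) := by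
      intro m
      have h1 : T m.1 0 i - T m.1 0 (i + 2) = 0 := m.2
      linarith
    refine ⟨LinearMap.ker θ, _, _, inferInstance, (LinearMap.ker θ).subtype,
      (lbsMap T (lbsS T i)).comp (LinearMap.ker θ).subtype, ?_, ?_, ?_, ?_, ?_, ?_⟩
    · intro m
      have h := hθ m
      refine ⟨⟨fun r hr => ?_, fun r hr => ?_⟩, ⟨fun r hr => ?_, fun r hr => ?_⟩, trivial⟩
      · change (if r ≤ i then T m.1 0 r else T m.1 0 (r + 2)) = T m.1 0 r
        rw [if_pos hr]
      · change (if r ≤ i then T m.1 0 r else T m.1 0 (r + 2)) = T m.1 0 (r + 2)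
        by_cases h1 : r ≤ i
        · have h2 : r = i := by omega
          rw [if_pos h1, h2, h]
        · rw [if_neg h1]
      · change T m.1 0 r = (if r ≤ i then T m.1 0 r else T m.1 0 (r + 2))
        rw [if_pos hr]
      · change T m.1 0 (r + 2) = (if r ≤ i then T m.1 0 r else T m.1 0 (r + 2))
        by_cases h1 : r ≤ i
        · have h2 : r = i := by omega
          rw [if_pos h1, h2, h]
        · rw [if_neg h1]
    · intro m
      rfl
    · intro m j
      exact lbsMap_add_two T (lbsS T i) m.1 j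
    · intro m hm h
      apply Subtype.ext
      apply hinj m.1 hm
      funext j
      have h2 := congrFun h (j + 2)
      change lbsMap T (lbsS T i) m.1 (j + 2) = 0 at h2
      rw [lbsMap_add_two] at h2
      exact h2
    · intro m
      have h1 := hpos m.1
      simp only [Qf] at h1
      simp only [Qf, wt, add_zero]
      exact h1
    · exact finrank_ker_lbs θ
  · intro M _ _ _ T q K hK hq hinj hpre hpos
    let θ : M →ₗ[ℚ] ℚ :=
      { toFun := fun m => T m 0 (i + 1) - T m 2 (i + 1)
        map_add' := by intro a b; simp; ring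
        map_smul' := by intro a b; simp; ring }
    have hθ : ∀ m : LinearMap.ker θ, T m.1 2 = T m.1 0 := by
      intro m
      have h1 : T m.1 0 (i + 1) - T m.1 2 (i + 1) = 0 := m.2
      obtain ⟨⟨a1, a2⟩, ⟨b1, b2⟩, _⟩ := hpre m.1
      funext r
      rcases Nat.lt_trichotomy r (i + 1) with hr | hr | hr
      · have c1 := a1 r (by omega)
        have c2 := b1 r (by omega)
        exact c2.trans c1
      · subst hr
        linarith
      · obtain ⟨r, rfl⟩ : ∃ r', r = r' + 2 := ⟨r - 2, by omega⟩
        have c1 := a2 r (by omega)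
        have c2 := b2 r (by omega)
        exact c2.trans c1
    refine ⟨LinearMap.ker θ, _, _, inferInstance, (LinearMap.ker θ).subtype,
      ((shiftL 2).comp T).comp (LinearMap.ker θ).subtype, ?_, ?_, ?_, ?_, ?_, ?_⟩
    · intro m
      trivial
    · intro m
      exact hθ m
    · intro m j
      rfl
    · intro m hm h
      apply Subtype.ext
      apply hinj m.1 hm
      have h2 : ∀ j, T m.1 (j + 2) = 0 := fun j => congrFun h j
      have h0 : T m.1 0 = 0 := by
        rw [← hθ m]
        exact h2 0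
      obtain ⟨⟨a1, a2⟩, _, _⟩ := hpre m.1
      funext j
      rcases Nat.lt_trichotomy j 1 with hj | hj | hj
      · have : j = 0 := by omega
        subst this
        exact h0
      · subst hj
        funext r
        by_cases hr : r ≤ i
        · have := a1 r hr
          rw [h0] at this
          exact this
        · have := a2 r (by omega)
          rw [h0] at this
          exact this
      · obtain ⟨j, rfl⟩ : ∃ j', j = j' + 2 := ⟨j - 2, by omega⟩
        exact h2 j
    · intro m
      have h1 := hpos m.1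
      simp only [Qf, wt, add_zero] at h1
      simp only [Qf]
      exact h1
    · exact finrank_ker_lbs θ

end FPS
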