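import Mathlib
import Pool.Agent.H61.RP.Base

/-!
MODULE LFarU (about 100 lines).  Far commutation, `l₁ = cup i o`.
Use `LT_iso` twice.  FORWARD: `F = (f, g, h, ...)` is a labelling of `[l₂, cup i o]`,
`j := l₂.pos ≥ i`: `f → g` by `l₂`, `g → h` by `cup i`.  New middle level for `[cup i o, l₂.shift 2]`:
`g' q = if q ≤ i then f q else if q = i + 1 then h (i+1) else f (q - 2)`
(i.e. `cup i` applied to `f`, with the new label of `h`).  Check: `Rel (cup i o) f g'`,
`Rel (l₂.shift 2) g' h`, the weights agree (`wt (l₂.shift 2) g' h = wt l₂ f g`, since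
`g' (q+2) = f q` for `q ≥ i` and `h (q+2) = g q` for `q ≥ i`), injectivity (`g` is determined by `h`).
BACKWARD: `F = (f, g', h)` a labelling of `[cup i o, l₂.shift 2]`; new middle level for `[l₂, cup i o]`:
`g q = if q ≤ i then f q else h (q + 2)`.
Define the linear maps by `toFun := fun F j q => if j = 1 then ... else F j q`.
All checks: cases on `l₂`, `Rel` unfolded, `split_ifs`, `omega`, rewriting.
-/

namespace FPS

open Letter

private def phiU (i : ℕ) : (ℕ → ℕ → ℚ) →ₗ[ℚ] (ℕ → ℕ → ℚ) where
  toFun F := fun j q =>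
    if j = 1 then (if q ≤ i then F 0 q else if q = i + 1 then F 2 (i + 1) else F 0 (q - 2))
    else F j q
  map_add' a b := by
    funext j q
    simp only [Pi.add_apply]
    split_ifs <;> rfl
  map_smul' a b := by
    funext j q
    simp only [Pi.smul_apply, RingHom.id_apply]
    split_ifs <;> rfl

private def psiU (i : ℕ) : (ℕ → ℕ → ℚ) →ₗ[ℚ] (ℕ → ℕ → ℚ) where
  toFun F := fun j q => if j = 1 then (if q ≤ i then F 0 q else F 2 (q + 2)) else F j q
  map_add' a b := by
    funext j q
    simp only [Pi.add_apply]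
    split_ifs <;> rfl
  map_smul' a b := by
    funext j q
    simp only [Pi.smul_apply, RingHom.id_apply]
    split_ifs <;> rfl

private theorem phiU_one (i : ℕ) (F : ℕ → ℕ → ℚ) (q : ℕ) : phiU i F 1 q =
    if q ≤ i then F 0 q else if q = i + 1 then F 2 (i + 1) else F 0 (q - 2) := rfl

private theorem phiU_ne (i : ℕ) (F : ℕ → ℕ → ℚ) (j : ℕ) (hj : j ≠ 1) : phiU i F j = F j := by
  funext q
  change (if j = 1 then _ else _) = _
  rw [if_neg hj]

private theorem psiU_one (i : ℕ) (F : ℕ → ℕ → ℚ) (q : ℕ) : psiU i F 1 q =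
    if q ≤ i then F 0 q else F 2 (q + 2) := rfl

private theorem psiU_ne (i : ℕ) (F : ℕ → ℕ → ℚ) (j : ℕ) (hj : j ≠ 1) : psiU i F j = F j := by
  funext q
  change (if j = 1 then _ else _) = _
  rw [if_neg hj]

theorem LT_farU (σ : Bool) (i : ℕ) (o : Bool) (l₂ : Letter) (h : i ≤ l₂.pos) :
    LT σ [l₂.shift 0, .cup i o] [.cup i o, l₂.shift 2] 0 ∧
    LT σ [.cup i o, l₂.shift 2] [l₂.shift 0, .cup i o] 0 := by
  constructor
  · refine LT_iso σ _ _ (phiU i) (fun F => phiU_ne i F 0 (by omega))
      (fun F j => phiU_ne i F (j + 2) (by omega)) ?_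
    intro F hF
    obtain ⟨h1, ⟨h2, h3⟩, -⟩ := hF
    have a1 : ∀ q, q ≤ i → phiU i F 1 q = F 0 q := by
      intro q hq
      rw [phiU_one, if_pos hq]
    have a2 : phiU i F 1 (i + 1) = F 2 (i + 1) := by
      rw [phiU_one, if_neg (by omega), if_pos rfl]
    have a3 : ∀ q, i ≤ q → phiU i F 1 (q + 2) = F 0 q := by
      intro q hq
      rw [phiU_one, if_neg (by omega), if_neg (by omega), Nat.add_sub_cancel]
    have b0 : phiU i F 0 = F 0 := phiU_ne i F 0 (by omega)
    have b2 : phiU i F 2 = F 2 := phiU_ne i F 2 (by omega)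
    have h2' : ∀ q, q ≤ i → F 2 q = F 1 q := h2
    have h3' : ∀ q, i ≤ q → F 2 (q + 2) = F 1 q := h3
    have key : Rel (l₂.shift 2) (phiU i F 1) (F 2) ∧
        wt (l₂.shift 2) (phiU i F 1) (F 2) = wt (l₂.shift 0) (F 0) (F 1) := by
      cases l₂ with
      | X j e p =>
        have hj : i ≤ j := h
        have h1' : ∀ q, q ≠ j + 1 → F 1 q = F 0 q := h1
        constructor
        · intro q hq
          rcases Nat.lt_or_ge i q with c | c
          · by_cases c2 : q = i + 1
            · rw [c2, a2]
            · obtain ⟨r, rfl⟩ : ∃ r, q = r + 2 := ⟨q - 2, by omega⟩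
              rw [h3' r (by omega), a3 r (by omega), h1' r (by omega)]
          · rw [h2' q c, a1 q c, h1' q (by omega)]
        · have e1 : phiU i F 1 (j + 2) = F 0 j := a3 j hj
          have e2 : phiU i F 1 (j + 2 + 2) = F 0 (j + 2) := a3 (j + 2) (by omega)
          have e3 : phiU i F 1 (j + 2 + 1) = F 0 (j + 1) := a3 (j + 1) (by omega)
          have e4 : F 2 (j + 2 + 1) = F 1 (j + 1) := h3' (j + 1) (by omega)
          cases p <;> simp only [Letter.shift, wt, e1, e2, e3, e4, Nat.add_zero]
      | cup j o' =>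
        have hj : i ≤ j := h
        obtain ⟨g1, g2⟩ := h1
        have g1' : ∀ q, q ≤ j → F 1 q = F 0 q := g1
        have g2' : ∀ q, j ≤ q → F 1 (q + 2) = F 0 q := g2
        refine ⟨⟨?_, ?_⟩, rfl⟩
        · intro q hq
          rcases Nat.lt_or_ge i q with c | c
          · by_cases c2 : q = i + 1
            · rw [c2, a2]
            · obtain ⟨r, rfl⟩ : ∃ r, q = r + 2 := ⟨q - 2, by omega⟩
              rw [h3' r (by omega), a3 r (by omega), g1' r (by omega)]
          · rw [h2' q c, a1 q c, g1' q (by omega)]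
        · intro q hq
          obtain ⟨r, rfl⟩ : ∃ r, q = r + 2 := ⟨q - 2, by omega⟩
          rw [h3' (r + 2) (by omega), a3 r (by omega), g2' r (by omega)]
      | cap j =>
        have hj : i ≤ j := h
        obtain ⟨g1, g2⟩ := h1
        have g1' : ∀ q, q ≤ j → F 1 q = F 0 q := g1
        have g2' : ∀ q, j ≤ q → F 1 q = F 0 (q + 2) := g2
        refine ⟨⟨?_, ?_⟩, rfl⟩
        · intro q hq
          rcases Nat.lt_or_ge i q with c | c
          · by_cases c2 : q = i + 1
            · rw [c2, a2]
            · obtain ⟨r, rfl⟩ : ∃ r, q = r + 2 := ⟨q - 2, by omega⟩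
              rw [h3' r (by omega), a3 r (by omega), g1' r (by omega)]
          · rw [h2' q c, a1 q c, g1' q (by omega)]
        · intro q hq
          obtain ⟨r, rfl⟩ : ∃ r, q = r + 2 := ⟨q - 2, by omega⟩
          rw [h3' r (by omega), a3 (r + 2) (by omega), g2' r (by omega)]
    refine ⟨⟨?_, ?_, trivial⟩, ?_, ?_⟩
    · rw [b0]
      exact ⟨a1, a3⟩
    · change Rel (l₂.shift 2) (phiU i F 1) (phiU i F 2)
      rw [b2]
      exact key.1
    · change wt (.cup i o) (phiU i F 0) (phiU i F 1) + (wt (l₂.shift 2) (phiU i F 1) (phiU i F 2) + 0)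
        = wt (l₂.shift 0) (F 0) (F 1) + (wt (.cup i o) (F 1) (F 2) + 0)
      rw [b2, key.2]
      simp only [wt]
      ring
    · intro hz
      have z0 : F 0 = 0 := by rw [← b0, hz]; rfl
      have z2 : F 2 = 0 := by rw [← b2, hz]; rfl
      funext j
      by_cases hj : j = 1
      · subst hj
        funext q
        rcases Nat.lt_or_ge i q with c | c
        · rw [← h3' q (by omega), z2]
          rfl
        · rw [← h2' q c, z2]
          rfl
      · rw [← phiU_ne i F j hj, hz]
  · refine LT_iso σ _ _ (psiU i) (fun F => psiU_ne i F 0 (by omega))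
      (fun F j => psiU_ne i F (j + 2) (by omega)) ?_
    intro F hF
    obtain ⟨⟨h2, h3⟩, h1, -⟩ := hF
    have a1 : ∀ q, q ≤ i → psiU i F 1 q = F 0 q := by
      intro q hq
      rw [psiU_one, if_pos hq]
    have a2 : ∀ q, i < q → psiU i F 1 q = F 2 (q + 2) := by
      intro q hq
      rw [psiU_one, if_neg (by omega)]
    have b0 : psiU i F 0 = F 0 := psiU_ne i F 0 (by omega)
    have b2 : psiU i F 2 = F 2 := psiU_ne i F 2 (by omega)
    have h2' : ∀ q, q ≤ i → F 1 q = F 0 q := h2
    have h3' : ∀ q, i ≤ q → F 1 (q + 2) = F 0 q := h3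
    have key : (∀ q, q ≤ i + 2 → F 2 q = F 1 q) ∧ Rel (l₂.shift 0) (F 0) (psiU i F 1) ∧
        wt (l₂.shift 0) (F 0) (psiU i F 1) = wt (l₂.shift 2) (F 1) (F 2) := by
      cases l₂ with
      | X j e p =>
        have hj : i ≤ j := h
        have h1' : ∀ q, q ≠ j + 2 + 1 → F 2 q = F 1 q := h1
        refine ⟨fun q hq => h1' q (by omega), ?_, ?_⟩
        · intro q hq
          have hq' : q ≠ j + 1 := hq
          rcases Nat.lt_or_ge i q with c | c
          · rw [a2 q c, h1' (q + 2) (by omega), h3' q (by omega)]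
          · exact a1 q c
        · have e1 : F 1 (j + 2) = F 0 j := h3' j hj
          have e2 : F 1 (j + 2 + 2) = F 0 (j + 2) := h3' (j + 2) (by omega)
          have e3 : F 1 (j + 2 + 1) = F 0 (j + 1) := h3' (j + 1) (by omega)
          have e4 : psiU i F 1 (j + 1) = F 2 (j + 2 + 1) := a2 (j + 1) (by omega)
          cases p <;> simp only [Letter.shift, wt, e1, e2, e3, e4, Nat.add_zero]
      | cup j o' =>
        have hj : i ≤ j := h
        obtain ⟨g1, g2⟩ := h1
        have g1' : ∀ q, q ≤ j + 2 → F 2 q = F 1 q := g1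
        have g2' : ∀ q, j + 2 ≤ q → F 2 (q + 2) = F 1 q := g2
        refine ⟨fun q hq => g1' q (by omega), ⟨?_, ?_⟩, rfl⟩
        · intro q hq
          have hq' : q ≤ j := hq
          rcases Nat.lt_or_ge i q with c | c
          · rw [a2 q c, g1' (q + 2) (by omega), h3' q (by omega)]
          · exact a1 q c
        · intro q hq
          have hq' : j ≤ q := hq
          rw [a2 (q + 2) (by omega), g2' (q + 2) (by omega), h3' q (by omega)]
      | cap j =>
        have hj : i ≤ j := h
        obtain ⟨g1, g2⟩ := h1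
        have g1' : ∀ q, q ≤ j + 2 → F 2 q = F 1 q := g1
        have g2' : ∀ q, j + 2 ≤ q → F 2 q = F 1 (q + 2) := g2
        refine ⟨fun q hq => g1' q (by omega), ⟨?_, ?_⟩, rfl⟩
        · intro q hq
          have hq' : q ≤ j := hq
          rcases Nat.lt_or_ge i q with c | c
          · rw [a2 q c, g1' (q + 2) (by omega), h3' q (by omega)]
          · exact a1 q c
        · intro q hq
          have hq' : j ≤ q := hq
          rcases Nat.lt_or_ge i q with c | c
          · rw [a2 q c, g2' (q + 2) (by omega), h3' (q + 2) (by omega)]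
          · have c' : q = i := by omega
            have c2 : j = i := by omega
            subst c'
            rw [a1 q le_rfl]
            have e1 := g2' (q + 2) (by omega)
            have e2 := g1' (q + 2) (by omega)
            have e3 := h3' (q + 2) (by omega)
            have e4 := h3' q le_rfl
            rw [← e4, ← e2, e1, e3]
    refine ⟨⟨?_, ⟨?_, ?_⟩, trivial⟩, ?_, ?_⟩
    · rw [b0]
      exact key.2.1
    · intro q hq
      change psiU i F 2 q = psiU i F 1 q
      rw [b2, a1 q hq, key.1 q (by omega), h2' q hq]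
    · intro q hq
      change psiU i F 2 (q + 2) = psiU i F 1 q
      rw [b2]
      rcases Nat.lt_or_ge i q with c | c
      · rw [a2 q c]
      · have c' : q = i := by omega
        rw [a1 q c, key.1 (q + 2) (by omega), h3' q hq]
    · change wt (l₂.shift 0) (psiU i F 0) (psiU i F 1) + (wt (.cup i o) (psiU i F 1) (psiU i F 2) + 0)
        = wt (.cup i o) (F 0) (F 1) + (wt (l₂.shift 2) (F 1) (F 2) + 0)
      rw [b0, key.2.2]
      simp only [wt]
      ring
    · intro hz
      have z0 : F 0 = 0 := by rw [← b0, hz]; rfl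
      have z2 : F 2 = 0 := by rw [← b2, hz]; rfl
      funext j
      by_cases hj : j = 1
      · subst hj
        funext q
        rcases Nat.lt_or_ge i q with c | c
        · by_cases c2 : q = i + 1
          · rw [c2, ← key.1 (i + 1) (by omega), z2]
            rfl
          · obtain ⟨r, rfl⟩ : ∃ r, q = r + 2 := ⟨q - 2, by omega⟩
            rw [h3' r (by omega), z0]
            rfl
        · rw [h2' q c, z0]
          rfl
      · rw [← psiU_ne i F j hj, hz]

end FPS
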