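import Mathlib
import Pool.Agent.H61.RP.Base

/-!
MODULE LFarX (about 90 lines).  Far commutation, `l₁ = X i e p`.
Use `LT_iso` twice.  Levels of a labelling `F` of `x = [l₂.shift 2, X i e p]`: `F 0 = f`, `F 1 = g`,
`F 2 = h`.  Here `j := l₂.pos ≥ i`, so `l₂.shift 2` touches only slots `≥ j + 2 ≥ i + 2`, and it does not
change the slots `≤ j + 2` (`X (j+2)` changes slot `j+3` only; `cup (j+2)`, `cap (j+2)` keep the slots
`≤ j+2`).
FORWARD `φ F = (F 0, g', F 2, F 3, ...)` with `g' = update (F 0) (i+1) (F 2 (i+1))`, i.e.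
`g' q = if q = i + 1 then F 2 (i+1) else F 0 q`.  As a linear map: define it as a structure
`{ toFun := fun F j q => if j = 1 then (if q = i + 1 then F 2 q else F 0 q) else F j q, ..}`.
Check `Rel (X i e p) f g'` (clear), `Rel (l₂.shift 2) g' h` (cases on `l₂`, then for every `q` compare with
the two relations `f → g → h`, `omega`), and `Qf`: the two weights are the same numbers, since
`g i = f i`, `g (i+1) = f (i+1)`, `g (i+2) = f (i+2)`, `g' (i+1) = h (i+1)`, and for the second letter the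
slots `≥ i+2` of `g'` and `f`, of `h` and `g` agree (`wt` of `l₂ = X j` uses the slots j+2, j+3, j+4).
Injectivity: `φ F = 0` gives `F j = 0` for `j ≠ 1`, and then `g = 0` from the relations
(`g q` for `q ≤ j+2` equals `f q`; for `q ≥ j+2` it is `h q`, since the crossing `i` does not change it).
BACKWARD: `ψ F = (F 0, g, F 2, ...)`, for `F = (f, g', h, ...)` a labelling of `[X i e p, l₂.shift 2]`:
`g q = if q ≤ i + 2 then F 0 q else F 2 q`.
-/

namespace FPS

open Letter

/-- The forward map. -/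
private def LFarX_phi (i : ℕ) : (ℕ → ℕ → ℚ) →ₗ[ℚ] (ℕ → ℕ → ℚ) where
  toFun F := fun j q => if j = 1 then (if q = i + 1 then F 2 q else F 0 q) else F j q
  map_add' a b := by
    funext j q
    by_cases h1 : j = 1 <;> by_cases h2 : q = i + 1 <;> simp [h1, h2]
  map_smul' c a := by
    funext j q
    by_cases h1 : j = 1 <;> by_cases h2 : q = i + 1 <;> simp [h1, h2]

/-- The backward map. -/
private def LFarX_psi (i : ℕ) : (ℕ → ℕ → ℚ) →ₗ[ℚ] (ℕ → ℕ → ℚ) where
  toFun F := fun j q => if j = 1 then (if q ≤ i + 2 then F 0 q else F 2 q) else F j q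
  map_add' a b := by
    funext j q
    by_cases h1 : j = 1 <;> by_cases h2 : q ≤ i + 2 <;> simp [h1, h2]
  map_smul' c a := by
    funext j q
    by_cases h1 : j = 1 <;> by_cases h2 : q ≤ i + 2 <;> simp [h1, h2]

private theorem LFarX_wtX (i : ℕ) (e p : Bool) (f g f' g' : ℕ → ℚ)
    (h0 : f i = f' i) (h1 : f (i + 1) = f' (i + 1)) (h2 : f (i + 2) = f' (i + 2))
    (h3 : g (i + 1) = g' (i + 1)) : wt (.X i e p) f g = wt (.X i e p) f' g' := by
  cases p <;> simp only [wt, h0, h1, h2, h3]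

private theorem LFarX_wt2 (l : Letter) (f g f' g' : ℕ → ℚ)
    (hf : ∀ q, l.pos ≤ q → f q = f' q) (hg : ∀ q, l.pos ≤ q → g q = g' q) :
    wt l f g = wt l f' g' := by
  cases l with
  | X j e p =>
    simp only [Letter.pos] at hf hg
    exact LFarX_wtX j e p f g f' g' (hf _ le_rfl) (hf _ (by omega)) (hf _ (by omega))
      (hg _ (by omega))
  | cup j o => rfl
  | cap j => rfl

private theorem LFarX_low (i : ℕ) (l₂ : Letter) (h : i ≤ l₂.pos) (f g : ℕ → ℚ)
    (hr : Rel (l₂.shift 2) f g) (q : ℕ) (hq : q ≤ i + 2) : g q = f q := by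
  cases l₂ with
  | X j e p =>
    simp only [Letter.pos] at h
    exact hr q (by omega)
  | cup j o =>
    simp only [Letter.pos] at h
    exact hr.1 q (by omega)
  | cap j =>
    simp only [Letter.pos] at h
    exact hr.1 q (by omega)

/-- Changing slot `i + 1` at both levels. -/
private theorem LFarX_rel (i : ℕ) (l₂ : Letter) (h : i ≤ l₂.pos) (f g f' g' : ℕ → ℚ)
    (hr : Rel (l₂.shift 2) f g) (hf : ∀ q, q ≠ i + 1 → f' q = f q)
    (hg : ∀ q, q ≠ i + 1 → g' q = g q) (h1 : g' (i + 1) = f' (i + 1)) :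
    Rel (l₂.shift 2) f' g' := by
  cases l₂ with
  | X j e p =>
    simp only [Letter.pos] at h
    intro q hq
    by_cases hq1 : q = i + 1
    · subst hq1; exact h1
    · rw [hf q hq1, hg q hq1]; exact hr q hq
  | cup j o =>
    simp only [Letter.pos] at h
    refine ⟨fun q hq => ?_, fun q hq => ?_⟩
    · by_cases hq1 : q = i + 1
      · subst hq1; exact h1
      · rw [hf q hq1, hg q hq1]; exact hr.1 q hq
    · rw [hf q (by omega), hg (q + 2) (by omega)]; exact hr.2 q hq
  | cap j =>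
    simp only [Letter.pos] at h
    refine ⟨fun q hq => ?_, fun q hq => ?_⟩
    · by_cases hq1 : q = i + 1
      · subst hq1; exact h1
      · rw [hf q hq1, hg q hq1]; exact hr.1 q hq
    · rw [hf (q + 2) (by omega), hg q (by omega)]; exact hr.2 q hq

private theorem LFarX_shift_pos (l₂ : Letter) : (l₂.shift 2).pos = l₂.pos + 2 := by
  cases l₂ <;> rfl

private theorem LFarX_phi0 (i : ℕ) (F : ℕ → ℕ → ℚ) : LFarX_phi i F 0 = F 0 := by
  funext q
  have h : LFarX_phi i F 0 q = if (0 : ℕ) = 1 then (if q = i + 1 then F 2 q else F 0 q)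
    else F 0 q := rfl
  rw [h, if_neg (by omega)]

private theorem LFarX_phi2 (i : ℕ) (F : ℕ → ℕ → ℚ) (j : ℕ) :
    LFarX_phi i F (j + 2) = F (j + 2) := by
  funext q
  have h : LFarX_phi i F (j + 2) q = if j + 2 = 1 then (if q = i + 1 then F 2 q else F 0 q)
    else F (j + 2) q := rfl
  rw [h, if_neg (by omega)]

private theorem LFarX_phi1 (i : ℕ) (F : ℕ → ℕ → ℚ) (q : ℕ) :
    LFarX_phi i F 1 q = if q = i + 1 then F 2 q else F 0 q := by
  have h : LFarX_phi i F 1 q = if (1 : ℕ) = 1 then (if q = i + 1 then F 2 q else F 0 q)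
    else F 1 q := rfl
  rw [h, if_pos rfl]

private theorem LFarX_psi0 (i : ℕ) (F : ℕ → ℕ → ℚ) : LFarX_psi i F 0 = F 0 := by
  funext q
  have h : LFarX_psi i F 0 q = if (0 : ℕ) = 1 then (if q ≤ i + 2 then F 0 q else F 2 q)
    else F 0 q := rfl
  rw [h, if_neg (by omega)]

private theorem LFarX_psi2 (i : ℕ) (F : ℕ → ℕ → ℚ) (j : ℕ) :
    LFarX_psi i F (j + 2) = F (j + 2) := by
  funext q
  have h : LFarX_psi i F (j + 2) q = if j + 2 = 1 then (if q ≤ i + 2 then F 0 q else F 2 q)
    else F (j + 2) q := rfl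
  rw [h, if_neg (by omega)]

private theorem LFarX_psi1 (i : ℕ) (F : ℕ → ℕ → ℚ) (q : ℕ) :
    LFarX_psi i F 1 q = if q ≤ i + 2 then F 0 q else F 2 q := by
  have h : LFarX_psi i F 1 q = if (1 : ℕ) = 1 then (if q ≤ i + 2 then F 0 q else F 2 q)
    else F 1 q := rfl
  rw [h, if_pos rfl]

theorem LT_farX (σ : Bool) (i : ℕ) (e p : Bool) (l₂ : Letter) (h : i ≤ l₂.pos) :
    LT σ [l₂.shift 2, .X i e p] [.X i e p, l₂.shift 2] 0 ∧
    LT σ [.X i e p, l₂.shift 2] [l₂.shift 2, .X i e p] 0 := by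
  constructor
  · refine LT_iso σ _ _ (LFarX_phi i) (fun F => LFarX_phi0 i F) (fun F j => LFarX_phi2 i F j) ?_
    rintro F ⟨hr, hX, -⟩
    change Rel (.X i e p) (F 1) (F 2) at hX
    have hlow := LFarX_low i l₂ h (F 0) (F 1) hr
    have hX' : ∀ q, q ≠ i + 1 → F 2 q = F 1 q := hX
    have hph2 : LFarX_phi i F 2 = F 2 := LFarX_phi2 i F 0
    refine ⟨⟨?_, ?_, trivial⟩, ?_, ?_⟩
    · intro q hq
      rw [LFarX_phi1, LFarX_phi0, if_neg hq]
    · change Rel (l₂.shift 2) (LFarX_phi i F 1) (LFarX_phi i F 2)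
      rw [hph2]
      refine LFarX_rel i l₂ h (F 0) (F 1) _ _ hr (fun q hq => ?_) (fun q hq => ?_) ?_
      · rw [LFarX_phi1, if_neg hq]
      · exact hX' q hq
      · rw [LFarX_phi1, if_pos rfl]
    · change wt (.X i e p) (LFarX_phi i F 0) (LFarX_phi i F 1) +
        (wt (l₂.shift 2) (LFarX_phi i F 1) (LFarX_phi i F 2) + 0) =
        wt (l₂.shift 2) (F 0) (F 1) + (wt (.X i e p) (F 1) (F 2) + 0)
      rw [hph2, LFarX_phi0]
      have w1 : wt (.X i e p) (F 0) (LFarX_phi i F 1) = wt (.X i e p) (F 1) (F 2) := by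
        apply LFarX_wtX
        · exact (hlow i (by omega)).symm
        · exact (hlow (i + 1) (by omega)).symm
        · exact (hlow (i + 2) (by omega)).symm
        · rw [LFarX_phi1, if_pos rfl]
      have w2 : wt (l₂.shift 2) (LFarX_phi i F 1) (F 2) = wt (l₂.shift 2) (F 0) (F 1) := by
        apply LFarX_wt2
        · intro q hq
          rw [LFarX_shift_pos] at hq
          rw [LFarX_phi1, if_neg (by omega)]
        · intro q hq
          rw [LFarX_shift_pos] at hq
          exact hX' q (by omega)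
      rw [w1, w2]
      ring
    · intro h0
      have a0 : F 0 = 0 := by rw [← LFarX_phi0 i F, h0]; rfl
      have a2 : ∀ j, F (j + 2) = 0 := fun j => by rw [← LFarX_phi2 i F j, h0]; rfl
      funext j q
      match j with
      | 0 => rw [a0]; rfl
      | 1 =>
        change F 1 q = 0
        by_cases hq : q ≤ i + 2
        · rw [hlow q hq, a0]; rfl
        · rw [← hX' q (by omega), a2 0]; rfl
      | j + 2 => rw [a2 j]; rfl
  · refine LT_iso σ _ _ (LFarX_psi i) (fun F => LFarX_psi0 i F) (fun F j => LFarX_psi2 i F j) ?_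
    rintro F ⟨hX, hr, -⟩
    change Rel (l₂.shift 2) (F 1) (F 2) at hr
    have hlow := LFarX_low i l₂ h (F 1) (F 2) hr
    have hX' : ∀ q, q ≠ i + 1 → F 1 q = F 0 q := hX
    have hph2 : LFarX_psi i F 2 = F 2 := LFarX_psi2 i F 0
    have hlow' : ∀ q, q ≠ i + 1 → q ≤ i + 2 → F 2 q = F 0 q := fun q h1 h2 => by
      rw [hlow q h2, hX' q h1]
    refine ⟨⟨?_, ?_, trivial⟩, ?_, ?_⟩
    · rw [LFarX_psi0]
      refine LFarX_rel i l₂ h (F 1) (F 2) _ _ hr (fun q hq => ?_) (fun q hq => ?_) ?_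
      · exact (hX' q hq).symm
      · rw [LFarX_psi1]
        by_cases hq2 : q ≤ i + 2
        · rw [if_pos hq2, hlow' q hq hq2]
        · rw [if_neg hq2]
      · rw [LFarX_psi1, if_pos (by omega)]
    · change Rel (.X i e p) (LFarX_psi i F 1) (LFarX_psi i F 2)
      rw [hph2]
      intro q hq
      rw [LFarX_psi1]
      by_cases hq2 : q ≤ i + 2
      · rw [if_pos hq2, hlow' q hq hq2]
      · rw [if_neg hq2]
    · change wt (l₂.shift 2) (LFarX_psi i F 0) (LFarX_psi i F 1) +
        (wt (.X i e p) (LFarX_psi i F 1) (LFarX_psi i F 2) + 0) =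
        wt (.X i e p) (F 0) (F 1) + (wt (l₂.shift 2) (F 1) (F 2) + 0)
      rw [hph2, LFarX_psi0]
      have w1 : wt (.X i e p) (LFarX_psi i F 1) (F 2) = wt (.X i e p) (F 0) (F 1) := by
        apply LFarX_wtX
        · rw [LFarX_psi1, if_pos (by omega)]
        · rw [LFarX_psi1, if_pos (by omega)]
        · rw [LFarX_psi1, if_pos (by omega)]
        · exact hlow (i + 1) (by omega)
      have w2 : wt (l₂.shift 2) (F 0) (LFarX_psi i F 1) = wt (l₂.shift 2) (F 1) (F 2) := by
        apply LFarX_wt2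
        · intro q hq
          rw [LFarX_shift_pos] at hq
          exact (hX' q (by omega)).symm
        · intro q hq
          rw [LFarX_shift_pos] at hq
          rw [LFarX_psi1]
          by_cases hq2 : q ≤ i + 2
          · rw [if_pos hq2, hlow' q (by omega) hq2]
          · rw [if_neg hq2]
      rw [w1, w2]
      ring
    · intro h0
      have a0 : F 0 = 0 := by rw [← LFarX_psi0 i F, h0]; rfl
      have a2 : ∀ j, F (j + 2) = 0 := fun j => by rw [← LFarX_psi2 i F j, h0]; rfl
      funext j q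
      match j with
      | 0 => rw [a0]; rfl
      | 1 =>
        change F 1 q = 0
        by_cases hq : q ≤ i + 2
        · rw [← hlow q hq, a2 0]; rfl
        · rw [hX' q (by omega), a0]; rfl
      | j + 2 => rw [a2 j]; rfl

end FPS
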