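import Mathlib
import Pool.Agent.H61.RP.Base

/-!
MODULE LR1 (about 150 lines).  First Reidemeister move `x = [cup i o, X i e false]`, `y = [cup i (!o)]`.
Write `c = 1` if the crossing has sign `σ` (`cs σ x = 1`), else `c = 0`; note `sg σ * eps e false` is `1`
if `c = 1` and `-1` if `c = 0`.

Labels of `x`: `f`, `a = f i`; level 1 `g`: slots `i, i+1, i+2` are `a, t, a`; level 2 `h`: `a, t', a`.
The weight is `eps e false * qq t' t a a = eps e false * 2 * (t + t' - a)^2`.  Labels of `y`: `f, h`.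

x → y (dimension drops by c).  Given `M, T, q, K`.
* c = 1: let `θ m = T m 1 (i+1) + T m 2 (i+1) - T m 0 i` (linear functional), `M' = ker θ` (finrank ≥ finrank M
  - 1), `i` the inclusion, `T' m = (T m 0, T m 2, T m 3, ...)`, i.e. `T' m j = if j = 0 then T m 0 else T m (j+1)`.
  On `M'` the weight is 0.  Injectivity: if `i m ∈ K` and `T' m = 0`, then all levels except 1 vanish, and level 1:
  `t = a - t' = 0` by `θ = 0`, the other slots of level 1 are slots of level 0.  So `T m = 0`, `m = 0`.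
* c = 0: `M' = M`.  The weight times `sg σ` is `-2 (..)^2 ≤ 0`, so positivity is inherited.  Injectivity: if
  `m ∈ K`, all levels except 1 vanish.  Then `0 ≤ q m - 2 t^2`; and `q m = q (0 + m) = q 0`,
  and `q 0 = 0`?  Use instead: `0 ≤ q (s • m) + ...` for all rational `s` gives `0 ≤ q 0 - 2 s^2 t^2`
  for all `s` (`q (s • m) = q (0 + s • m) = q 0`), hence `t = 0`.
y → x (dimension grows by c).
* c = 1: `M' = M × ℚ`, `i = fst`, `T' (m, t) = (T m 0, g, T m 1, T m 2, ...)`,
  `g q = if q = i + 1 then t else T m 1 q`.  Weight times `sg σ` is `2 (..)^2 ≥ 0`.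
* c = 0: `M' = M`, the same with `t := T m 0 i - T m 1 (i+1)`, weight 0.
-/

namespace FPS

open Letter

private def drp : (ℕ → ℕ → ℚ) →ₗ[ℚ] (ℕ → ℕ → ℚ) where
  toFun F := fun j => if j = 0 then F 0 else F (j + 1)
  map_add' a b := by
    funext j q
    by_cases h : j = 0 <;> simp [h]
  map_smul' a b := by
    funext j q
    by_cases h : j = 0 <;> simp [h]

private theorem drp_zero (F : ℕ → ℕ → ℚ) : drp F 0 = F 0 := by
  simp [drp]

private theorem drp_succ (F : ℕ → ℕ → ℚ) (j : ℕ) : drp F (j + 1) = F (j + 2) := by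
  simp [drp]

private theorem preX {i : ℕ} {o e : Bool} {F : ℕ → ℕ → ℚ}
    (h : Pre [.cup i o, .X i e false] F) :
    (∀ q, q ≤ i → F 1 q = F 0 q) ∧ (∀ q, i ≤ q → F 1 (q + 2) = F 0 q) ∧
      ∀ q, q ≠ i + 1 → F 2 q = F 1 q := by
  obtain ⟨⟨h1, h2⟩, h3, _⟩ := h
  exact ⟨h1, h2, h3⟩

private theorem preY {i : ℕ} {o : Bool} {F : ℕ → ℕ → ℚ}
    (h : Pre [.cup i o] F) :
    (∀ q, q ≤ i → F 1 q = F 0 q) ∧ (∀ q, i ≤ q → F 1 (q + 2) = F 0 q) := by
  obtain ⟨⟨h1, h2⟩, _⟩ := h
  exact ⟨h1, h2⟩

private theorem qfX {i : ℕ} {o e : Bool} {F : ℕ → ℕ → ℚ}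
    (h : Pre [.cup i o, .X i e false] F) :
    Qf [.cup i o, .X i e false] F =
      eps e false * (2 * (F 1 (i + 1) + F 2 (i + 1) - F 0 i) ^ 2) := by
  obtain ⟨h1, h2, h3⟩ := preX h
  have ha : F 1 i = F 0 i := h1 i le_rfl
  have hb : F 1 (i + 2) = F 0 i := h2 i le_rfl
  have e1 : Qf [.cup i o, .X i e false] F =
      0 + (eps e false * qq (F 2 (i + 1)) (F 1 (i + 1)) (F 1 i) (F 1 (i + 2)) + 0) := rfl
  rw [e1, ha, hb]
  unfold qq
  ring

private theorem qfY {i : ℕ} {o : Bool} {F : ℕ → ℕ → ℚ} : Qf [.cup i o] F = 0 := by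
  have e1 : Qf [.cup i o] F = 0 + 0 := rfl
  rw [e1, add_zero]

private theorem preY_drp {i : ℕ} {o o' e : Bool} {F : ℕ → ℕ → ℚ}
    (h : Pre [.cup i o, .X i e false] F) : Pre [.cup i o'] (drp F) := by
  obtain ⟨h1, h2, h3⟩ := preX h
  refine ⟨⟨?_, ?_⟩, trivial⟩
  · intro q hq
    rw [drp_zero]
    have : drp F 1 = F 2 := drp_succ F 0
    rw [this, h3 q (by omega), h1 q hq]
  · intro q hq
    rw [drp_zero]
    have : drp F 1 = F 2 := drp_succ F 0
    rw [this, h3 (q + 2) (by omega), h2 q hq]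

private theorem lvl1 {i : ℕ} {o e : Bool} {F : ℕ → ℕ → ℚ}
    (h : Pre [.cup i o, .X i e false] F) (h0 : F 0 = 0) (h2 : ∀ j, F (j + 2) = 0)
    (ht : F 1 (i + 1) = 0) : F = 0 := by
  obtain ⟨k1, k2, _⟩ := preX h
  funext j
  rcases j with _ | _ | j
  · exact h0
  · funext q
    change F 1 q = 0
    rcases Nat.lt_trichotomy q (i + 1) with hq | hq | hq
    · rw [k1 q (by omega), h0]
      rfl
    · rw [hq, ht]
    · obtain ⟨r, rfl⟩ : ∃ r, q = r + 2 := ⟨q - 2, by omega⟩
      rw [k2 r (by omega), h0]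
      rfl
  · exact h2 j

private theorem caseA (σ : Bool) (i : ℕ) (o o' e : Bool) :
    LT σ [.cup i o, .X i e false] [.cup i o'] (-1) := by
  intro M _ _ _ T q K hK hq hinj hpre hpos
  let θ : M →ₗ[ℚ] ℚ :=
    { toFun := fun m => T m 1 (i + 1) + T m 2 (i + 1) - T m 0 i
      map_add' := by
        intro a b
        simp only [map_add, Pi.add_apply]
        ring
      map_smul' := by
        intro c a
        simp only [map_smul, Pi.smul_apply, smul_eq_mul, RingHom.id_apply]
        ring }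
  have hθ : ∀ m, θ m = T m 1 (i + 1) + T m 2 (i + 1) - T m 0 i := fun _ => rfl
  refine ⟨LinearMap.ker θ, inferInstance, inferInstance, inferInstance,
    (LinearMap.ker θ).subtype, (drp.comp T).comp (LinearMap.ker θ).subtype, ?_, ?_, ?_, ?_, ?_, ?_⟩
  · intro m
    exact preY_drp (hpre m)
  · intro m
    exact drp_zero _
  · intro m j
    exact drp_succ _ j
  · intro m hm hT
    obtain ⟨h0, h2⟩ := hK _ hm
    have hker : T m 1 (i + 1) + T m 2 (i + 1) - T m 0 i = 0 := by
      rw [← hθ]
      exact m.2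
    have h2' : T m 2 = 0 := h2 0
    have h0' : T m 0 = 0 := h0
    rw [h2', h0'] at hker
    have ht : T m 1 (i + 1) = 0 := by simpa using hker
    have := hinj m hm (lvl1 (hpre m) h0 h2 ht)
    exact Subtype.ext this
  · intro m
    have h := hpos m
    rw [qfX (hpre m)] at h
    have hker : T m 1 (i + 1) + T m 2 (i + 1) - T m 0 i = 0 := by
      rw [← hθ]
      exact m.2
    rw [hker] at h
    rw [qfY]
    simpa using h
  · have h1 := LinearMap.finrank_range_add_finrank_ker θ
    have h2 : Module.finrank ℚ (LinearMap.range θ) ≤ 1 := by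
      have := Submodule.finrank_le (LinearMap.range θ)
      simpa using this
    omega

private theorem caseB (σ : Bool) (i : ℕ) (o o' e : Bool) (hs : sg σ * eps e false = -1) :
    LT σ [.cup i o, .X i e false] [.cup i o'] 0 := by
  intro M _ _ _ T q K hK hq hinj hpre hpos
  refine ⟨M, inferInstance, inferInstance, inferInstance,
    LinearMap.id, drp.comp T, ?_, ?_, ?_, ?_, ?_, ?_⟩
  · intro m
    exact preY_drp (hpre m)
  · intro m
    exact drp_zero _
  · intro m j
    exact drp_succ _ j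
  · intro m hm hT
    obtain ⟨h0, h2⟩ := hK _ hm
    have h2' : T m 2 = 0 := h2 0
    have h0' : T m 0 = 0 := h0
    have key : ∀ s : ℚ, 0 ≤ q 0 - 2 * (s * T m 1 (i + 1)) ^ 2 := by
      intro s
      have hk := hpos (s • m)
      rw [qfX (hpre _), ← mul_assoc, hs] at hk
      have hq0 : q (s • m) = q 0 := by
        have := hq 0 (s • m) (K.smul_mem s hm)
        rwa [zero_add] at this
      rw [hq0] at hk
      simp only [map_smul, Pi.smul_apply, smul_eq_mul, h2', h0', Pi.zero_apply, mul_zero] at hk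
      linarith [hk, (by ring : (-1 : ℚ) * (2 * (s * T m 1 (i + 1) + 0 - 0) ^ 2) =
        - (2 * (s * T m 1 (i + 1)) ^ 2))]
    have ht : T m 1 (i + 1) = 0 := by
      by_contra hne
      have hpos' : 0 < (T m 1 (i + 1)) ^ 2 := by positivity
      have hq0 : 0 ≤ q 0 := by
        have := key 0
        simpa using this
      have h1 := key ((q 0 + 1) / T m 1 (i + 1))
      have h3 : (q 0 + 1) / T m 1 (i + 1) * T m 1 (i + 1) = q 0 + 1 := by
        field_simp
      rw [h3] at h1
      nlinarith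
    exact hinj m hm (lvl1 (hpre m) h0 h2 ht)
  · intro m
    have h := hpos m
    rw [qfX (hpre m), ← mul_assoc, hs] at h
    rw [qfY]
    have h2 := sq_nonneg (T m 1 (i + 1) + T m 2 (i + 1) - T m 0 i)
    change 0 ≤ q m + sg σ * 0
    linarith
  · simp

/-- Insertion of a level which has the label `t` in the slot `i + 1`. -/
private def insr (i : ℕ) : (ℕ → ℕ → ℚ) × ℚ →ₗ[ℚ] (ℕ → ℕ → ℚ) where
  toFun F := fun j q => if j = 0 then F.1 0 q else if j = 1 then
    (if q = i + 1 then F.2 else F.1 1 q) else F.1 (j - 1) q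
  map_add' a b := by
    funext j q
    by_cases h : j = 0
    · simp [h]
    · by_cases h1 : j = 1
      · by_cases h2 : q = i + 1 <;> simp [h1, h2]
      · simp [h, h1]
  map_smul' c a := by
    funext j q
    by_cases h : j = 0
    · simp [h]
    · by_cases h1 : j = 1
      · by_cases h2 : q = i + 1 <;> simp [h1, h2]
      · simp [h, h1]

private theorem insr_zero (i : ℕ) (F : ℕ → ℕ → ℚ) (t : ℚ) : insr i (F, t) 0 = F 0 := by
  funext q
  simp [insr]

private theorem insr_one (i : ℕ) (F : ℕ → ℕ → ℚ) (t : ℚ) : insr i (F, t) 1 (i + 1) = t := by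
  simp [insr]

private theorem insr_one_ne (i : ℕ) (F : ℕ → ℕ → ℚ) (t : ℚ) (q : ℕ) (hq : q ≠ i + 1) :
    insr i (F, t) 1 q = F 1 q := by
  simp [insr, hq]

private theorem insr_succ (i : ℕ) (F : ℕ → ℕ → ℚ) (t : ℚ) (j : ℕ) :
    insr i (F, t) (j + 2) = F (j + 1) := by
  funext q
  simp [insr]

private theorem preX_insr {i : ℕ} {o o' e : Bool} {F : ℕ → ℕ → ℚ} (t : ℚ)
    (h : Pre [.cup i o'] F) : Pre [.cup i o, .X i e false] (insr i (F, t)) := by
  obtain ⟨h1, h2⟩ := preY h
  have e2 : insr i (F, t) 2 = F 1 := insr_succ i F t 0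
  refine ⟨⟨?_, ?_⟩, ?_, trivial⟩
  · intro q hq
    rw [insr_zero, insr_one_ne i F t q (by omega), h1 q hq]
  · intro q hq
    rw [insr_zero, insr_one_ne i F t (q + 2) (by omega), h2 q hq]
  · intro q hq
    change insr i (F, t) 2 q = insr i (F, t) 1 q
    rw [e2, insr_one_ne i F t q hq]

private theorem caseC (σ : Bool) (i : ℕ) (o o' e : Bool) (hs : sg σ * eps e false = 1) :
    LT σ [.cup i o'] [.cup i o, .X i e false] 1 := by
  intro M _ _ _ T q K hK hq hinj hpre hpos
  refine ⟨M × ℚ, inferInstance, inferInstance, inferInstance,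
    LinearMap.fst ℚ M ℚ, (insr i).comp (T.prodMap LinearMap.id), ?_, ?_, ?_, ?_, ?_, ?_⟩
  · rintro ⟨m, t⟩
    exact preX_insr t (hpre m)
  · rintro ⟨m, t⟩
    exact insr_zero i (T m) t
  · rintro ⟨m, t⟩ j
    exact insr_succ i (T m) t j
  · rintro ⟨m, t⟩ hm hT
    have hT' : insr i (T m, t) = 0 := hT
    have ht : t = 0 := by
      rw [← insr_one i (T m) t, hT']
      rfl
    have hm0 : m = 0 := by
      apply hinj m hm
      funext j
      rcases j with _ | j
      · rw [← insr_zero i (T m) t, hT']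
      · rw [← insr_succ i (T m) t j, hT']
        rfl
    rw [ht, hm0]
    rfl
  · rintro ⟨m, t⟩
    have h := hpos m
    rw [qfY, mul_zero, add_zero] at h
    change 0 ≤ q m + sg σ * Qf _ (insr i (T m, t))
    rw [qfX (preX_insr t (hpre m)), ← mul_assoc, hs]
    have h2 := sq_nonneg (insr i (T m, t) 1 (i + 1) + insr i (T m, t) 2 (i + 1) -
      insr i (T m, t) 0 i)
    linarith
  · rw [Module.finrank_prod, Module.finrank_self]
    push_cast
    exact le_rfl

private theorem caseD (σ : Bool) (i : ℕ) (o o' e : Bool) :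
    LT σ [.cup i o'] [.cup i o, .X i e false] 0 := by
  intro M _ _ _ T q K hK hq hinj hpre hpos
  let θ : M →ₗ[ℚ] ℚ :=
    { toFun := fun m => T m 0 i - T m 1 (i + 1)
      map_add' := by
        intro a b
        simp only [map_add, Pi.add_apply]
        ring
      map_smul' := by
        intro c a
        simp only [map_smul, Pi.smul_apply, smul_eq_mul, RingHom.id_apply]
        ring }
  have hθ : ∀ m, θ m = T m 0 i - T m 1 (i + 1) := fun _ => rfl
  refine ⟨M, inferInstance, inferInstance, inferInstance,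
    LinearMap.id, (insr i).comp (T.prod θ), ?_, ?_, ?_, ?_, ?_, ?_⟩
  · intro m
    exact preX_insr (θ m) (hpre m)
  · intro m
    exact insr_zero i (T m) (θ m)
  · intro m j
    exact insr_succ i (T m) (θ m) j
  · intro m hm hT
    have hT' : insr i (T m, θ m) = 0 := hT
    apply hinj m hm
    funext j
    rcases j with _ | j
    · rw [← insr_zero i (T m) (θ m), hT']
    · rw [← insr_succ i (T m) (θ m) j, hT']
      rfl
  · intro m
    have h := hpos m
    rw [qfY, mul_zero, add_zero] at h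
    change 0 ≤ q m + sg σ * Qf _ (insr i (T m, θ m))
    have e2 : insr i (T m, θ m) 2 = T m 1 := insr_succ i (T m) (θ m) 0
    rw [qfX (preX_insr (θ m) (hpre m)), insr_one, e2, insr_zero, hθ]
    have : T m 0 i - T m 1 (i + 1) + T m 1 (i + 1) - T m 0 i = 0 := by ring
    rw [this]
    simpa using h
  · simp

theorem LT_r1U (σ : Bool) (i : ℕ) (o e : Bool) :
    LT σ [.cup i o, .X i e false] [.cup i (!o)] (-(cs σ [.cup i o, .X i e false] : ℤ)) ∧
    LT σ [.cup i (!o)] [.cup i o, .X i e false] (cs σ [.cup i o, .X i e false] : ℤ) := by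
  by_cases h : (e == false) = σ
  · have hc : (cs σ [.cup i o, .X i e false] : ℤ) = 1 := by
      simp [cs, cnt, h]
    have hs : sg σ * eps e false = 1 := by
      subst h
      cases e <;> simp [sg, eps]
    rw [hc]
    exact ⟨caseA σ i o (!o) e, caseC σ i o (!o) e hs⟩
  · have hc : (cs σ [.cup i o, .X i e false] : ℤ) = 0 := by
      cases σ <;> cases e <;> simp_all [cs, cnt]
    have hs : sg σ * eps e false = -1 := by
      cases σ <;> cases e <;> simp_all [sg, eps]
    rw [hc, neg_zero]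
    exact ⟨caseB σ i o (!o) e hs, caseD σ i o (!o) e⟩

end FPS
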