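import Mathlib
import Pool.Agent.H61.RP.Base

/-!
MODULE LR1A (about 150 lines).  First Reidemeister move at a maximum: `x = [X i e false, cap i]`,
`y = [cap i]`.  Write `c = 1` if the crossing has sign `σ` (`cs σ x = 1`), else `c = 0`; `sg σ * eps e false`
is `1` if `c = 1` and `-1` if `c = 0`.

Labels of `x`: `f` with slots `i, i+1, i+2` equal to `a, t, a` (because of the cap); level 1 `g`: `a, t', a`;
level 2 `h`.  The weight is `eps e false * qq t' t a a = eps e false * 2 * (t + t' - a)^2`.
Labels of `y`: `f, h`.  (Here the INTERNAL label is `t' = g (i+1)`, and `g q = f q` for `q ≠ i+1`.)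

x → y (dimension drops by c).  Given `M, T, q, K`.
* c = 1: `θ m = T m 0 (i+1) + T m 1 (i+1) - T m 0 i`, `M' = ker θ`, `i` the inclusion,
  `T' m j = if j = 0 then T m 0 else T m (j+1)`.  Injectivity: all levels except 1 vanish, and `t' = a - t = 0`.
* c = 0: `M' = M`, positivity is inherited (the weight times `sg σ` is `≤ 0`).  Injectivity: if `m ∈ K`,
  all levels except 1 vanish, for all rational `s`: `0 ≤ q (s • m) - 2 s^2 t'^2 = q 0 - 2 s^2 t'^2`
  (`q (s • m) = q (0 + s • m) = q 0`), so `t' = 0`.
y → x (dimension grows by c).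
* c = 1: `M' = M × ℚ`, `i = fst`, `T' (m, t') = (T m 0, g, T m 1, T m 2, ...)`,
  `g q = if q = i + 1 then t' else T m 0 q`.
* c = 0: `M' = M`, the same with `t' := T m 0 i - T m 0 (i+1)`, weight 0.
-/

namespace FPS

open Letter

/-- Forgetting level `1`. -/
private def r1aDrop : (ℕ → ℕ → ℚ) →ₗ[ℚ] (ℕ → ℕ → ℚ) where
  toFun F := fun j q => if j = 0 then F 0 q else F (j + 1) q
  map_add' a b := by
    funext j q
    by_cases h : j = 0 <;> simp [h]
  map_smul' a b := by
    funext j q
    by_cases h : j = 0 <;> simp [h]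

private theorem r1aDrop_zero (F : ℕ → ℕ → ℚ) : r1aDrop F 0 = F 0 := rfl

private theorem r1aDrop_succ (F : ℕ → ℕ → ℚ) (j : ℕ) : r1aDrop F (j + 1) = F (j + 2) := rfl

/-- Inserting a level after level `0`. -/
private def r1aIns (i : ℕ) : ((ℕ → ℕ → ℚ) × ℚ) →ₗ[ℚ] (ℕ → ℕ → ℚ) where
  toFun G := fun j q => if j = 0 then G.1 0 q else
    if j = 1 then (if q = i + 1 then G.2 else G.1 0 q) else G.1 (j - 1) q
  map_add' a b := by
    funext j q
    by_cases h : j = 0
    · simp [h]
    · by_cases h1 : j = 1
      · by_cases h2 : q = i + 1 <;> simp [h1, h2]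
      · simp [h, h1]
  map_smul' a b := by
    funext j q
    by_cases h : j = 0
    · simp [h]
    · by_cases h1 : j = 1
      · by_cases h2 : q = i + 1 <;> simp [h1, h2]
      · simp [h, h1]

private theorem r1aIns_zero (i : ℕ) (G : (ℕ → ℕ → ℚ) × ℚ) : r1aIns i G 0 = G.1 0 := rfl

private theorem r1aIns_one (i : ℕ) (G : (ℕ → ℕ → ℚ) × ℚ) (q : ℕ) (hq : q ≠ i + 1) :
    r1aIns i G 1 q = G.1 0 q := by
  change (if q = i + 1 then G.2 else G.1 0 q) = _
  rw [if_neg hq]

private theorem r1aIns_one' (i : ℕ) (G : (ℕ → ℕ → ℚ) × ℚ) :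
    r1aIns i G 1 (i + 1) = G.2 := by
  change (if i + 1 = i + 1 then G.2 else G.1 0 (i + 1)) = _
  rw [if_pos rfl]

private theorem r1aIns_succ (i : ℕ) (G : (ℕ → ℕ → ℚ) × ℚ) (j : ℕ) :
    r1aIns i G (j + 2) = G.1 (j + 1) := rfl

private theorem r1a_facts {i : ℕ} {e : Bool} {F : ℕ → ℕ → ℚ}
    (h : Pre [Letter.X i e false, Letter.cap i] F) :
    (∀ q, q ≠ i + 1 → F 1 q = F 0 q) ∧ (∀ q, q ≤ i → F 2 q = F 0 q) ∧
    (∀ q, i ≤ q → F 2 q = F 0 (q + 2)) := by
  obtain ⟨h1, ⟨h2, h3⟩, -⟩ := h
  have h1' : ∀ q, q ≠ i + 1 → F 1 q = F 0 q := h1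
  have h2' : ∀ q, q ≤ i → F 2 q = F 1 q := h2
  have h3' : ∀ q, i ≤ q → F 2 q = F 1 (q + 2) := h3
  refine ⟨h1', fun q hq => ?_, fun q hq => ?_⟩
  · rw [h2' q hq, h1' q (by omega)]
  · rw [h3' q hq, h1' (q + 2) (by omega)]

private theorem r1a_Qf (i : ℕ) (e : Bool) (F : ℕ → ℕ → ℚ) (h : F 0 (i + 2) = F 0 i) :
    Qf [Letter.X i e false, Letter.cap i] F =
      eps e false * (2 * (F 0 (i + 1) + F 1 (i + 1) - F 0 i) ^ 2) := by
  change eps e false * qq (F 1 (i + 1)) (F 0 (i + 1)) (F 0 i) (F 0 (i + 2)) + (0 + 0) = _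
  rw [h]
  unfold qq
  ring

private theorem r1a_Qf' (i : ℕ) (F : ℕ → ℕ → ℚ) : Qf [Letter.cap i] F = 0 := by
  change (0 : ℚ) + 0 = 0
  ring

private theorem r1a_Pre_drop {i : ℕ} {e : Bool} {F : ℕ → ℕ → ℚ}
    (h : Pre [Letter.X i e false, Letter.cap i] F) :
    Pre [Letter.cap i] (r1aDrop F) := by
  obtain ⟨_, h2, h3⟩ := r1a_facts h
  exact ⟨⟨h2, h3⟩, trivial⟩

private theorem r1a_Pre_ins {i : ℕ} (e : Bool) {F : ℕ → ℕ → ℚ} (t : ℚ)
    (h : Pre [Letter.cap i] F) :
    Pre [Letter.X i e false, Letter.cap i] (r1aIns i (F, t)) ∧ F 0 (i + 2) = F 0 i := by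
  obtain ⟨⟨h2, h3⟩, -⟩ := h
  refine ⟨⟨?_, ⟨?_, ?_⟩, trivial⟩, ?_⟩
  · intro q hq
    exact r1aIns_one i (F, t) q hq
  · intro q hq
    change F 1 q = r1aIns i (F, t) 1 q
    rw [r1aIns_one i (F, t) q (by omega)]
    exact h2 q hq
  · intro q hq
    change F 1 q = r1aIns i (F, t) 1 (q + 2)
    rw [r1aIns_one i (F, t) (q + 2) (by omega)]
    exact h3 q hq
  · exact (h3 i le_rfl).symm.trans (h2 i le_rfl)

private theorem r1a_cs (σ : Bool) (i : ℕ) (e : Bool) :
    (cs σ [Letter.X i e false, Letter.cap i] = 1 ∧ sg σ * eps e false = 1) ∨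
    (cs σ [Letter.X i e false, Letter.cap i] = 0 ∧ sg σ * eps e false = -1) := by
  cases σ <;> cases e <;> simp [cs, cnt, sg, eps]

theorem LT_r1A (σ : Bool) (i : ℕ) (e : Bool) :
    LT σ [.X i e false, .cap i] [.cap i] (-(cs σ [.X i e false, .cap i] : ℤ)) ∧
    LT σ [.cap i] [.X i e false, .cap i] (cs σ [.X i e false, .cap i] : ℤ) := by
  constructor
  · intro M _ _ _ T q K hK hq hinj hpre hpos
    have hQ : ∀ m, sg σ * Qf [Letter.X i e false, Letter.cap i] (T m) =
        (sg σ * eps e false) *
          (2 * (T m 0 (i + 1) + T m 1 (i + 1) - T m 0 i) ^ 2) := by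
      intro m
      obtain ⟨_, h2, h3⟩ := r1a_facts (hpre m)
      rw [r1a_Qf i e (T m) ((h3 i le_rfl).symm.trans (h2 i le_rfl))]
      ring
    -- all levels vanish as soon as the middle label does
    have hzero : ∀ m, m ∈ K → T m 1 (i + 1) = 0 → m = 0 := by
      intro m hm ht
      apply hinj m hm
      obtain ⟨k1, k2⟩ := hK m hm
      obtain ⟨h1, _, _⟩ := r1a_facts (hpre m)
      funext j
      rcases Nat.lt_or_ge j 2 with hj | hj
      · have hj' : j = 0 ∨ j = 1 := by omega
        rcases hj' with rfl | rfl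
        · exact k1
        · funext r
          by_cases hr : r = i + 1
          · subst hr
            exact ht
          · rw [h1 r hr, k1]
            rfl
      · have := k2 (j - 2)
        have e2 : j - 2 + [Letter.X i e false, Letter.cap i].length = j := by
          simp only [List.length_cons, List.length_nil]
          omega
        rw [e2] at this
        exact this
    rcases r1a_cs σ i e with ⟨hc, hs⟩ | ⟨hc, hs⟩
    · -- the positive case
      let θ : M →ₗ[ℚ] ℚ :=
        { toFun := fun m => T m 0 (i + 1) + T m 1 (i + 1) - T m 0 i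
          map_add' := by
            intro a b
            simp only [map_add, Pi.add_apply]
            ring
          map_smul' := by
            intro c a
            simp only [map_smul, Pi.smul_apply, smul_eq_mul, RingHom.id_apply]
            ring }
      have hθ : ∀ m : M, θ m = T m 0 (i + 1) + T m 1 (i + 1) - T m 0 i := fun m => rfl
      refine ⟨LinearMap.ker θ, inferInstance, inferInstance, inferInstance,
        (LinearMap.ker θ).subtype, r1aDrop.comp (T.comp (LinearMap.ker θ).subtype),
        ?_, ?_, ?_, ?_, ?_, ?_⟩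
      · intro m
        exact r1a_Pre_drop (hpre m)
      · intro m
        rfl
      · intro m j
        rfl
      · intro m hm _
        have hz : T (m : M) 1 (i + 1) = 0 := by
          have h1 : θ (m : M) = 0 := m.2
          rw [hθ] at h1
          have h2 := (hK (m : M) hm).1
          rw [h2] at h1
          simpa using h1
        exact Subtype.ext (hzero m hm hz)
      · intro m
        have h1 : θ (m : M) = 0 := m.2
        have h2 := hpos (m : M)
        rw [hQ, hs, ← hθ, h1] at h2
        change 0 ≤ q (m : M) + sg σ * Qf [Letter.cap i] (r1aDrop (T (m : M)))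
        rw [r1a_Qf']
        linarith
      · have h1 := LinearMap.finrank_range_add_finrank_ker θ
        have h2 : Module.finrank ℚ (LinearMap.range θ) ≤ 1 := by
          have := Submodule.finrank_le (LinearMap.range θ)
          rwa [Module.finrank_self] at this
        rw [hc]
        push_cast
        omega
    · -- the negative case
      refine ⟨M, _, _, ‹_›, LinearMap.id, r1aDrop.comp T, ?_, ?_, ?_, ?_, ?_, ?_⟩
      · intro m
        exact r1a_Pre_drop (hpre m)
      · intro m
        rfl
      · intro m j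
        rfl
      · intro m hm _
        apply hzero m hm
        by_contra hne
        have k1 : ∀ r : ℚ, 0 ≤ q 0 - 2 * (r * T m 1 (i + 1)) ^ 2 := by
          intro r
          have h1 := hpos (r • m)
          have hk : r • m ∈ K := K.smul_mem r hm
          have h2 := hq 0 (r • m) hk
          rw [zero_add] at h2
          rw [hQ, hs, h2] at h1
          have h3 := (hK (r • m) hk).1
          rw [h3] at h1
          simp only [Pi.zero_apply, map_smul, Pi.smul_apply, smul_eq_mul, zero_add,
            sub_zero] at h1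
          linarith
        have hpos2 : 0 < (T m 1 (i + 1)) ^ 2 := by positivity
        have h0 : 0 ≤ q 0 := by
          have := k1 0
          simpa using this
        have h3 := k1 ((q 0 + 1) / T m 1 (i + 1))
        rw [div_mul_cancel₀ _ hne] at h3
        nlinarith
      · intro m
        have h2 := hpos m
        rw [hQ, hs] at h2
        change 0 ≤ q m + sg σ * Qf [Letter.cap i] (r1aDrop (T m))
        rw [r1a_Qf']
        nlinarith [sq_nonneg (T m 0 (i + 1) + T m 1 (i + 1) - T m 0 i)]
      · rw [hc]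
        simp
  · intro M _ _ _ T q K hK hq hinj hpre hpos
    have hposq : ∀ m, 0 ≤ q m := by
      intro m
      have := hpos m
      rw [r1a_Qf'] at this
      linarith
    have hlen : [Letter.cap i].length = 1 := rfl
    rcases r1a_cs σ i e with ⟨hc, hs⟩ | ⟨hc, hs⟩
    · refine ⟨M × ℚ, inferInstance, inferInstance, inferInstance, LinearMap.fst ℚ M ℚ,
        (r1aIns i).comp (LinearMap.prodMap T LinearMap.id), ?_, ?_, ?_, ?_, ?_, ?_⟩
      · rintro ⟨m, t⟩
        exact (r1a_Pre_ins e t (hpre m)).1
      · rintro ⟨m, t⟩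
        rfl
      · rintro ⟨m, t⟩ j
        rfl
      · rintro ⟨m, t⟩ hm hT
        have hm' : m ∈ K := hm
        have hT' : r1aIns i (T m, t) = 0 := hT
        have h1 : t = 0 := by
          have := congrFun (congrFun hT' 1) (i + 1)
          rw [r1aIns_one'] at this
          exact this
        have h2 : m = 0 := by
          apply hinj m hm'
          funext j
          rcases j with _ | j
          · exact (hK m hm').1
          · exact (hK m hm').2 j
        rw [h1, h2]
        rfl
      · rintro ⟨m, t⟩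
        change 0 ≤ q m + sg σ * Qf _ (r1aIns i (T m, t))
        rw [r1a_Qf i e (r1aIns i (T m, t)) (r1a_Pre_ins e t (hpre m)).2, ← mul_assoc, hs,
          one_mul]
        have := hposq m
        positivity
      · rw [hc]
        simp [Module.finrank_prod]
    · let τ : (ℕ → ℕ → ℚ) →ₗ[ℚ] ℚ :=
        { toFun := fun F => F 0 i - F 0 (i + 1)
          map_add' := by
            intro a b
            simp only [Pi.add_apply]
            ring
          map_smul' := by
            intro c a
            simp only [Pi.smul_apply, smul_eq_mul, RingHom.id_apply]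
            ring }
      refine ⟨M, _, _, ‹_›, LinearMap.id,
        (r1aIns i).comp (LinearMap.prod T (τ.comp T)), ?_, ?_, ?_, ?_, ?_, ?_⟩
      · intro m
        exact (r1a_Pre_ins e _ (hpre m)).1
      · intro m
        rfl
      · intro m j
        rfl
      · intro m hm _
        have hm' : m ∈ K := hm
        apply hinj m hm'
        funext j
        rcases j with _ | j
        · exact (hK m hm').1
        · exact (hK m hm').2 j
      · intro m
        change 0 ≤ q m + sg σ * Qf _ (r1aIns i (T m, T m 0 i - T m 0 (i + 1)))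
        rw [r1a_Qf i e (r1aIns i (T m, T m 0 i - T m 0 (i + 1)))
          (r1a_Pre_ins e 0 (hpre m)).2, r1aIns_one']
        change 0 ≤ q m + sg σ * (eps e false *
          (2 * (T m 0 (i + 1) + (T m 0 i - T m 0 (i + 1)) - T m 0 i) ^ 2))
        have h0 : T m 0 (i + 1) + (T m 0 i - T m 0 (i + 1)) - T m 0 i = 0 := by ring
        rw [h0]
        have := hposq m
        simpa using this
      · rw [hc]
        simp

end FPS
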