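import Mathlib
import Pool.Agent.H61.RP.Base

/-!
MODULE LR2 (about 150 lines).  Second Reidemeister move `x = [X i e p, X i (!e) p]`, `y = []`.
Note `cs σ x = 1` for every `σ` (exactly one of the two crossings has sign `σ`), so the changes of dimension
are `-1` and `+1`.

Labels of `x`: `f` with slots `i, i+1, i+2` equal to `a, b₀, r`; level 1: `a, m, r`; level 2 `h`: `a, b₂, r`.
`Qf x = eps e p * (W b₀ m - W m b₂)`, a direct computation gives `Qf x F = eps e p * (b₀ - b₂) * μ` with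
`μ = 4 m - 2 (a + r) - b₀ - b₂` for `p = true`, `μ = 4 m + 2 b₀ + 2 b₂ - 2 (a + r)` for `p = false`
(`ring` after unfolding `qq`).  In particular `Qf x = 0` if `b₀ = b₂`, i.e. if `F 0 = F 2`.

y → x (dimension + 1): `M' = M × ℚ`, `i = fst`, `T' (m, s) = (T m 0, g, T m 0, T m 1, ...)` with
`g q = if q = i + 1 then s else T m 0 q`, i.e. `T' (m, s) j = if j = 0 then T m 0 else if j = 1 then g else
T m (j - 2)`.  `Qf x = 0` there.  Injectivity: `T' = 0` gives `s = 0` and `T m = 0`.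

x → y (dimension - 1): `θ m = T m 0 (i+1) - T m 2 (i+1)`.  `T' m j := T m (j + 2)` (and `T m 2 = T m 0` on `ker θ`).
Case A: there is `k ∈ K` with `T k 1 (i+1) ≠ 0` (so all levels of `T k` except level 1 vanish, and level 1 is
nonzero only in slot `i+1`).  Then `θ = 0` on all of `M`: for `m ∈ M` and rational `s`,
`0 ≤ q (m + s k) + sg σ * Qf x (T (m + s k)) = q m + sg σ * eps e p * θ m * (μ m + 4 s T k 1 (i+1))`,
linear in `s` with slope `± 4 θ m (T k 1 (i+1))`, so `θ m = 0`.  Take `M'` = the kernel of the functional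
`m ↦ T m 1 (i+1)` (finrank ≥ finrank M - 1), `i` the inclusion.  Injectivity: `i m ∈ K`, `T' m = 0`:
levels 0, 2, 3, ... vanish, level 1 vanishes in slot `i+1` by the definition of `M'` and elsewhere by the relations.
Case B: every `k ∈ K` has `T k 1 (i+1) = 0` (so `T k = 0`, `k = 0`: `K = ⊥`).  Take `M' = ker θ`.  On it
`Qf x = 0` (since `b₀ = b₂`) and injectivity is clear: `i m ∈ K` implies `m = 0`.
-/

namespace FPS

open Letter

private theorem r2_pre {i : ℕ} {e e' p : Bool} {F : ℕ → ℕ → ℚ}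
    (h : Pre [.X i e p, .X i e' p] F) :
    (∀ q, q ≠ i + 1 → F 1 q = F 0 q) ∧ ∀ q, q ≠ i + 1 → F 2 q = F 1 q := by
  obtain ⟨h1, h2, _⟩ := h
  exact ⟨h1, h2⟩

/-- The linear factor of the form. -/
private def r2mu (i : ℕ) (p : Bool) (F : ℕ → ℕ → ℚ) : ℚ :=
  4 * F 1 (i + 1) + (if p then - 2 * (F 0 i + F 0 (i + 2)) - F 0 (i + 1) - F 2 (i + 1)
    else 2 * F 0 (i + 1) + 2 * F 2 (i + 1) - 2 * (F 0 i + F 0 (i + 2)))

private theorem r2_qf {i : ℕ} {e p : Bool} {F : ℕ → ℕ → ℚ}
    (h : Pre [.X i e p, .X i (!e) p] F) :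
    Qf [.X i e p, .X i (!e) p] F =
      eps e p * ((F 0 (i + 1) - F 2 (i + 1)) * r2mu i p F) := by
  obtain ⟨h1, h2⟩ := r2_pre h
  have a1 : F 1 i = F 0 i := h1 i (by omega)
  have a2 : F 1 (i + 2) = F 0 (i + 2) := h1 (i + 2) (by omega)
  have he : eps (!e) p = - eps e p := by
    cases e <;> cases p <;> simp [eps]
  cases p with
  | true =>
    have e1 : Qf [.X i e true, .X i (!e) true] F =
        eps e true * qq (F 0 i) (F 0 (i + 2)) (F 1 (i + 1)) (F 0 (i + 1)) +
        (eps (!e) true * qq (F 1 i) (F 1 (i + 2)) (F 2 (i + 1)) (F 1 (i + 1)) + 0) := rfl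
    rw [e1, he, a1, a2]
    unfold qq r2mu
    simp only [if_true]
    ring
  | false =>
    have e1 : Qf [.X i e false, .X i (!e) false] F =
        eps e false * qq (F 1 (i + 1)) (F 0 (i + 1)) (F 0 i) (F 0 (i + 2)) +
        (eps (!e) false * qq (F 2 (i + 1)) (F 1 (i + 1)) (F 1 i) (F 1 (i + 2)) + 0) := rfl
    rw [e1, he, a1, a2]
    unfold qq r2mu
    simp only [Bool.false_eq_true, if_false]
    ring

/-- The coordinate of a labelling. -/
private def r2co (j q : ℕ) : (ℕ → ℕ → ℚ) →ₗ[ℚ] ℚ where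
  toFun F := F j q
  map_add' a b := by simp
  map_smul' a b := by simp

private theorem r2_ker {M : Type} [AddCommGroup M] [Module ℚ M] [FiniteDimensional ℚ M]
    (θ : M →ₗ[ℚ] ℚ) :
    (Module.finrank ℚ M : ℤ) + (-1) ≤ Module.finrank ℚ (LinearMap.ker θ) := by
  have h1 := LinearMap.finrank_range_add_finrank_ker θ
  have h2 : Module.finrank ℚ (LinearMap.range θ) ≤ 1 := by
    have := Submodule.finrank_le (LinearMap.range θ)
    simpa using this
  omega

/-- The labels of level one are determined by the others outside the slot `i + 1`. -/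
private theorem r2_lvl {i : ℕ} {e e' p : Bool} {F : ℕ → ℕ → ℚ}
    (h : Pre [.X i e p, .X i e' p] F) (h0 : F 0 = 0) (h2 : ∀ j, F (j + 2) = 0)
    (ht : F 1 (i + 1) = 0) : F = 0 := by
  obtain ⟨k1, _⟩ := r2_pre h
  funext j
  rcases j with _ | _ | j
  · exact h0
  · funext q
    change F 1 q = 0
    by_cases hq : q = i + 1
    · rw [hq, ht]
    · rw [k1 q hq, h0]
      rfl
  · exact h2 j

/-- Levels zero and two agree if they agree in the slot `i + 1`. -/
private theorem r2_eq {i : ℕ} {e e' p : Bool} {F : ℕ → ℕ → ℚ}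
    (h : Pre [.X i e p, .X i e' p] F) (h0 : F 0 (i + 1) - F 2 (i + 1) = 0) : F 2 = F 0 := by
  obtain ⟨k1, k2⟩ := r2_pre h
  funext q
  by_cases hq : q = i + 1
  · rw [hq]
    linarith
  · rw [k2 q hq, k1 q hq]

/-- Common part of the direction from `x` to `[]`: the restriction to the kernel of `θ`. -/
private theorem r2_fwd (σ : Bool) (i : ℕ) (e p : Bool) {M : Type} [AddCommGroup M] [Module ℚ M]
    [FiniteDimensional ℚ M] (T : M →ₗ[ℚ] (ℕ → ℕ → ℚ)) (q : M → ℚ) (K : Submodule ℚ M)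
    (hpre : ∀ m, Pre [.X i e p, .X i (!e) p] (T m))
    (hpos : ∀ m, 0 ≤ q m + sg σ * Qf [.X i e p, .X i (!e) p] (T m))
    (θ : M →ₗ[ℚ] ℚ) (hθ : ∀ m, θ m = 0 → T m 0 (i + 1) - T m 2 (i + 1) = 0)
    (hK : ∀ m, m ∈ K → θ m = 0 → (∀ j, T m (j + 2) = 0) → m = 0) :
    ∃ (M' : Type) (_ : AddCommGroup M') (_ : Module ℚ M') (_ : FiniteDimensional ℚ M')
      (ι : M' →ₗ[ℚ] M) (T' : M' →ₗ[ℚ] (ℕ → ℕ → ℚ)),
      (∀ m, Pre [] (T' m)) ∧ (∀ m, T' m 0 = T (ι m) 0) ∧
      (∀ m j, T' m (j + ([] : List Letter).length) =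
        T (ι m) (j + ([.X i e p, .X i (!e) p] : List Letter).length)) ∧
      (∀ m, ι m ∈ K → T' m = 0 → m = 0) ∧
      (∀ m, 0 ≤ q (ι m) + sg σ * Qf [] (T' m)) ∧
      (Module.finrank ℚ M : ℤ) + (-1) ≤ Module.finrank ℚ M' := by
  have hker : ∀ m : LinearMap.ker θ, T m 0 (i + 1) - T m 2 (i + 1) = 0 := fun m => hθ m m.2
  refine ⟨LinearMap.ker θ, inferInstance, inferInstance, inferInstance,
    (LinearMap.ker θ).subtype, ((shiftL 2).comp T).comp (LinearMap.ker θ).subtype,
    fun _ => trivial, ?_, fun _ _ => rfl, ?_, ?_, r2_ker θ⟩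
  · intro m
    exact r2_eq (hpre m) (hker m)
  · intro m hm hT
    have h2 : ∀ j, T m (j + 2) = 0 := fun j => congrFun hT j
    exact Subtype.ext (hK m hm m.2 h2)
  · intro m
    have h := hpos m
    rw [r2_qf (hpre m), hker m] at h
    change 0 ≤ q m + sg σ * 0
    simpa using h

private theorem r2_down (σ : Bool) (i : ℕ) (e p : Bool) :
    LT σ [.X i e p, .X i (!e) p] [] (-1) := by
  intro M _ _ _ T q K hK hq hinj hpre hpos
  have hc : sg σ * eps e p ≠ 0 := by
    cases σ <;> cases e <;> cases p <;> simp [sg, eps]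
  have h0K : ∀ m ∈ K, T m 0 = 0 := fun m hm => (hK m hm).1
  have h2K : ∀ m ∈ K, ∀ j, T m (j + 2) = 0 := fun m hm => (hK m hm).2
  by_cases hex : ∃ k ∈ K, T k 1 (i + 1) ≠ 0
  · obtain ⟨k, hk, hne⟩ := hex
    apply r2_fwd σ i e p T q K hpre hpos ((r2co 1 (i + 1)).comp T)
    · intro m _
      by_contra hm
      set c := sg σ * eps e p with hcdef
      set t := T m 0 (i + 1) - T m 2 (i + 1) with htdef
      have key : ∀ s : ℚ, 0 ≤ q m + c * (t * (r2mu i p (T m) + 4 * (s * T k 1 (i + 1)))) := by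
        intro s
        have h := hpos (m + s • k)
        rw [r2_qf (hpre _), hq m _ (K.smul_mem s hk), ← mul_assoc] at h
        have e0 : T (m + s • k) 0 = T m 0 := by
          rw [map_add, Pi.add_apply, h0K _ (K.smul_mem s hk), add_zero]
        have e2 : T (m + s • k) 2 = T m 2 := by
          have := h2K _ (K.smul_mem s hk) 0
          rw [map_add, Pi.add_apply, this, add_zero]
        have e1 : T (m + s • k) 1 (i + 1) = T m 1 (i + 1) + s * T k 1 (i + 1) := by
          rw [map_add, map_smul]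
          rfl
        have e3 : r2mu i p (T (m + s • k)) = r2mu i p (T m) + 4 * (s * T k 1 (i + 1)) := by
          unfold r2mu
          rw [e0, e2, e1]
          ring
        rw [e3, e0, e2] at h
        exact h
      have h := key (-(q m + c * (t * r2mu i p (T m)) + 1) / (4 * (c * t * T k 1 (i + 1))))
      have h2 : q m + c * (t * (r2mu i p (T m) + 4 *
          (-(q m + c * (t * r2mu i p (T m)) + 1) / (4 * (c * t * T k 1 (i + 1))) *
            T k 1 (i + 1)))) = -1 := by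
        have ht : t ≠ 0 := hm
        field_simp
        ring
      rw [h2] at h
      linarith
    · intro m hm hm1 h2
      exact hinj m hm (r2_lvl (hpre m) (h0K m hm) h2 hm1)
  · apply r2_fwd σ i e p T q K hpre hpos ((r2co 0 (i + 1)).comp T - (r2co 2 (i + 1)).comp T)
    · intro m hm
      exact hm
    · intro m hm _ h2
      apply hinj m hm (r2_lvl (hpre m) (h0K m hm) h2 _)
      by_contra hne
      exact hex ⟨m, hm, hne⟩

/-- Insertion of two levels, the first of which has the label `t` in the slot `i + 1`. -/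
private def r2ins (i : ℕ) : (ℕ → ℕ → ℚ) × ℚ →ₗ[ℚ] (ℕ → ℕ → ℚ) where
  toFun F := fun j q => if j = 0 then F.1 0 q else if j = 1 then
    (if q = i + 1 then F.2 else F.1 0 q) else F.1 (j - 2) q
  map_add' a b := by
    funext j q
    by_cases h : j = 0
    · simp [h]
    · by_cases h1 : j = 1
      · by_cases h2 : q = i + 1 <;> simp [h1, h2]
      · simp [h, h1]
  map_smul' c a := by
    funext j q
    by_cases h : j = 0
    · simp [h]
    · by_cases h1 : j = 1
      · by_cases h2 : q = i + 1 <;> simp [h1, h2]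
      · simp [h, h1]

private theorem r2ins_zero (i : ℕ) (F : ℕ → ℕ → ℚ) (t : ℚ) : r2ins i (F, t) 0 = F 0 := by
  funext q
  simp [r2ins]

private theorem r2ins_one (i : ℕ) (F : ℕ → ℕ → ℚ) (t : ℚ) : r2ins i (F, t) 1 (i + 1) = t := by
  simp [r2ins]

private theorem r2ins_one_ne (i : ℕ) (F : ℕ → ℕ → ℚ) (t : ℚ) (q : ℕ) (hq : q ≠ i + 1) :
    r2ins i (F, t) 1 q = F 0 q := by
  simp [r2ins, hq]

private theorem r2ins_succ (i : ℕ) (F : ℕ → ℕ → ℚ) (t : ℚ) (j : ℕ) :
    r2ins i (F, t) (j + 2) = F j := by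
  funext q
  simp [r2ins]

private theorem r2_pre_ins {i : ℕ} {e e' p : Bool} (F : ℕ → ℕ → ℚ) (t : ℚ) :
    Pre [.X i e p, .X i e' p] (r2ins i (F, t)) := by
  have e2 : r2ins i (F, t) 2 = F 0 := r2ins_succ i F t 0
  refine ⟨?_, ?_, trivial⟩
  · intro q hq
    rw [r2ins_zero, r2ins_one_ne i F t q hq]
  · intro q hq
    change r2ins i (F, t) 2 q = r2ins i (F, t) 1 q
    rw [e2, r2ins_one_ne i F t q hq]

private theorem r2_up (σ : Bool) (i : ℕ) (e p : Bool) :
    LT σ [] [.X i e p, .X i (!e) p] 1 := by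
  intro M _ _ _ T q K hK hq hinj hpre hpos
  refine ⟨M × ℚ, inferInstance, inferInstance, inferInstance,
    LinearMap.fst ℚ M ℚ, (r2ins i).comp (T.prodMap LinearMap.id), ?_, ?_, ?_, ?_, ?_, ?_⟩
  · rintro ⟨m, t⟩
    exact r2_pre_ins (T m) t
  · rintro ⟨m, t⟩
    exact r2ins_zero i (T m) t
  · rintro ⟨m, t⟩ j
    exact r2ins_succ i (T m) t j
  · rintro ⟨m, t⟩ hm hT
    have hT' : r2ins i (T m, t) = 0 := hT
    have ht : t = 0 := by
      rw [← r2ins_one i (T m) t, hT']
      rfl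
    have hm0 : m = 0 := by
      apply hinj m hm
      funext j
      rw [← r2ins_succ i (T m) t j, hT']
      rfl
    rw [ht, hm0]
    rfl
  · rintro ⟨m, t⟩
    have h := hpos m
    have h1 : Qf [] (T m) = 0 := rfl
    rw [h1, mul_zero, add_zero] at h
    change 0 ≤ q m + sg σ * Qf _ (r2ins i (T m, t))
    have e2 : r2ins i (T m, t) 2 = T m 0 := r2ins_succ i (T m) t 0
    rw [r2_qf (r2_pre_ins (T m) t), r2ins_zero, e2, sub_self]
    simpa using h
  · rw [Module.finrank_prod, Module.finrank_self]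
    push_cast
    exact le_rfl

theorem LT_r2 (σ : Bool) (i : ℕ) (e p : Bool) :
    LT σ [.X i e p, .X i (!e) p] [] (-1) ∧ LT σ [] [.X i e p, .X i (!e) p] 1 :=
  ⟨r2_down σ i e p, r2_up σ i e p⟩

end FPS
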