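import Mathlib
import Pool.Agent.H61.RP.Base

/-!
MODULE LR3 (about 100 lines).  Third Reidemeister move.
`x = [X i a p, X (i+1) b q, X i c r]`, `y = [X (i+1) c r, X i b q, X (i+1) a p]`, valid signs
(`a = b ∨ b = c`) and parity `xor (xor p q) r = true`.

Let the bottom level have `a0 a1 a2 a3` in the slots `i..i+3` and the top level `a0 b1 b2 a3`.
Levels for `x`: `(a0,a1,a2,a3) → (a0,t,a2,a3) → (a0,t,b2,a3) → (a0,b1,b2,a3)`; levels for `y`:
`(a0,a1,a2,a3) → (a0,a1,t',a3) → (a0,b1,t',a3) → (a0,b1,b2,a3)`.  One of the four linear substitutions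

  (1) t' = t + (-a0 + a1 + a3 - b2)
  (2) t' = t + (-a0 - a2 + a3 + b1)
  (3) t' = t + (a1 - a2 + b1 - b2)
  (4) t' = (a0 + a1 + a2 + a3 + b1 + b2) / 2 - t

makes the two quadratic forms equal identically.  Which one, for `(s1,s2,s3)` the orientations,
i.e. for `(p,q,r)`, and `(a,b,c)` (1 = true, checked by computer for all 48 cases):
  p q r = 1 1 1:  (a,b,c) = 111, 000 → (4);  110, 001 → (1);  100, 011 → (2)
  p q r = 1 0 0:  111, 000 → (2);  110, 001 → (3);  100, 011 → (4)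
  p q r = 0 1 0:  111, 000 → (3);  110, 001 → (2);  100, 011 → (1)
  p q r = 0 0 1:  111, 000 → (1);  110, 001 → (4);  100, 011 → (3)
(there `p` belongs to the strands 1,2, `q` to 1,3, `r` to 2,3.)  All four substitutions are invertible.

Suggested proof: a lemma (for all a b c p q r with the hypotheses there are rationals κ (1 or -1) and
coefficients c0..c5 with: for all labels, the form of `x` at `t` equals the form of `y` at
`t' = κ t + c0 a0 + c1 a1 + ...`), by cases on the six Booleans and `ring` (after `simp [wt, qq, eps]`);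
then `LT_iso` with the linear map that changes the two interior levels:
`φ F = (F 0, F 0 with slot i+2 := t', F 3 with slot i+2 := t', F 3, ...)`, where `t = F 1 (i+1)`; and the same
for the inverse substitution (backward direction `t = κ (t' - ...)`).  Injectivity: `t` is recovered from
`t'` and the outer levels; the other slots of the interior levels are slots of the outer levels.
-/

namespace FPS

open Letter

/-- Contribution of a crossing, in terms of its four labels (left, below, right, above). -/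
def R3W (e p : Bool) (l m r t : ℚ) : ℚ :=
  if p then eps e true * qq l r t m else eps e false * qq t m l r

theorem R3wt (i : ℕ) (e p : Bool) (f g : ℕ → ℚ) :
    wt (.X i e p) f g = R3W e p (f i) (f (i + 1)) (f (i + 2)) (g (i + 1)) := by
  cases p <;> simp [wt, R3W]

/-- The form of the left-hand side of the third move. -/
def R3x (a b c p q r : Bool) (a0 a1 a2 a3 t b1 b2 : ℚ) : ℚ :=
  R3W a p a0 a1 a2 t + R3W b q t a2 a3 b2 + R3W c r a0 t b2 b1

/-- The form of the right-hand side of the third move. -/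
def R3y (a b c p q r : Bool) (a0 a1 a2 a3 t b1 b2 : ℚ) : ℚ :=
  R3W c r a1 a2 a3 t + R3W b q a0 a1 t b1 + R3W a p b1 t a3 b2

theorem R3key (a b c p q r : Bool) (h : a = b ∨ b = c) (hp : xor (xor p q) r = true) :
    ∃ κ c0 c1 c2 c3 d1 d2 : ℚ, κ * κ = 1 ∧ ∀ a0 a1 a2 a3 t b1 b2 : ℚ,
      R3y a b c p q r a0 a1 a2 a3
        (κ * t + c0 * a0 + c1 * a1 + c2 * a2 + c3 * a3 + d1 * b1 + d2 * b2) b1 b2 =
      R3x a b c p q r a0 a1 a2 a3 t b1 b2 := by
  revert h hp
  cases a <;> cases b <;> cases c <;> cases p <;> cases q <;> cases r <;> intro h hp <;>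
    first
    | (exfalso; revert h; decide)
    | (exfalso; revert hp; decide)
    | (refine ⟨1, -1, 1, 0, 1, 0, -1, by norm_num, fun a0 a1 a2 a3 t b1 b2 => ?_⟩
       simp only [R3y, R3x, R3W, eps, qq, if_true, if_false, Bool.false_eq_true, Bool.true_eq_false]
       ring1)
    | (refine ⟨1, -1, 0, -1, 1, 1, 0, by norm_num, fun a0 a1 a2 a3 t b1 b2 => ?_⟩
       simp only [R3y, R3x, R3W, eps, qq, if_true, if_false, Bool.false_eq_true, Bool.true_eq_false]
       ring1)
    | (refine ⟨1, 0, 1, -1, 0, 1, -1, by norm_num, fun a0 a1 a2 a3 t b1 b2 => ?_⟩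
       simp only [R3y, R3x, R3W, eps, qq, if_true, if_false, Bool.false_eq_true, Bool.true_eq_false]
       ring1)
    | (refine ⟨-1, 1 / 2, 1 / 2, 1 / 2, 1 / 2, 1 / 2, 1 / 2, by norm_num,
         fun a0 a1 a2 a3 t b1 b2 => ?_⟩
       simp only [R3y, R3x, R3W, eps, qq, if_true, if_false, Bool.false_eq_true, Bool.true_eq_false]
       ring1)

/-- The linear functional giving the new interior label. -/
def R3l (i s : ℕ) (κ c0 c1 c2 c3 d1 d2 : ℚ) : (ℕ → ℕ → ℚ) →ₗ[ℚ] ℚ where
  toFun F := κ * F 1 s + c0 * F 0 i + c1 * F 0 (i + 1) + c2 * F 0 (i + 2) + c3 * F 0 (i + 3) +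
    d1 * F 3 (i + 1) + d2 * F 3 (i + 2)
  map_add' F G := by simp only [Pi.add_apply]; ring
  map_smul' c F := by simp only [Pi.smul_apply, smul_eq_mul, RingHom.id_apply]; ring

theorem R3l_apply (i s : ℕ) (κ c0 c1 c2 c3 d1 d2 : ℚ) (F : ℕ → ℕ → ℚ) :
    R3l i s κ c0 c1 c2 c3 d1 d2 F = κ * F 1 s + c0 * F 0 i + c1 * F 0 (i + 1) +
      c2 * F 0 (i + 2) + c3 * F 0 (i + 3) + d1 * F 3 (i + 1) + d2 * F 3 (i + 2) := rfl

/-- The change of the two interior levels. -/
def R3phi (s' : ℕ) (ℓ : (ℕ → ℕ → ℚ) →ₗ[ℚ] ℚ) : (ℕ → ℕ → ℚ) →ₗ[ℚ] (ℕ → ℕ → ℚ) where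
  toFun F := fun j q =>
    if j = 1 then (if q = s' then ℓ F else F 0 q)
    else if j = 2 then (if q = s' then ℓ F else F 3 q) else F j q
  map_add' F G := by
    funext j q
    simp only [Pi.add_apply, map_add]
    split_ifs <;> rfl
  map_smul' c F := by
    funext j q
    simp only [Pi.smul_apply, map_smul, RingHom.id_apply]
    split_ifs <;> rfl

theorem R3phi_apply (s' : ℕ) (ℓ : (ℕ → ℕ → ℚ) →ₗ[ℚ] ℚ) (F : ℕ → ℕ → ℚ) (j q : ℕ) :
    R3phi s' ℓ F j q = if j = 1 then (if q = s' then ℓ F else F 0 q)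
    else if j = 2 then (if q = s' then ℓ F else F 3 q) else F j q := rfl

/-- The general step: both words are made of three crossings with middle slots `s, s', s` and
`s', s, s'`. -/
theorem R3gen (σ : Bool) (x y : List Letter) (hx : x.length = 3) (hy : y.length = 3) (i s s' : ℕ)
    (κ c0 c1 c2 c3 d1 d2 : ℚ) (hκ : κ * κ = 1)
    (hPx : ∀ F : ℕ → ℕ → ℚ, Pre x F ↔ (∀ q, q ≠ s → F 1 q = F 0 q) ∧
      (∀ q, q ≠ s' → F 2 q = F 1 q) ∧ (∀ q, q ≠ s → F 3 q = F 2 q))
    (hPy : ∀ F : ℕ → ℕ → ℚ, Pre y F ↔ (∀ q, q ≠ s' → F 1 q = F 0 q) ∧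
      (∀ q, q ≠ s → F 2 q = F 1 q) ∧ (∀ q, q ≠ s' → F 3 q = F 2 q))
    (hss : s ≠ s')
    (hQ : ∀ F : ℕ → ℕ → ℚ, Pre x F →
      Qf y (R3phi s' (R3l i s κ c0 c1 c2 c3 d1 d2) F) = Qf x F) :
    LT σ x y 0 := by
  refine LT_iso σ x y (R3phi s' (R3l i s κ c0 c1 c2 c3 d1 d2)) ?_ ?_ ?_
  · intro F
    funext q
    rw [R3phi_apply]
    simp
  · intro F j
    funext q
    rw [R3phi_apply, hx, hy, if_neg (by omega), if_neg (by omega)]
  · intro F hF
    refine ⟨?_, hQ F hF, ?_⟩
    · obtain ⟨h1, h2, h3⟩ := (hPx F).1 hF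
      rw [hPy]
      refine ⟨?_, ?_, ?_⟩
      · intro q hq
        simp [R3phi_apply, hq]
      · intro q hq
        by_cases hq' : q = s'
        · simp [R3phi_apply, hq']
        · simp only [R3phi_apply, hq', if_false, if_true]
          norm_num
          rw [h3 q hq, h2 q hq', h1 q hq]
      · intro q hq
        simp [R3phi_apply, hq]
    · intro h0
      obtain ⟨h1, h2, h3⟩ := (hPx F).1 hF
      have e0 : ∀ j q, j ≠ 1 → j ≠ 2 → F j q = 0 := by
        intro j q hj1 hj2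
        have := congrFun (congrFun h0 j) q
        rw [R3phi_apply, if_neg hj1, if_neg hj2] at this
        exact this
      have e1 : R3l i s κ c0 c1 c2 c3 d1 d2 F = 0 := by
        have := congrFun (congrFun h0 1) s'
        rw [R3phi_apply, if_pos rfl, if_pos rfl] at this
        exact this
      rw [R3l_apply] at e1
      have e00 : ∀ q, F 0 q = 0 := fun q => e0 0 q (by norm_num) (by norm_num)
      have e03 : ∀ q, F 3 q = 0 := fun q => e0 3 q (by norm_num) (by norm_num)
      simp only [e00, e03, mul_zero, add_zero] at e1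
      have e2 : F 1 s = 0 := by
        have : κ * (κ * F 1 s) = 0 := by rw [e1, mul_zero]
        rw [← mul_assoc, hκ, one_mul] at this
        exact this
      have e3 : ∀ q, F 1 q = 0 := by
        intro q
        by_cases hq : q = s
        · rw [hq]; exact e2
        · rw [h1 q hq]; exact e00 q
      have e4 : ∀ q, F 2 q = 0 := by
        intro q
        by_cases hq : q = s
        · rw [h2 q (by rw [hq]; exact hss)]
          exact e3 q
        · rw [← h3 q hq]
          exact e03 q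
      funext j q
      by_cases hj1 : j = 1
      · rw [hj1]; exact e3 q
      · by_cases hj2 : j = 2
        · rw [hj2]; exact e4 q
        · exact e0 j q hj1 hj2

theorem R3Pre (i j k : ℕ) (a b c p q r : Bool) (F : ℕ → ℕ → ℚ) :
    Pre [.X i a p, .X j b q, .X k c r] F ↔ (∀ q, q ≠ i + 1 → F 1 q = F 0 q) ∧
      (∀ q, q ≠ j + 1 → F 2 q = F 1 q) ∧ (∀ q, q ≠ k + 1 → F 3 q = F 2 q) := by
  simp [Pre, Rel]

theorem LT_r3 (σ : Bool) (i : ℕ) (a b c p q r : Bool) (h : a = b ∨ b = c)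
    (hp : xor (xor p q) r = true) :
    LT σ [.X i a p, .X (i + 1) b q, .X i c r] [.X (i + 1) c r, .X i b q, .X (i + 1) a p] 0 ∧
    LT σ [.X (i + 1) c r, .X i b q, .X (i + 1) a p] [.X i a p, .X (i + 1) b q, .X i c r] 0 := by
  obtain ⟨κ, c0, c1, c2, c3, d1, d2, hκ, hkey⟩ := R3key a b c p q r h hp
  constructor
  · refine R3gen σ _ _ rfl rfl i (i + 1) (i + 2) κ c0 c1 c2 c3 d1 d2 hκ ?_ ?_ (by omega) ?_
    · exact fun F => R3Pre i (i + 1) i a b c p q r F
    · exact fun F => R3Pre (i + 1) i (i + 1) c b a r q p F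
    · intro F hF
      obtain ⟨h1, h2, h3⟩ := (R3Pre i (i + 1) i a b c p q r F).1 hF
      have k := hkey (F 0 i) (F 0 (i + 1)) (F 0 (i + 2)) (F 0 (i + 3)) (F 1 (i + 1)) (F 3 (i + 1))
        (F 3 (i + 2))
      simp only [Qf, R3wt, R3phi_apply, R3l_apply]
      unfold R3x R3y at k
      have f1 : F 1 (i + 2) = F 0 (i + 2) := h1 _ (by omega)
      have f2 : F 1 (i + 3) = F 0 (i + 3) := h1 _ (by omega)
      have f3 : F 2 i = F 0 i := by rw [h2 _ (by omega), h1 _ (by omega)]
      have f4 : F 2 (i + 1) = F 1 (i + 1) := h2 _ (by omega)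
      have f5 : F 2 (i + 2) = F 3 (i + 2) := (h3 _ (by omega)).symm
      have f6 : F 3 i = F 0 i := by rw [h3 _ (by omega), f3]
      have f7 : F 3 (i + 3) = F 0 (i + 3) := by rw [h3 _ (by omega), h2 _ (by omega), f2]
      norm_num [add_assoc, f1, f2, f3, f4, f5, f6, f7] at k ⊢
      exact k
  · refine R3gen σ _ _ rfl rfl i (i + 2) (i + 1) κ (-κ * c0) (-κ * c1) (-κ * c2) (-κ * c3)
      (-κ * d1) (-κ * d2) hκ ?_ ?_ (by omega) ?_
    · exact fun F => R3Pre (i + 1) i (i + 1) c b a r q p F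
    · exact fun F => R3Pre i (i + 1) i a b c p q r F
    · intro F hF
      obtain ⟨h1, h2, h3⟩ := (R3Pre (i + 1) i (i + 1) c b a r q p F).1 hF
      have k := hkey (F 0 i) (F 0 (i + 1)) (F 0 (i + 2)) (F 0 (i + 3))
        (κ * F 1 (i + 2) + (-κ * c0) * F 0 i + (-κ * c1) * F 0 (i + 1) +
          (-κ * c2) * F 0 (i + 2) + (-κ * c3) * F 0 (i + 3) + (-κ * d1) * F 3 (i + 1) +
          (-κ * d2) * F 3 (i + 2)) (F 3 (i + 1)) (F 3 (i + 2))
      have ht : κ * (κ * F 1 (i + 2) + (-κ * c0) * F 0 i + (-κ * c1) * F 0 (i + 1) +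
          (-κ * c2) * F 0 (i + 2) + (-κ * c3) * F 0 (i + 3) + (-κ * d1) * F 3 (i + 1) +
          (-κ * d2) * F 3 (i + 2)) + c0 * F 0 i + c1 * F 0 (i + 1) + c2 * F 0 (i + 2) +
          c3 * F 0 (i + 3) + d1 * F 3 (i + 1) + d2 * F 3 (i + 2) = F 1 (i + 2) := by
        linear_combination (F 1 (i + 2) - c0 * F 0 i - c1 * F 0 (i + 1) - c2 * F 0 (i + 2) -
          c3 * F 0 (i + 3) - d1 * F 3 (i + 1) - d2 * F 3 (i + 2)) * hκ
      rw [ht] at k
      simp only [Qf, R3wt, R3phi_apply, R3l_apply]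
      unfold R3x R3y at k
      have f1 : F 1 (i + 1) = F 0 (i + 1) := h1 _ (by omega)
      have f2 : F 1 (i + 3) = F 0 (i + 3) := h1 _ (by omega)
      have f3 : F 1 i = F 0 i := h1 _ (by omega)
      have f4 : F 2 i = F 0 i := by rw [h2 _ (by omega), f3]
      have f5 : F 2 (i + 2) = F 1 (i + 2) := h2 _ (by omega)
      have f6 : F 2 (i + 1) = F 3 (i + 1) := (h3 _ (by omega)).symm
      have f7 : F 2 (i + 3) = F 0 (i + 3) := by rw [h2 _ (by omega), f2]
      have f8 : F 3 i = F 0 i := by rw [h3 _ (by omega), f4]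
      have f9 : F 3 (i + 3) = F 0 (i + 3) := by rw [h3 _ (by omega), f7]
      norm_num [add_assoc, f1, f2, f3, f4, f5, f6, f7, f8, f9] at k ⊢
      exact k.symm

end FPS
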