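import Mathlib
import Pool.Agent.H61.RP.Base

/-!
MODULE LTurn (about 120 lines).  Crossings turned at a minimum or a maximum.  `LT_iso` four times.
`turnU`: `x = [cup i o, X (i+1) e p]`, `y = [cup (i+1) o, X i (!e) (!p)]`.  Let `f` be the bottom level,
`a = f i`, `b = f (i+1)`.  For `x`: level 1 is `(.., a, c, a, b, ..)` in the slots `i, i+1, i+2, i+3`,
level 2 is `(.., a, c, d, b, ..)`.  For `y`: level 1 is `(.., a, b, d, b, ..)`, level 2 the same
`(.., a, c, d, b, ..)`.  So `φ F = (F 0, g', F 2, ...)` with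
`g' q = if q ≤ i + 1 then F 0 q else if q = i + 2 then F 2 (i+2) else F 0 (q - 2)`, and back
`g q = if q ≤ i then F 0 q else if q = i + 1 then F 2 (i+1) else F 0 (q - 2)`.
Weights: for `x` the crossing has left `c`, right `b`, bottom `a`, top `d`; for `y` left `a`, right `d`,
bottom `b`, top `c`.  If `p = true`: `eps e true * qq c b d a` against `eps (!e) false * qq c b a d`
(same: `eps (!e) (!p) = eps e p`, and `qq` is symmetric in its last two and in its first two
arguments).  If `p = false`: `eps e false * qq d a c b` against `eps (!e) true * qq a d c b`. Same.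
`turnA`: `x = [X (i+1) e p, cap i]`, `y = [X i (!e) (!p), cap (i+1)]`.  The bottom level is
`(.., a, c, d, b, ..)` in the slots `i..i+3`, the top level `(.., a, b, ..)` in the slots `i, i+1`.  For `x`:
level 1 is `(.., a, c, a, b, ..)` (the new label of slot `i+2` is `a` because of the cap), for `y`:
level 1 is `(.., a, b, d, b, ..)`.  So forward `g' q = if q = i + 1 then F 2 (i+1) else F 0 q`
(or `F 0 (i+3)` at `q = i+1`), backward `g q = if q = i + 2 then F 0 i else F 0 q`.
-/

namespace FPS

open Letter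

/-- Replacing the middle level of a labelling. -/
private def turnMap (r : ℕ → ℕ × ℕ) : (ℕ → ℕ → ℚ) →ₗ[ℚ] (ℕ → ℕ → ℚ) where
  toFun F := fun j q => if j = 1 then F (r q).1 (r q).2 else F j q
  map_add' a b := by
    funext j q
    by_cases h : j = 1 <;> simp [h]
  map_smul' a b := by
    funext j q
    by_cases h : j = 1 <;> simp [h]

private theorem turnMap_one (r : ℕ → ℕ × ℕ) (F : ℕ → ℕ → ℚ) (q : ℕ) :
    turnMap r F 1 q = F (r q).1 (r q).2 := rfl

private theorem turnMap_ne (r : ℕ → ℕ × ℕ) (F : ℕ → ℕ → ℚ) (j : ℕ) (hj : j ≠ 1) :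
    turnMap r F j = F j := by
  funext q
  change (if j = 1 then F (r q).1 (r q).2 else F j q) = F j q
  rw [if_neg hj]

private theorem LT_mid (σ : Bool) (a b a' b' : Letter) (r : ℕ → ℕ × ℕ)
    (h : ∀ (F : ℕ → ℕ → ℚ) (g' : ℕ → ℚ), (∀ q, g' q = F (r q).1 (r q).2) →
      Rel a (F 0) (F 1) → Rel b (F 1) (F 2) →
      Rel a' (F 0) g' ∧ Rel b' g' (F 2) ∧
      wt a' (F 0) g' + wt b' g' (F 2) = wt a (F 0) (F 1) + wt b (F 1) (F 2) ∧
      (F 0 = 0 → F 2 = 0 → F 1 = 0)) : LT σ [a, b] [a', b'] 0 := by
  apply LT_iso σ [a, b] [a', b'] (turnMap r)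
  · intro F
    exact turnMap_ne r F 0 (by omega)
  · intro F j
    exact turnMap_ne r F (j + 2) (by omega)
  · rintro F ⟨h1, h2, -⟩
    obtain ⟨k1, k2, k3, k4⟩ := h F (turnMap r F 1) (fun q => turnMap_one r F q) h1 h2
    have e0 : turnMap r F 0 = F 0 := turnMap_ne r F 0 (by omega)
    have e2 : turnMap r F 2 = F 2 := turnMap_ne r F 2 (by omega)
    refine ⟨⟨?_, ?_, trivial⟩, ?_, ?_⟩
    · rw [e0]
      exact k1
    · change Rel b' (turnMap r F 1) (turnMap r F 2)
      rw [e2]
      exact k2
    · change wt a' (turnMap r F 0) (turnMap r F 1) +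
        (wt b' (turnMap r F 1) (turnMap r F 2) + 0) =
        wt a (F 0) (F 1) + (wt b (F 1) (F 2) + 0)
      rw [e0, e2, add_zero, add_zero]
      exact k3
    · intro hz
      have z0 : F 0 = 0 := by rw [← e0, hz]; rfl
      have z2 : F 2 = 0 := by rw [← e2, hz]; rfl
      have z1 := k4 z0 z2
      funext j
      by_cases hj : j = 1
      · subst hj
        exact z1
      · rw [← turnMap_ne r F j hj, hz]

private theorem turn_eps (e p : Bool) : eps (!e) (!p) = eps e p := by
  cases e <;> cases p <;> rfl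

private theorem turn_qq1 (a b c d : ℚ) : qq a b c d = qq a b d c := by
  unfold qq; ring

private theorem turn_qq2 (a b c d : ℚ) : qq a b c d = qq b a c d := by
  unfold qq; ring

theorem LT_turnU (σ : Bool) (i : ℕ) (o e p : Bool) :
    LT σ [.cup i o, .X (i + 1) e p] [.cup (i + 1) o, .X i (!e) (!p)] 0 ∧
    LT σ [.cup (i + 1) o, .X i (!e) (!p)] [.cup i o, .X (i + 1) e p] 0 := by
  constructor
  · apply LT_mid σ _ _ _ _
      (fun q => if q ≤ i + 1 then (0, q) else if q = i + 2 then (2, i + 2) else (0, q - 2))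
    rintro F g' hg ⟨a1, a2⟩ b1
    have b1' : ∀ q, q ≠ i + 2 → F 2 q = F 1 q := b1
    have hA : ∀ q, q ≤ i + 1 → g' q = F 0 q := by
      intro q hq
      rw [hg, if_pos hq]
    have hB : g' (i + 2) = F 2 (i + 2) := by
      rw [hg, if_neg (by omega), if_pos rfl]
    have hC : ∀ q, i + 1 ≤ q → g' (q + 2) = F 0 q := by
      intro q hq
      rw [hg, if_neg (by omega), if_neg (by omega)]
      rfl
    refine ⟨⟨hA, hC⟩, ?_, ?_, ?_⟩
    · intro q hq
      rcases Nat.lt_or_ge (i + 2) q with h | h
      · have e1 := b1' q (by omega)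
        have e2 := a2 (q - 2) (by omega)
        have e3 := hC (q - 2) (by omega)
        rw [show q - 2 + 2 = q by omega] at e2 e3
        rw [e1, e2, e3]
      · rcases Nat.lt_or_ge (i + 1) q with h' | h'
        · obtain rfl : q = i + 2 := by omega
          rw [hB]
        · have hq' : q ≤ i := by omega
          rw [b1' q (by omega), a1 q hq', hA q h']
    · have t1 : F 1 (i + 1) = F 2 (i + 1) := (b1' (i + 1) (by omega)).symm
      have t2 : F 1 (i + 1 + 2) = F 0 (i + 1) := a2 (i + 1) (by omega)
      have t3 : F 1 (i + 1 + 1) = F 0 i := a2 i le_rfl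
      have t4 : g' (i + 1) = F 0 (i + 1) := hA (i + 1) le_rfl
      have t5 : g' i = F 0 i := hA i (by omega)
      cases p
      · simp only [wt, Bool.not_false, t1, t2, t3, t4, t5, hB, zero_add]
        rw [turn_qq2 (F 2 (i + 1 + 1)), ← turn_eps e false]
        rfl
      · simp only [wt, Bool.not_true, t1, t2, t3, t4, t5, hB, zero_add]
        rw [turn_qq1 _ _ (F 2 (i + 1 + 1)), ← turn_eps e true]
        rfl
    · intro z0 z2
      funext q
      rcases Nat.lt_or_ge (i + 1) q with h | h
      · have e2 := a2 (q - 2) (by omega)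
        rw [show q - 2 + 2 = q by omega, z0] at e2
        exact e2
      · rcases Nat.lt_or_ge i q with h' | h'
        · rw [← b1' q (by omega), z2]
        · rw [a1 q h', z0]
  · apply LT_mid σ _ _ _ _
      (fun q => if q ≤ i then (0, q) else if q = i + 1 then (2, i + 1) else (0, q - 2))
    rintro F g' hg ⟨a1, a2⟩ b1
    have b1' : ∀ q, q ≠ i + 1 → F 2 q = F 1 q := b1
    have hA : ∀ q, q ≤ i → g' q = F 0 q := by
      intro q hq
      rw [hg, if_pos hq]
    have hB : g' (i + 1) = F 2 (i + 1) := by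
      rw [hg, if_neg (by omega), if_pos rfl]
    have hC : ∀ q, i ≤ q → g' (q + 2) = F 0 q := by
      intro q hq
      rw [hg, if_neg (by omega), if_neg (by omega)]
      rfl
    refine ⟨⟨hA, hC⟩, ?_, ?_, ?_⟩
    · intro q hq
      rcases Nat.lt_or_ge (i + 2) q with h | h
      · have e1 := b1' q (by omega)
        have e2 := a2 (q - 2) (by omega)
        have e3 := hC (q - 2) (by omega)
        rw [show q - 2 + 2 = q by omega] at e2 e3
        rw [e1, e2, e3]
      · rcases Nat.lt_or_ge i q with h' | h'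
        · obtain rfl : q = i + 1 := by omega
          rw [hB]
        · rw [b1' q (by omega), a1 q (by omega), hA q h']
    · have t1 : F 1 (i + 2) = F 2 (i + 2) := (b1' (i + 2) (by omega)).symm
      have t2 : g' (i + 1 + 2) = F 0 (i + 1) := hC (i + 1) (by omega)
      have t3 : g' (i + 1 + 1) = F 0 i := hC i le_rfl
      have t4 : F 1 (i + 1) = F 0 (i + 1) := a1 (i + 1) le_rfl
      have t5 : F 1 i = F 0 i := a1 i (by omega)
      cases p
      · simp only [wt, Bool.not_false, t1, t2, t3, t4, t5, hB, zero_add]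
        rw [turn_qq2 (F 2 (i + 1 + 1)), ← turn_eps e false]
        rfl
      · simp only [wt, Bool.not_true, t1, t2, t3, t4, t5, hB, zero_add]
        rw [turn_qq1 _ _ (F 2 (i + 1 + 1)), ← turn_eps e true]
        rfl
    · intro z0 z2
      funext q
      rcases Nat.lt_or_ge (i + 2) q with h | h
      · have e2 := a2 (q - 2) (by omega)
        rw [show q - 2 + 2 = q by omega, z0] at e2
        exact e2
      · rcases Nat.lt_or_ge (i + 1) q with h' | h'
        · rw [← b1' q (by omega), z2]
        · rw [a1 q h', z0]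

theorem LT_turnA (σ : Bool) (i : ℕ) (e p : Bool) :
    LT σ [.X (i + 1) e p, .cap i] [.X i (!e) (!p), .cap (i + 1)] 0 ∧
    LT σ [.X i (!e) (!p), .cap (i + 1)] [.X (i + 1) e p, .cap i] 0 := by
  constructor
  · apply LT_mid σ _ _ _ _ (fun q => if q = i + 1 then (2, i + 1) else (0, q))
    rintro F g' hg a1 ⟨b1, b2⟩
    have a1' : ∀ q, q ≠ i + 2 → F 1 q = F 0 q := a1
    have hA : ∀ q, q ≠ i + 1 → g' q = F 0 q := by
      intro q hq
      rw [hg, if_neg hq]
    have hB : g' (i + 1) = F 2 (i + 1) := by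
      rw [hg, if_pos rfl]
    refine ⟨hA, ⟨?_, ?_⟩, ?_, ?_⟩
    · intro q hq
      rcases Nat.lt_or_ge i q with h | h
      · obtain rfl : q = i + 1 := by omega
        rw [hB]
      · rw [b1 q h, a1' q (by omega), hA q (by omega)]
    · intro q hq
      rw [b2 q (by omega), a1' (q + 2) (by omega), hA (q + 2) (by omega)]
    · have t1 : F 1 (i + 1 + 1) = F 0 i :=
        ((b2 i le_rfl).symm.trans (b1 i le_rfl)).trans (a1' i (by omega))
      have t2 : F 2 (i + 1) = F 0 (i + 1 + 2) :=
        (b2 (i + 1) (by omega)).trans (a1' (i + 1 + 2) (by omega))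
      cases p
      · simp only [wt, Bool.not_false, t1, t2, hB, add_zero]
        rw [turn_qq1 _ _ (F 0 (i + 1 + 2)), ← turn_eps e false]
        rfl
      · simp only [wt, Bool.not_true, t1, t2, hB, add_zero]
        rw [turn_qq2 (F 0 (i + 1 + 2)), ← turn_eps e true]
        rfl
    · intro z0 z2
      funext q
      by_cases h : q = i + 2
      · subst h
        have := b2 i le_rfl
        rw [← this, z2]
        rfl
      · rw [a1' q h, z0]
  · apply LT_mid σ _ _ _ _ (fun q => if q = i + 2 then (0, i) else (0, q))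
    rintro F g' hg a1 ⟨b1, b2⟩
    have a1' : ∀ q, q ≠ i + 1 → F 1 q = F 0 q := a1
    have hA : ∀ q, q ≠ i + 2 → g' q = F 0 q := by
      intro q hq
      rw [hg, if_neg hq]
    have hB : g' (i + 2) = F 0 i := by
      rw [hg, if_pos rfl]
    refine ⟨hA, ⟨?_, ?_⟩, ?_, ?_⟩
    · intro q hq
      rw [b1 q (by omega), a1' q (by omega), hA q (by omega)]
    · intro q hq
      rcases Nat.lt_or_ge i q with h | h
      · rw [b2 q (by omega), a1' (q + 2) (by omega), hA (q + 2) (by omega)]
      · obtain rfl : q = i := by omega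
        rw [b1 q (by omega), a1' q (by omega), hB]
    · have t1 : F 1 (i + 1) = F 0 (i + 1 + 2) :=
        ((b1 (i + 1) le_rfl).symm.trans (b2 (i + 1) le_rfl)).trans (a1' (i + 1 + 2) (by omega))
      have hB' : g' (i + 1 + 1) = F 0 i := hB
      cases p
      · simp only [wt, Bool.not_false, t1, hB', add_zero]
        rw [turn_qq1 _ _ (F 0 (i + 1 + 2)), ← turn_eps e false]
        rfl
      · simp only [wt, Bool.not_true, t1, hB', add_zero]
        rw [turn_qq2 (F 0 (i + 1 + 2)), ← turn_eps e true]
        rfl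
    · intro z0 z2
      funext q
      by_cases h : q = i + 1
      · subst h
        have := b1 (i + 1) le_rfl
        rw [← this, z2]
      · rw [a1' q h, z0]

end FPS
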