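import Mathlib
import Pool.Agent.H61.RP.Base

/-!
MODULE LZig (about 90 lines).  Zigzags.  Four applications of `LT_iso`.
`zigR`: `F = (f, g, h, ...)` a labelling of `[cup i o, cap (i+1)]`: `g q = f q` (q ≤ i), `g (q+2) = f q`
(q ≥ i); `h q = g q` (q ≤ i+1), `h q = g (q+2)` (q ≥ i+1).  Hence `h = f` (`h (i+1) = g (i+1) = g (i+3) =
f (i+1)`).  Map to labellings of `[]`: `φ F j = if j = 0 then F 0 else F (j + 2)`;
injective since `h = f` and `g` is determined (`g (i+1) = f (i+1)`).  Condition `h1` of `LT_iso` at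
`j = 0` says `φ F 0 = F 2`: so define `φ F 0 = F 0` needs `F 0 = F 2`; since `LT_iso` asks `h0`, `h1`
for all `F`, this case (target `[]`) does not fit literally: use the version `LT_iso'` below, whose
conditions are only required for `F` with `Pre x F` (prove it like `LT_iso`).
Back: `ψ F = (F 0, g, F 0, F 1, F 2, ...)` with `g q = if q ≤ i + 1 then F 0 q else F 0 (q - 2)`.
`zigL`: `[cup (i+1) o, cap i]`: `g q = f q` (q ≤ i+1), `g (q+2) = f q` (q ≥ i+1); `h q = g q` (q ≤ i),
`h q = g (q+2)` (q ≥ i).  So `h i = g i = f i = g (i+2)`, `h q = g (q+2) = f q` (q ≥ i+1).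
Back: `g q = if q ≤ i + 1 then F 0 q else if q = i + 2 then F 0 i else F 0 (q - 2)`; since
`F 0 (q-2) = F 0 i` at `q = i+2`, simply `g q = if q ≤ i + 1 then F 0 q else F 0 (q - 2)` again.
-/

namespace FPS

open Letter

/-- As `LT_iso`, with the conditions on `φ` only for valid labellings. -/
theorem LT_iso' (σ : Bool) (x y : List Letter) (φ : (ℕ → ℕ → ℚ) →ₗ[ℚ] (ℕ → ℕ → ℚ))
    (h : ∀ F, Pre x F → φ F 0 = F 0 ∧ (∀ j, φ F (j + y.length) = F (j + x.length)) ∧
      Pre y (φ F) ∧ Qf y (φ F) = Qf x F ∧ (φ F = 0 → F = 0)) :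
    LT σ x y 0 := by
  intro M _ _ _ T q K hK hq hinj hpre hpos
  refine ⟨M, _, _, ‹_›, LinearMap.id, φ.comp T, ?_, ?_, ?_, ?_, ?_, ?_⟩
  · exact fun m => (h _ (hpre m)).2.2.1
  · exact fun m => (h _ (hpre m)).1
  · exact fun m j => (h _ (hpre m)).2.1 j
  · exact fun m hm h' => hinj m hm ((h _ (hpre m)).2.2.2.2 h')
  · intro m
    have := hpos m
    rw [← (h _ (hpre m)).2.2.2.1] at this
    exact this
  · simp

/-- Relabelling of a labelling. -/
private def zigMap (r : ℕ → ℕ → ℕ × ℕ) : (ℕ → ℕ → ℚ) →ₗ[ℚ] (ℕ → ℕ → ℚ) where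
  toFun F := fun j q => F (r j q).1 (r j q).2
  map_add' a b := by funext j q; simp
  map_smul' a b := by funext j q; simp

private theorem zigMap_apply (r : ℕ → ℕ → ℕ × ℕ) (F : ℕ → ℕ → ℚ) (j q : ℕ) :
    zigMap r F j q = F (r j q).1 (r j q).2 := rfl

/-- Common part of the forward direction: the word has two letters without weight, and the
levels `0` and `2` agree. -/
private theorem zig_fwd (σ : Bool) (x : List Letter) (hx : x.length = 2)
    (hQ : ∀ F, Qf x F = 0)
    (h02 : ∀ F : ℕ → ℕ → ℚ, Pre x F → F 2 = F 0)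
    (h1 : ∀ F : ℕ → ℕ → ℚ, Pre x F → F 0 = 0 → F 1 = 0) :
    LT σ x [] 0 := by
  apply LT_iso' σ x [] (zigMap (fun j q => (if j = 0 then 0 else j + 2, q)))
  intro F hF
  have e02 := h02 F hF
  refine ⟨?_, ?_, trivial, ?_, ?_⟩
  · funext q
    simp [zigMap_apply]
  · intro j
    funext q
    rw [zigMap_apply, hx]
    rcases Nat.eq_zero_or_pos j with h | h
    · subst h
      simp [e02]
    · simp only [List.length_nil, Nat.add_zero]
      rw [if_neg (by omega)]
  · rw [hQ]
    simp [Qf]
  · intro h
    have h0 : F 0 = 0 := by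
      funext q
      have := congrFun (congrFun h 0) q
      simpa [zigMap_apply] using this
    have h1' := h1 F hF h0
    funext j
    rcases Nat.lt_or_ge j 3 with hj | hj
    · have hj' : j = 0 ∨ j = 1 ∨ j = 2 := by omega
      rcases hj' with rfl | rfl | rfl
      · exact h0
      · exact h1'
      · rw [e02]; exact h0
    · funext q
      have := congrFun (congrFun h (j - 2)) q
      rw [zigMap_apply] at this
      simp only at this
      rw [if_neg (by omega), show j - 2 + 2 = j by omega] at this
      exact this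

/-- Common part of the backward direction. -/
private theorem zig_bwd (σ : Bool) (x : List Letter) (hx : x.length = 2)
    (hQ : ∀ F, Qf x F = 0) (i : ℕ)
    (hP : ∀ F : ℕ → ℕ → ℚ, (∀ q, q ≤ i + 1 → F 1 q = F 0 q) →
      (∀ q, i + 2 ≤ q → F 1 q = F 0 (q - 2)) → F 2 = F 0 → Pre x F) :
    LT σ [] x 0 := by
  apply LT_iso' σ [] x (zigMap (fun j q => (j - 2, if j = 1 then
    (if q ≤ i + 1 then q else q - 2) else q)))
  intro F _
  refine ⟨?_, ?_, ?_, ?_, ?_⟩
  · funext q
    simp [zigMap_apply]
  · intro j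
    funext q
    rw [zigMap_apply, hx]
    simp only [List.length_nil, Nat.add_zero]
    rw [if_neg (by omega), show j + 2 - 2 = j by omega]
  · apply hP
    · intro q hq
      rw [zigMap_apply, zigMap_apply]
      simp [hq]
    · intro q hq
      rw [zigMap_apply, zigMap_apply]
      simp only [if_true]
      rw [if_neg (by omega), if_neg (by omega)]
    · funext q
      rw [zigMap_apply, zigMap_apply]
      simp
  · rw [hQ]
    simp [Qf]
  · intro h
    funext j q
    have := congrFun (congrFun h (j + 2)) q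
    rw [zigMap_apply] at this
    simp only at this
    rw [if_neg (by omega), show j + 2 - 2 = j by omega] at this
    exact this

theorem LT_zigR (σ : Bool) (i : ℕ) (o : Bool) :
    LT σ [.cup i o, .cap (i + 1)] [] 0 ∧ LT σ [] [.cup i o, .cap (i + 1)] 0 := by
  constructor
  · apply zig_fwd
    · rfl
    · intro F
      simp [Qf, wt]
    · rintro F ⟨⟨a1, a2⟩, ⟨b1, b2⟩, -⟩
      simp only [zero_add] at a1 a2 b1 b2
      funext q
      rcases Nat.lt_or_ge i q with h | h
      · exact (b2 q (by omega)).trans (a2 q (by omega))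
      · exact (b1 q (by omega)).trans (a1 q h)
    · rintro F ⟨⟨a1, a2⟩, ⟨b1, b2⟩, -⟩ h0
      simp only [zero_add] at a1 a2 b1 b2
      funext q
      rcases Nat.lt_or_ge i q with h | h
      · rcases Nat.lt_or_ge (i + 1) q with h' | h'
        · have := a2 (q - 2) (by omega)
          rw [show q - 2 + 2 = q by omega, h0] at this
          exact this
        · obtain rfl : q = i + 1 := by omega
          have e1 := b1 (i + 1) le_rfl
          have e2 := b2 (i + 1) le_rfl
          have e3 := a2 (i + 1) (by omega)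
          change F 1 (i + 1) = 0
          have e1' : F 2 (i + 1) = F 1 (i + 1) := e1
          have e2' : F 2 (i + 1) = F 1 (i + 1 + 2) := e2
          rw [← e1', e2', e3, h0]
          rfl
      · rw [a1 q h, h0]
  · apply zig_bwd _ _ rfl _ i
    · intro F h1 h2 h3
      refine ⟨⟨fun q hq => h1 q (by omega), fun q hq => ?_⟩,
        ⟨fun q hq => ?_, fun q hq => ?_⟩, trivial⟩
      · have := h2 (q + 2) (by omega)
        exact this
      · change F 2 q = F 1 q
        rw [h3, h1 q hq]
      · change F 2 q = F 1 (q + 2)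
        rw [h3, h2 (q + 2) (by omega)]
        rfl
    · intro F
      simp [Qf, wt]

theorem LT_zigL (σ : Bool) (i : ℕ) (o : Bool) :
    LT σ [.cup (i + 1) o, .cap i] [] 0 ∧ LT σ [] [.cup (i + 1) o, .cap i] 0 := by
  constructor
  · apply zig_fwd
    · rfl
    · intro F
      simp [Qf, wt]
    · rintro F ⟨⟨a1, a2⟩, ⟨b1, b2⟩, -⟩
      simp only [zero_add] at a1 a2 b1 b2
      funext q
      rcases Nat.lt_or_ge i q with h | h
      · exact (b2 q (by omega)).trans (a2 q (by omega))
      · exact (b1 q (by omega)).trans (a1 q (by omega))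
    · rintro F ⟨⟨a1, a2⟩, ⟨b1, b2⟩, -⟩ h0
      simp only [zero_add] at a1 a2 b1 b2
      funext q
      rcases Nat.lt_or_ge (i + 1) q with h | h
      · rcases Nat.lt_or_ge (i + 2) q with h' | h'
        · have := a2 (q - 2) (by omega)
          rw [show q - 2 + 2 = q by omega, h0] at this
          exact this
        · obtain rfl : q = i + 2 := by omega
          have e1 : F 2 i = F 1 i := b1 i le_rfl
          have e2 : F 2 i = F 1 (i + 2) := b2 i le_rfl
          have e3 := a1 i (by omega)
          change F 1 (i + 2) = 0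
          rw [← e2, e1, e3, h0]
          rfl
      · rw [a1 q h, h0]
  · apply zig_bwd _ _ rfl _ i
    · intro F h1 h2 h3
      refine ⟨⟨fun q hq => h1 q hq, fun q hq => ?_⟩,
        ⟨fun q hq => ?_, fun q hq => ?_⟩, trivial⟩
      · have := h2 (q + 2) (by omega)
        exact this
      · change F 2 q = F 1 q
        rw [h3, h1 q (by omega)]
      · change F 2 q = F 1 (q + 2)
        rw [h3, h2 (q + 2) (by omega)]
        rfl
    · intro F
      simp [Qf, wt]

end FPS
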