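import Mathlib

/-!
MODULE LinD (about 80 lines).  Pure linear algebra.
Let `I = P ⊓ N`.  (1) For `x ∈ I`: `B x x = 0`, and `B x y = 0` for all `y ∈ P` (for all rational `t`:
`0 ≤ B (y + t x) (y + t x) = B y y + 2 t B x y`, so `B x y = 0`), similarly for `y ∈ N`; so `B x y = 0` for
`y ∈ P ⊔ N`.  (2) The radical `R = {x | ∀ y, B x y = 0}` has finrank ≤ 1: the map `V → (ι → ℚ)`,
`x ↦ (B x (a v))_v` is surjective, since the restriction to the combinations of the `a v` has the Gram
matrix, which is invertible; so its kernel has finrank `finrank V - card ι ≤ 1`, and `R` is contained in it.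
(3) The map `I → (P ⊔ N).dualAnnihilator`, `x ↦ B x`, has kernel inside `R`, so
`finrank I ≤ finrank (dualAnnihilator) + 1 = finrank V - finrank (P ⊔ N) + 1`
(`Subspace.finrank_add_finrank_dualAnnihilator_eq`).  (4) `finrank P + finrank N = finrank (P ⊔ N) + finrank I ≤
finrank V + 1 ≤ card ι + 2` (`Submodule.finrank_sup_add_finrank_inf_eq`).
-/

namespace FPS

private theorem linD_zero {V : Type} [AddCommGroup V] [Module ℚ V]
    (B : V →ₗ[ℚ] V →ₗ[ℚ] ℚ) (hsymm : ∀ x y, B x y = B y x) (P : Submodule ℚ V)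
    (hP : ∀ x ∈ P, 0 ≤ B x x) (x : V) (hx : x ∈ P) (hxx : B x x = 0) (y : V) (hy : y ∈ P) :
    B x y = 0 := by
  by_contra hc
  set c := B x y with hcdef
  set t : ℚ := -(B y y + 1) / (2 * c) with ht
  have h1 := hP (y + t • x) (P.add_mem hy (P.smul_mem t hx))
  have h2 : B (y + t • x) (y + t • x) = B y y + 2 * t * c := by
    simp only [map_add, map_smul, LinearMap.add_apply, LinearMap.smul_apply, smul_eq_mul]
    rw [hsymm y x, hxx, ← hcdef]
    ring
  rw [h2] at h1
  have h3 : 2 * t * c = -(B y y + 1) := by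
    rw [ht]
    field_simp
  linarith

private theorem linD_ker {V : Type} [AddCommGroup V] [Module ℚ V] [FiniteDimensional ℚ V]
    (B : V →ₗ[ℚ] V →ₗ[ℚ] ℚ) {ι : Type} [Fintype ι] [DecidableEq ι]
    (a : ι → V) (hdet : (Matrix.of fun v u => B (a v) (a u)).det ≠ 0)
    (hdim : Module.finrank ℚ V ≤ Fintype.card ι + 1) :
    Module.finrank ℚ (LinearMap.ker (LinearMap.pi (fun u => B.flip (a u)) : V →ₗ[ℚ] (ι → ℚ)))
      ≤ 1 := by
  set φ : V →ₗ[ℚ] (ι → ℚ) := LinearMap.pi (fun u => B.flip (a u)) with hφ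
  have hsurj : LinearMap.range φ = ⊤ := by
    rw [LinearMap.range_eq_top]
    intro z
    have hunit : IsUnit (Matrix.of fun v u => B (a v) (a u)) := by
      rw [Matrix.isUnit_iff_isUnit_det]
      exact isUnit_iff_ne_zero.2 hdet
    set M := (Matrix.of fun v u => B (a v) (a u)) with hM
    refine ⟨∑ v, (Matrix.vecMul z M⁻¹) v • a v, ?_⟩
    funext u
    have h1 : φ (∑ v, (Matrix.vecMul z M⁻¹) v • a v) u =
        Matrix.vecMul (Matrix.vecMul z M⁻¹) M u := by
      simp only [hφ, LinearMap.pi_apply, LinearMap.flip_apply, map_sum, map_smul, smul_eq_mul]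
      simp only [Matrix.vecMul, dotProduct, hM, Matrix.of_apply]
    rw [h1, Matrix.vecMul_vecMul, Matrix.nonsing_inv_mul _ ((Matrix.isUnit_iff_isUnit_det _).1 hunit),
      Matrix.vecMul_one]
  have h := LinearMap.finrank_range_add_finrank_ker φ
  rw [hsurj, finrank_top, Module.finrank_fintype_fun_eq_card] at h
  omega

theorem linD {V : Type} [AddCommGroup V] [Module ℚ V] [FiniteDimensional ℚ V]
    (B : V →ₗ[ℚ] V →ₗ[ℚ] ℚ) (hsymm : ∀ x y, B x y = B y x) {ι : Type} [Fintype ι] [DecidableEq ι]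
    (a : ι → V) (hdet : (Matrix.of fun v u => B (a v) (a u)).det ≠ 0)
    (hdim : Module.finrank ℚ V ≤ Fintype.card ι + 1) (P N : Submodule ℚ V)
    (hP : ∀ x ∈ P, 0 ≤ B x x) (hN : ∀ x ∈ N, B x x ≤ 0) :
    Module.finrank ℚ P + Module.finrank ℚ N ≤ Fintype.card ι + 2 := by
  have hI : ∀ x ∈ P ⊓ N, ∀ y ∈ P ⊔ N, B x y = 0 := by
    intro x hx y hy
    have hxP := (Submodule.mem_inf.1 hx).1
    have hxN := (Submodule.mem_inf.1 hx).2
    have hxx : B x x = 0 := le_antisymm (hN x hxN) (hP x hxP)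
    obtain ⟨p, hp, q, hq, rfl⟩ := Submodule.mem_sup.1 hy
    rw [map_add, linD_zero B hsymm P hP x hxP hxx p hp]
    have h2 := linD_zero (-B) (fun x y => by simp [hsymm x y]) N
      (fun z hz => by simpa using hN z hz) x hxN (by simp [hxx]) q hq
    simp only [LinearMap.neg_apply, neg_eq_zero] at h2
    rw [h2, add_zero]
  set W := P ⊔ N with hW
  let ψ : (P ⊓ N : Submodule ℚ V) →ₗ[ℚ] Module.Dual ℚ V := B.comp (P ⊓ N : Submodule ℚ V).subtype
  have hrange : LinearMap.range ψ ≤ W.dualAnnihilator := by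
    rintro _ ⟨x, rfl⟩
    rw [Submodule.mem_dualAnnihilator]
    intro y hy
    exact hI x.1 x.2 y hy
  have hr := Submodule.finrank_mono hrange
  have hkerle : (LinearMap.ker ψ).map (P ⊓ N : Submodule ℚ V).subtype ≤
      LinearMap.ker (LinearMap.pi (fun u => B.flip (a u)) : V →ₗ[ℚ] (ι → ℚ)) := by
    rintro _ ⟨x, hx, rfl⟩
    rw [LinearMap.mem_ker]
    funext u
    have hx' : ψ x = 0 := hx
    have : B x.1 (a u) = 0 := by
      have := congrArg (fun f => f (a u)) hx'
      simpa [ψ] using this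
    simpa using this
  have hk := Submodule.finrank_mono hkerle
  rw [Submodule.finrank_map_subtype_eq] at hk
  have hk1 := linD_ker B a hdet hdim
  have h1 := LinearMap.finrank_range_add_finrank_ker ψ
  have h2 := Subspace.finrank_add_finrank_dualAnnihilator_eq W
  have h3 := Submodule.finrank_sup_add_finrank_inf_eq P N
  rw [← hW] at h3
  omega

end FPS
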