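import Mathlib
import Pool.Agent.H61.RP.Kex

/-!
The ribbon movie for the lift of `Kex`.

The lift is cut along two bands (two saddle moves); the result is simplified by local moves and seam
rotations to three parallel core circles of the annulus, two of which are pulled over the pole and
removed.  Read backwards this is a movie from the unknot to the lift with 2 births and 2 saddles.
-/

namespace FPS

open Letter

/-- Codes of local moves. -/
inductive LC where
  | far (l₁ l₂ : Letter)
  | zigR (i : ℕ) (o : Bool)
  | zigL (i : ℕ) (o : Bool)
  | turnU (i : ℕ) (o e p : Bool)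
  | turnA (i : ℕ) (e p : Bool)
  | r1U (i : ℕ) (o e : Bool)
  | r1A (i : ℕ) (e : Bool)
  | r2 (i : ℕ) (e p : Bool)

/-- Left hand side. -/
def LC.lhs : LC → List Letter
  | .far l₁ l₂ => [l₂.shift l₁.inw, l₁]
  | .zigR i o => [.cup i o, .cap (i + 1)]
  | .zigL i o => [.cup (i + 1) o, .cap i]
  | .turnU i o e p => [.cup i o, .X (i + 1) e p]
  | .turnA i e p => [.X (i + 1) e p, .cap i]
  | .r1U i o e => [.cup i o, .X i e false]
  | .r1A i e => [.X i e false, .cap i]
  | .r2 i e p => [.X i e p, .X i (!e) p]

/-- Right hand side. -/
def LC.rhs : LC → List Letter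
  | .far l₁ l₂ => [l₁, l₂.shift l₁.outw]
  | .zigR _ _ => []
  | .zigL _ _ => []
  | .turnU i o e p => [.cup (i + 1) o, .X i (!e) (!p)]
  | .turnA i e p => [.X i (!e) (!p), .cap (i + 1)]
  | .r1U i o _ => [.cup i (!o)]
  | .r1A i _ => [.cap i]
  | .r2 _ _ _ => []

/-- Side condition. -/
def LC.ok : LC → Bool
  | .far l₁ l₂ => decide (l₁.pos ≤ l₂.pos)
  | _ => true

theorem LC.loc (c : LC) (h : c.ok = true) : Loc c.lhs c.rhs := by
  cases c with
  | far l₁ l₂ => exact Loc.far l₁ l₂ (of_decide_eq_true h)
  | zigR i o => exact Loc.zigR i o
  | zigL i o => exact Loc.zigL i o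
  | turnU i o e p => exact Loc.turnU i o e p
  | turnA i e p => exact Loc.turnA i e p
  | r1U i o e => exact Loc.r1U i o e
  | r1A i e => exact Loc.r1A i e
  | r2 i e p => exact Loc.r2 i e p

/-- Commands. -/
inductive Cmd where
  | loc (p : ℕ) (rev : Bool) (c : LC)
  | rot
  | sad (p i : ℕ) (o : Bool)

/-- Replace `x` by `y` at place `p`. -/
def repl (D : Dg) (p : ℕ) (x y : List Letter) : Option Dg :=
  if D.w = D.w.take p ++ x ++ D.w.drop (p + x.length) ∧
      run D.s (D.w.take p ++ x) = run D.s (D.w.take p ++ y) then
    some ⟨D.s, D.w.take p ++ y ++ D.w.drop (p + x.length)⟩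
  else none

theorem repl_subst {R : List Letter → List Letter → Prop} {D D' : Dg} {p : ℕ} {x y : List Letter}
    (hR : R x y) (h : repl D p x y = some D') : Subst R D D' := by
  unfold repl at h
  split_ifs at h with hc
  obtain ⟨h1, h2⟩ := hc
  simp only [Option.some.injEq] at h
  refine ⟨D.s, D.w.take p, x, y, D.w.drop (p + x.length), ?_, h.symm, hR, h2⟩
  cases D with
  | mk s w =>
    simp only [Dg.mk.injEq, true_and]
    exact h1

theorem repl_subst' {R : List Letter → List Letter → Prop} {D D' : Dg} {p : ℕ} {x y : List Letter}
    (hR : R y x) (h : repl D p x y = some D') : Subst R D' D := by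
  unfold repl at h
  split_ifs at h with hc
  obtain ⟨h1, h2⟩ := hc
  simp only [Option.some.injEq] at h
  refine ⟨D.s, D.w.take p, y, x, D.w.drop (p + x.length), h.symm, ?_, hR, h2.symm⟩
  cases D with
  | mk s w =>
    simp only [Dg.mk.injEq, true_and]
    exact h1

/-- One command. -/
def step (D : Dg) : Cmd → Option Dg
  | .loc p rev c =>
    if c.ok then (if rev then repl D p c.rhs c.lhs else repl D p c.lhs c.rhs) else none
  | .rot =>
    match D.w with
    | [] => none
    | l :: w =>
      match act l D.s with
      | none => none
      | some t => some ⟨t, w ++ [l]⟩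
  | .sad p i o => repl D p [] [.cap i, .cup i o]

/-- Number of saddles of a command. -/
def nsad : Cmd → ℕ
  | .sad _ _ _ => 1
  | _ => 0

theorem step_movie {D D' C : Dg} {k : Cmd} {b c : ℕ} (h : step D k = some D')
    (hL : IsLink .S3 D') (m : Movie .S3 D C b c) : Movie .S3 D' C b (c + nsad k) := by
  cases k with
  | loc p rev lc =>
    simp only [step] at h
    split_ifs at h with h1 h2
    · exact Movie.iso hL (Or.inl (Iso.loc (repl_subst' (lc.loc h1) h))) m
    · exact Movie.iso hL (Or.inr (Iso.loc (repl_subst (lc.loc h1) h))) m
  | rot =>
    cases D with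
    | mk s w =>
      cases w with
      | nil => simp [step] at h
      | cons l w =>
        simp only [step] at h
        cases hact : act l s with
        | none => rw [hact] at h; simp at h
        | some t =>
          rw [hact] at h
          simp only [Option.some.injEq] at h
          subst h
          exact Movie.iso hL (Or.inr (Iso.rot s t l w hact)) m
  | sad p i o =>
    simp only [step] at h
    exact Movie.saddle hL (Or.inr (repl_subst (SaddleR.mk i o) h)) m

/-- Run a list of commands, checking that every diagram is a link. -/
def exec : Dg → List Cmd → Option Dg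
  | D, [] => some D
  | D, k :: ks =>
    match step D k with
    | none => none
    | some D' => if run D'.s D'.w = some D'.s then exec D' ks else none

theorem exec_movie (ks : List Cmd) {D D' C : Dg} {b c : ℕ} (h : exec D ks = some D')
    (m : Movie .S3 D C b c) : Movie .S3 D' C b (c + (ks.map nsad).sum) := by
  induction ks generalizing D b c with
  | nil =>
    simp only [exec, Option.some.injEq] at h
    subst h
    simpa using m
  | cons k ks ih =>
    simp only [exec] at h
    cases hs : step D k with
    | none => rw [hs] at h; simp at h
    | some D1 =>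
      rw [hs] at h
      simp only at h
      split_ifs at h with hl
      have m1 := step_movie hs hl m
      have m2 := ih h m1
      have e : c + nsad k + (ks.map nsad).sum = c + ((k :: ks).map nsad).sum := by
        simp only [List.map_cons, List.sum_cons]; ring
      rwa [e] at m2

/-- A core circle is pulled over the pole and removed. -/
theorem pole_movie {t : List Bool} {o : Bool} {C : Dg} {b c : ℕ}
    (m : Movie .S3 ⟨t ++ [o], []⟩ C b c) : Movie .S3 ⟨t, []⟩ C (b + 1) c := by
  have hcap : ∀ (s : List Bool) (a : Bool), act (.cap s.length) (s ++ [a, !a]) = some s := by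
    intro s
    induction s with
    | nil => intro a; cases a <;> simp [act]
    | cons x s ih => intro a; simp [act, ih]
  have hcup : ∀ (s : List Bool) (a : Bool), act (.cup s.length a) s = some (s ++ [a, !a]) := by
    intro s
    induction s with
    | nil => intro a; cases a <;> simp [act]
    | cons x s ih => intro a; simp [act, ih]
  have hrun : run t [.cup t.length o, .cap t.length] = some t := by
    simp [run, hcup, hcap]
  have h1 : Iso .S3 ⟨t ++ [o], []⟩ ⟨t, [.cup t.length o, .cap t.length]⟩ := by
    have := Iso.poleS t t o [] [] rfl rfl
    simpa using this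
  have m1 : Movie .S3 ⟨t, [.cup t.length o, .cap t.length]⟩ C b c :=
    Movie.iso hrun (Or.inr h1) m
  refine Movie.birth rfl ?_ m1
  exact ⟨t, [], [], [.cup t.length o, .cap t.length], [], rfl, rfl, BirthR.mk _ _, hrun.symm⟩

instance : DecidableEq Dg := fun a b =>
  decidable_of_iff (a.s = b.s ∧ a.w = b.w) (by
    cases a; cases b; simp)

/-- The commands. -/
def cmds : List Cmd :=
  [
    .sad 17 4 false, .sad 0 5 true, .loc 1 false (.far (.X 2 false true) (.cup 3 true)),
    .loc 2 false (.far (.X 3 false false) (.cup 3 true)),
    .loc 3 false (.far (.X 1 false false) (.cup 3 true)),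
    .loc 4 false (.far (.X 2 false true) (.cup 3 true)), .loc 5 true (.turnU 4 true true false),
    .loc 6 false (.r2 5 true false), .loc 5 true (.turnU 3 true true true),
    .loc 6 false (.r2 4 true true), .loc 7 false (.far (.X 3 false false) (.X 3 false false)),
    .loc 5 false (.turnU 3 true false true), .loc 6 false (.r2 3 true false),
    .loc 5 false (.turnU 4 true false false), .loc 6 false (.r2 4 true true),
    .loc 5 false (.far (.cup 1 false) (.cup 5 true)),
    .loc 6 false (.far (.X 0 true false) (.cup 5 true)),
    .loc 7 false (.far (.X 2 false true) (.cup 5 true)),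
    .loc 8 false (.far (.X 3 false false) (.cup 5 true)),
    .loc 9 false (.far (.X 4 false false) (.cup 5 true)),
    .loc 10 false (.far (.cap 4) (.cup 5 true)),
    .loc 11 false (.far (.cup 4 false) (.cup 5 true)),
    .loc 12 false (.far (.X 3 false true) (.cup 5 true)),
    .loc 13 false (.far (.X 2 false false) (.cup 5 true)),
    .loc 14 false (.far (.X 4 false false) (.cup 5 true)),
    .loc 15 false (.far (.X 3 false true) (.cup 5 true)),
    .loc 16 false (.far (.cap 5) (.cup 5 true)), .loc 17 true (.turnU 4 true true false),
    .loc 18 false (.r2 5 true false), .loc 9 false (.r1A 4 false),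
    .loc 4 false (.far (.cup 1 false) (.X 2 false true)),
    .loc 5 false (.far (.X 0 true false) (.X 2 false true)),
    .loc 6 false (.far (.X 2 false true) (.X 2 false true)), .loc 8 true (.turnA 3 true true),
    .loc 7 false (.r2 4 false true), .loc 3 false (.far (.cup 1 false) (.X 1 false false)),
    .loc 4 false (.far (.X 0 true false) (.X 1 false false)), .loc 6 true (.turnA 2 true false),
    .loc 5 false (.r2 3 false false), .loc 4 true (.far (.X 0 true false) (.cap 0)),
    .loc 3 false (.zigR 1 false), .loc 6 true (.far (.X 2 false false) (.X 2 false false)),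
    .loc 4 true (.turnU 3 false true false), .loc 5 false (.r2 4 true false),
    .loc 2 false (.far (.X 0 true false) (.X 1 false false)),
    .loc 3 false (.far (.cup 3 false) (.X 3 false false)),
    .loc 4 false (.far (.X 2 false false) (.X 3 false false)),
    .loc 5 false (.far (.X 3 false true) (.X 3 false false)), .loc 6 false (.r1A 5 false),
    .loc 3 true (.turnU 2 false true true), .loc 4 false (.r2 3 true true),
    .loc 3 true (.far (.cup 2 false) (.cap 3)), .loc 4 true (.far (.cup 2 false) (.cup 2 true)),
    .loc 5 false (.turnU 2 false false true), .loc 6 false (.r2 2 true false),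
    .loc 5 false (.turnU 3 false false false), .loc 6 false (.r2 3 true true),
    .loc 4 true (.far (.cup 2 true) (.cup 2 false)),
    .loc 7 true (.far (.X 0 false false) (.X 0 false false)),
    .loc 5 true (.turnU 1 true true false), .loc 6 false (.r2 2 true false),
    .loc 4 false (.far (.cup 1 true) (.cup 2 false)),
    .loc 5 false (.far (.X 0 false false) (.cup 2 false)),
    .loc 6 false (.far (.X 1 false true) (.cup 2 false)),
    .loc 7 false (.far (.X 1 false true) (.cup 2 false)),
    .loc 8 false (.far (.X 0 false false) (.cup 2 false)),
    .loc 9 false (.far (.X 2 false false) (.cup 2 false)),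
    .loc 10 false (.far (.X 1 false true) (.cup 2 false)),
    .loc 11 true (.far (.cup 4 false) (.cup 4 true)),
    .loc 12 true (.far (.cup 4 false) (.X 5 true false)),
    .loc 13 false (.turnU 4 false false true), .loc 14 false (.r2 4 true false),
    .loc 4 true (.turnU 0 true true true), .loc 5 false (.r2 1 true true),
    .loc 4 false (.turnU 0 true false true), .loc 5 false (.r2 0 true false),
    .loc 4 false (.turnU 1 true false false), .loc 5 false (.r2 1 true true),
    .loc 7 false (.far (.X 3 false false) (.cup 3 false)),
    .loc 8 true (.turnU 4 false true false), .loc 9 false (.r2 5 true false),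
    .loc 8 true (.turnU 3 false true true), .loc 9 false (.r2 4 true true),
    .loc 8 false (.zigL 2 false), .rot, .loc 5 false (.far (.X 3 false false) (.X 3 true false)),
    .loc 6 false (.far (.X 1 false true) (.X 3 true false)),
    .loc 7 false (.far (.X 0 false false) (.X 3 true false)), .loc 8 false (.r1A 5 true),
    .loc 5 false (.far (.X 1 false true) (.X 1 false false)),
    .loc 4 false (.far (.X 1 false true) (.cup 2 true)),
    .loc 6 false (.far (.X 0 false false) (.X 1 false false)),
    .loc 5 false (.far (.X 0 false false) (.cup 2 true)),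
    .loc 7 true (.far (.X 3 false false) (.cap 3)), .loc 6 false (.zigR 4 true), .rot, .rot,
    .loc 3 true (.far (.X 0 false false) (.X 1 false false)),
    .loc 4 true (.far (.X 0 false false) (.X 0 false true)), .loc 5 false (.r2 0 false false),
    .rot, .loc 3 true (.turnA 2 true false), .loc 2 false (.r2 3 false false),
    .loc 0 true (.turnU 1 true true false), .loc 1 false (.r1A 2 true),
    .loc 0 false (.zigR 1 true), .loc 0 true (.r2 0 true false), .rot,
    .loc 0 false (.r2 0 false false)
  ]

theorem exec_Kex : exec (lift Kex) cmds = some ⟨[true, false, true], []⟩ := by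
  decide +kernel

theorem movie_Kex : Movie .S3 line (lift Kex) 2 2 := by
  have h0 : Movie .S3 (lift Kex) (lift Kex) 0 0 :=
    Movie.refl (by unfold IsLink; decide)
  have h1 := exec_movie cmds exec_Kex h0
  have h2 : (cmds.map nsad).sum = 2 := by decide
  rw [h2, Nat.zero_add] at h1
  exact pole_movie (t := [true]) (pole_movie (t := [true, false]) h1)

end FPS
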