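import Mathlib
import Pool.Agent.H61.RP.Base

/-!
MODULE Supp (about 150 lines).  Numbers of strands, supports of labellings, constancy of the first and the
last slot.
-/

namespace FPS

open Letter

/-- `Fit l n m`: the letter `l` fits above `n` strands and gives `m` strands. -/
def Fit : Letter → ℕ → ℕ → Prop
  | .X i _ _, n, m => i + 2 ≤ n ∧ m = n
  | .cup i _, n, m => i ≤ n ∧ m = n + 2
  | .cap i, n, m => i + 2 ≤ n ∧ m + 2 = n

/-- `FitW w n m`: the word `w` fits above `n` strands and gives `m` strands. -/
def FitW : List Letter → ℕ → ℕ → Prop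
  | [], n, m => n = m
  | l :: w, n, m => ∃ r, Fit l n r ∧ FitW w r m

/-- By induction on the list, following the recursion of `act`. -/
theorem act_fit (l : Letter) (s t : List Bool) (h : act l s = some t) :
    Fit l s.length t.length := by
  fun_induction act l s generalizing t with
  | case1 =>
    obtain rfl := Option.some.inj h
    simp [Fit]
  | case2 => exact absurd h (by simp)
  | case3 _ _ _ _ _ ih =>
    rw [Option.map_eq_some_iff] at h
    obtain ⟨t', ht', rfl⟩ := h
    have := ih t' ht'
    simp only [Fit, List.length_cons] at this ⊢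
    omega
  | case4 =>
    obtain rfl := Option.some.inj h
    simp [Fit]
  | case5 _ _ _ _ ih =>
    rw [Option.map_eq_some_iff] at h
    obtain ⟨t', ht', rfl⟩ := h
    have := ih t' ht'
    simp only [Fit, List.length_cons] at this ⊢
    omega
  | case6 => exact absurd h (by simp)
  | case7 =>
    obtain rfl := Option.some.inj h
    simp [Fit]
  | case8 _ _ _ ih =>
    rw [Option.map_eq_some_iff] at h
    obtain ⟨t', ht', rfl⟩ := h
    have := ih t' ht'
    simp only [Fit, List.length_cons] at this ⊢
    omega
  | case9 => exact absurd h (by simp)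

theorem run_fit (w : List Letter) (s t : List Bool) (h : run s w = some t) :
    FitW w s.length t.length := by
  induction w generalizing s with
  | nil =>
    simp only [run, Option.some.injEq] at h
    subst h
    rfl
  | cons l w ih =>
    simp only [run, Option.bind_eq_some_iff] at h
    obtain ⟨r, hr, hw⟩ := h
    exact ⟨r.length, act_fit l s r hr, ih r hw⟩

theorem run_append (s : List Bool) (u v : List Letter) :
    run s (u ++ v) = (run s u).bind (fun t => run t v) := by
  induction u generalizing s with
  | nil => simp [run]
  | cons l u ih =>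
    simp only [List.cons_append, run]
    cases act l s with
    | none => rfl
    | some r => exact ih r

theorem FitW_append (u v : List Letter) (n m : ℕ) :
    FitW (u ++ v) n m ↔ ∃ r, FitW u n r ∧ FitW v r m := by
  induction u generalizing n with
  | nil => simp [FitW]
  | cons l u ih =>
    simp only [List.cons_append, FitW, ih]
    constructor
    · rintro ⟨r, h1, r', h2, h3⟩
      exact ⟨r', ⟨r, h1, h2⟩, h3⟩
    · rintro ⟨r', ⟨r, h1, h2⟩, h3⟩
      exact ⟨r, h1, r', h2, h3⟩

/-- The labels vanish beyond the last slot. -/
theorem supp_step {k : Type} [Zero k] {l : Letter} {n m : ℕ} (h : Fit l n m) {f g : ℕ → k}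
    (hr : Rel l f g) : (∀ q, n < q → f q = 0) ↔ (∀ q, m < q → g q = 0) := by
  cases l with
  | X i e p =>
    simp only [Fit] at h
    obtain ⟨h1, rfl⟩ := h
    simp only [Rel] at hr
    constructor
    · intro hf q hq
      rw [hr q (by omega)]
      exact hf q hq
    · intro hg q hq
      rw [← hr q (by omega)]
      exact hg q hq
  | cup i o =>
    simp only [Fit] at h
    obtain ⟨h1, rfl⟩ := h
    obtain ⟨ha, hb⟩ := hr
    constructor
    · intro hf q hq
      obtain ⟨r, rfl⟩ : ∃ r, q = r + 2 := ⟨q - 2, by omega⟩
      rw [hb r (by omega)]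
      exact hf r (by omega)
    · intro hg q hq
      rw [← hb q (by omega)]
      exact hg (q + 2) (by omega)
  | cap i =>
    simp only [Fit] at h
    obtain ⟨h1, h2⟩ := h
    obtain ⟨ha, hb⟩ := hr
    constructor
    · intro hf q hq
      rw [hb q (by omega)]
      exact hf (q + 2) (by omega)
    · intro hg q hq
      obtain ⟨r, rfl⟩ : ∃ r, q = r + 2 := ⟨q - 2, by omega⟩
      rw [← hb r (by omega)]
      exact hg r (by omega)

theorem supp_word {k : Type} [Zero k] (w : List Letter) (n m : ℕ) (h : FitW w n m)
    (F : ℕ → ℕ → k) (hF : Pre w F) (h0 : ∀ q, n < q → F 0 q = 0) :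
    ∀ q, m < q → F w.length q = 0 := by
  induction w generalizing n F with
  | nil =>
    simp only [FitW] at h
    subst h
    exact h0
  | cons l w ih =>
    obtain ⟨r, h1, h2⟩ := h
    obtain ⟨hF1, hF2⟩ := hF
    exact ih r h2 (fun j => F (j + 1)) hF2 ((supp_step h1 hF1).1 h0)

/-- The label of slot `0` does not change. -/
theorem first_step {k : Type} {l : Letter} {f g : ℕ → k} (hr : Rel l f g) : g 0 = f 0 := by
  cases l with
  | X i e p => exact hr 0 (by omega)
  | cup i o => exact hr.1 0 (Nat.zero_le _)
  | cap i => exact hr.1 0 (Nat.zero_le _)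

theorem first_word {k : Type} (w : List Letter) (F : ℕ → ℕ → k) (hF : Pre w F) :
    ∀ j, j ≤ w.length → F j 0 = F 0 0 := by
  induction w generalizing F with
  | nil =>
    intro j hj
    obtain rfl : j = 0 := by simpa using hj
    rfl
  | cons l w ih =>
    obtain ⟨hF1, hF2⟩ := hF
    intro j hj
    rcases j with _ | j
    · rfl
    · have := ih (fun j => F (j + 1)) hF2 j (by simpa using hj)
      rw [← first_step hF1]
      exact this

/-- The label of the last slot does not change. -/
theorem last_step {k : Type} {l : Letter} {n m : ℕ} (h : Fit l n m) {f g : ℕ → k}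
    (hr : Rel l f g) : g m = f n := by
  cases l with
  | X i e p =>
    simp only [Fit] at h
    obtain ⟨h1, rfl⟩ := h
    exact hr _ (by omega)
  | cup i o =>
    simp only [Fit] at h
    obtain ⟨h1, rfl⟩ := h
    exact hr.2 n h1
  | cap i =>
    simp only [Fit] at h
    obtain ⟨h1, h2⟩ := h
    have := hr.2 m (by omega)
    rw [this, h2]

theorem last_word {k : Type} (w : List Letter) (n m : ℕ) (h : FitW w n m)
    (F : ℕ → ℕ → k) (hF : Pre w F) : F w.length m = F 0 n := by
  induction w generalizing n F with
  | nil =>
    simp only [FitW] at h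
    subst h
    rfl
  | cons l w ih =>
    obtain ⟨r, h1, h2⟩ := h
    obtain ⟨hF1, hF2⟩ := hF
    have := ih r h2 (fun j => F (j + 1)) hF2
    simp only [List.length_cons]
    rw [this]
    exact last_step h1 hF1

end FPS
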