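import Mathlib
import Pool.Agent.H61.RP.Supp

/-!
MODULE Parity (about 50 lines).  The parity of the number of strands of the bottom level does not change.
By induction on the movie: `Subst` keeps the bottom level; `rot`: `act_fit` (`Fit` changes the length by 0, 2, -2);
`poleP`: `((o :: t) ++ [o]).length = t.length + 2`.
-/

namespace FPS

open Letter

private theorem parity_subst {R : List Letter → List Letter → Prop} {A B : Dg}
    (h : Subst R A B) : A.s = B.s := by
  obtain ⟨s, u, x, y, v, rfl, rfl, _, _⟩ := h
  rfl

private theorem parity_iso {A B : Dg} (h : Iso .RP3 A B) :
    Odd A.s.length ↔ Odd B.s.length := by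
  cases h with
  | loc h => rw [parity_subst h]
  | rot s t l w h =>
    have h1 := act_fit l s t h
    cases l with
    | X i e p =>
      simp only [Fit] at h1
      rw [show s.length = t.length by omega]
    | cup i o =>
      simp only [Fit] at h1
      have h2 : t.length = s.length + 2 := by omega
      simp only [h2, Nat.odd_iff]
      omega
    | cap i =>
      simp only [Fit] at h1
      have h2 : s.length = t.length + 2 := by omega
      simp only [h2, Nat.odd_iff]
      omega
  | poleP t o w hw =>
    simp only [List.cons_append, List.length_cons, List.length_append, List.length_nil,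
      Nat.odd_iff]
    omega

theorem parity_movie {A B : Dg} {b c : ℕ} (h : Movie .RP3 A B b c) :
    Odd A.s.length ↔ Odd B.s.length := by
  induction h with
  | refl hA => rfl
  | iso hA h m ih =>
    rcases h with h | h
    · rw [parity_iso h, ih]
    · rw [← parity_iso h, ih]
  | birth hA h m ih => rw [parity_subst h, ih]
  | saddle hA h m ih =>
    rcases h with h | h
    · rw [parity_subst h, ih]
    · rw [← parity_subst h, ih]

end FPS
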