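import Mathlib
import Pool.Agent.H61.RP.Supp

/-!
MODULE RankA (about 120 lines).  Over a field with `2 ≠ 0`: a valid labelling of a class 1 knot diagram with
all `λ_v = 0` and `F 0 0 + F 0 1 = 0` vanishes.

Proof.  Let `C j q = decide (F j q + F j (q+1) = 0)` (`Classical.dec`; or use `open Classical`).  It is a
colouring, `Col D.w C`: for `X i`: `F (j+1) i + F (j+1) (i+1) = F j i + F (j+1) (i+1) =
- (F j (i+1) + F j (i+2))` because `λ = F j i + F j (i+2) + F j (i+1) + F (j+1) (i+1) = 0`; similarly
`F (j+1) (i+1) + F (j+1) (i+2) = -(F j i + F j (i+1))`; other slots unchanged.  For `cup i`: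
`F (j+1) i + F (j+1) (i+1)` and `F (j+1) (i+1) + F (j+1) (i+2)` are equal since `F (j+1) (i+2) = F j i =
F (j+1) i`; for `q < i`, `q ≥ i` shifts.  `cap` symmetric.  (A recursion lemma: for all `w`, `F`,
if `Pre w F` and all λ vanish then `Col w C`.)
Seam: `C N q = C 0 (n - 1 - q)`: `F N q + F N (q+1) = F 0 (n-q) + F 0 (n-q-1)`.
By `Connected` all `C j q` (`j ≤ N`, `q <` number of strands of level `j`) are equal to `C 0 0 = true`
(`n ≥ 1` as `n` is odd).  So `F j q = (-1)^q F j 0` for `q ≤` number of strands.
In particular `F 0 0 = F N 0` (`first_word`) `= F 0 n = (-1)^n F 0 0 = - F 0 0`, so `F 0 0 = 0`, `F j 0 = 0`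
for all `j ≤ N` (`first_word`), all labels of the slots `≤` number of strands vanish, the others
vanish by `supp_word` (applied to `D.w.take j`; `F j` for `j > N` is 0 by `Val_iff_Pre`).
-/

namespace FPS

open Letter

private theorem rankA_col {k : Type} [Field k] (w : List Letter) (F : ℕ → ℕ → k)
    (hF : Pre w F)
    (hlam : ∀ j i e p, w[j]? = some (.X i e p) →
      F j i + F j (i + 2) + F j (i + 1) + F (j + 1) (i + 1) = 0)
    (C : ℕ → ℕ → Bool) (hC : ∀ j q, C j q = true ↔ F j q + F j (q + 1) = 0) : Col w C := by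
  induction w generalizing F C with
  | nil => trivial
  | cons l w ih =>
    obtain ⟨h1, h2⟩ := hF
    refine ⟨?_, ih (fun j => F (j + 1)) h2 (fun j i e p h => ?_) (fun j => C (j + 1))
      (fun j q => hC (j + 1) q)⟩
    · have hCe : ∀ a b c d : ℕ, (F a b + F a (b + 1) = 0 ↔ F c d + F c (d + 1) = 0) →
          C a b = C c d := by
        intro a b c d h
        rw [Bool.eq_iff_iff, hC, hC]
        exact h
      cases l with
      | X i e p =>
        have hl := hlam 0 i e p (by simp)
        have h1' : ∀ q, q ≠ i + 1 → F 1 q = F 0 q := h1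
        refine ⟨hCe _ _ _ _ ?_, hCe _ _ _ _ ?_, fun q hq1 hq2 => hCe _ _ _ _ ?_⟩
        · rw [h1' i (by omega)]
          constructor
          · intro h
            linear_combination hl - h
          · intro h
            linear_combination hl - h
        · rw [show i + 1 + 1 = i + 2 from rfl, h1' (i + 2) (by omega)]
          constructor
          · intro h
            linear_combination hl - h
          · intro h
            linear_combination hl - h
        · rw [h1' q hq2, h1' (q + 1) (by omega)]
      | cup i o =>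
        have ha : ∀ q, q ≤ i → F 1 q = F 0 q := h1.1
        have hb : ∀ q, i ≤ q → F 1 (q + 2) = F 0 q := h1.2
        refine ⟨hCe _ _ _ _ ?_, fun q hq => hCe _ _ _ _ ?_, fun q hq => hCe _ _ _ _ ?_⟩
        · rw [show i + 1 + 1 = i + 2 from rfl, hb i le_rfl, ha i le_rfl, add_comm]
        · rw [ha q (by omega), ha (q + 1) (by omega)]
        · rw [show q + 2 + 1 = (q + 1) + 2 from rfl, hb q hq, hb (q + 1) (by omega)]
      | cap i =>
        have ha : ∀ q, q ≤ i → F 1 q = F 0 q := h1.1
        have hb : ∀ q, i ≤ q → F 1 q = F 0 (q + 2) := h1.2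
        refine ⟨hCe _ _ _ _ ?_, fun q hq => hCe _ _ _ _ ?_, fun q hq => hCe _ _ _ _ ?_⟩
        · rw [show i + 1 + 1 = i + 2 from rfl, ← hb i le_rfl, ha i le_rfl, add_comm]
        · rw [ha q (by omega), ha (q + 1) (by omega)]
        · rw [show q + 2 + 1 = (q + 1) + 2 from rfl, hb q hq, hb (q + 1) (by omega)]
    · exact hlam (j + 1) i e p (by simpa using h)

theorem rankA {k : Type} [Field k] (h2 : (2 : k) ≠ 0) {D : Dg} (hK : IsKnot .RP3 D)
    (hodd : Odd D.s.length) (F : ℕ → ℕ → k) (hF : VV D.s.length D.w F)
    (hlam : ∀ j i e p, D.w[j]? = some (.X i e p) →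
      F j i + F j (i + 2) + F j (i + 1) + F (j + 1) (i + 1) = 0)
    (h0 : F 0 0 + F 0 1 = 0) : F = 0 := by
  classical
  obtain ⟨hV, hz, hs⟩ := hF
  obtain ⟨hP, hend⟩ := (Val_iff_Pre _ _).1 hV
  obtain ⟨hL, hne, hconn⟩ := hK
  have hpos : 0 < D.s.length := hodd.pos
  let C : ℕ → ℕ → Bool := fun j q => decide (F j q + F j (q + 1) = 0)
  have hC : ∀ j q, C j q = true ↔ F j q + F j (q + 1) = 0 := fun j q => by simp [C]
  have hcol : Col D.w C := rankA_col D.w F hP hlam C hC
  have hseam : ∀ q, q < D.s.length → C D.w.length q = C 0 (Space.seam .RP3 D.s.length q) := by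
    intro q hq
    rw [Bool.eq_iff_iff, hC, hC]
    change _ ↔ F 0 (D.s.length - 1 - q) + F 0 (D.s.length - 1 - q + 1) = 0
    rw [hs q (by omega), hs (q + 1) (by omega),
      show D.s.length - 1 - q + 1 = D.s.length - q by omega,
      show D.s.length - (q + 1) = D.s.length - 1 - q by omega, add_comm]
  have hrun : ∀ j, ∃ t, run D.s (D.w.take j) = some t := by
    intro j
    have h := hL
    unfold IsLink at h
    rw [← List.take_append_drop j D.w, run_append] at h
    cases hr : run D.s (D.w.take j) with
    | none => rw [hr] at h; simp at h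
    | some t => exact ⟨t, rfl⟩
  have hall : ∀ j t q, j ≤ D.w.length → run D.s (D.w.take j) = some t → q < t.length →
      F j q + F j (q + 1) = 0 := by
    intro j t q hj ht hq
    rw [← hC, hconn C hcol hseam j 0 q 0 t D.s hj (Nat.zero_le _) ht rfl hq hpos, hC]
    exact h0
  have hpow : ∀ j t, j ≤ D.w.length → run D.s (D.w.take j) = some t → ∀ q, q ≤ t.length →
      F j q = (-1) ^ q * F j 0 := by
    intro j t hj ht q
    induction q with
    | zero => intro _; simp
    | succ q ih =>
      intro hq
      have h := hall j t q hj ht (by omega)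
      rw [ih (by omega)] at h
      rw [pow_succ]
      linear_combination h
  have hfirst := first_word D.w F hP
  have hn : F 0 D.s.length = - F 0 0 := by
    rw [hpow 0 D.s (Nat.zero_le _) rfl D.s.length le_rfl, hodd.neg_one_pow]
    ring
  have hN : F D.w.length 0 = F 0 D.s.length := by
    rw [hs 0 (Nat.zero_le _), Nat.sub_zero]
  have h00 : F 0 0 = 0 := by
    have h := hfirst D.w.length le_rfl
    rw [hN, hn] at h
    have h3 : (2 : k) * F 0 0 = 0 := by linear_combination -h
    rcases mul_eq_zero.1 h3 with h | h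
    · exact absurd h h2
    · exact h
  funext j q
  change F j q = 0
  by_cases hj : j ≤ D.w.length
  · obtain ⟨t, ht⟩ := hrun j
    by_cases hq : q ≤ t.length
    · rw [hpow j t hj ht q hq, hfirst j hj, h00, mul_zero]
    · have hlen : (D.w.take j).length = j := by
        rw [List.length_take]; omega
      have hPt : Pre (D.w.take j) F := by
        have h := hP
        rw [← List.take_append_drop j D.w, Pre_append] at h
        exact h.1
      have h := supp_word (D.w.take j) D.s.length t.length (run_fit _ _ _ ht) F hPt hz q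
        (by omega)
      rw [hlen] at h
      exact h
  · exact congrFun (hend j (by omega)) q

end FPS
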