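import Mathlib
import Pool.Agent.H61.RP.Supp

/-!
MODULE RankB (about 200 lines).  Lower bound for the dimension of the space of labellings.

Step 1 (open words): for every field `k`, word `w`, `FitW w n m`: there is a finite-dimensional `M` and an
injective linear `H : M → (ℕ → ℕ → k)` with `Val w (H x)`, `H x 0 q = 0` for `q > n`, and
`finrank M + (number of caps of w) ≥ n + 1 + cs true w + cs false w + (number of cups of w)`.
Induction on `w`.  `w = []`: `M = Fin (n+1) → k`.  `l :: w`, given `(M, H)` for `w` and `r` strands:
* `l = X i e p` (`r = n`): `M × k`, `(x, c) ↦ (f, H x 0, H x 1, ...)` with `f q = if q = i + 1 then c else H x 0 q`.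
* `l = cup i o` (`r = n + 2`): `M' = ker (x ↦ H x 0 i - H x 0 (i+2))` (finrank drops by at most 1),
  `f q = if q ≤ i then H x 0 q else H x 0 (q + 2)`.
* `l = cap i` (`r = n - 2`): `M × k`, `f q = if q ≤ i then H x 0 q else if q = i + 1 then c else H x 0 (q - 2)`.
Step 2: `FitW w n n` implies number of cups = number of caps (`m + 2 caps = n + 2 cups`).
Step 3: the seam.  In the space of Step 1 (`n = m`) impose the `n` conditions `F N q = F 0 (n - q)` for
`q < n`, `N = w.length` (kernel of a linear map to `Fin n → k`: finrank drops by at most `n`).  The condition for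
`q = n` follows: `F N n = F 0 n` (`last_word`), `F 0 n = F N 0` (condition `q = 0`, `n ≥ 1`),
`F N 0 = F 0 0` (`first_word`).
-/

namespace FPS

open Letter

private def rbCup : Letter → ℕ
  | .X _ _ _ => 0
  | .cup _ _ => 1
  | .cap _ => 0

private def rbCap : Letter → ℕ
  | .X _ _ _ => 0
  | .cup _ _ => 0
  | .cap _ => 1

private def rbCups (w : List Letter) : ℕ := (w.map rbCup).sum

private def rbCaps (w : List Letter) : ℕ := (w.map rbCap).sum

private theorem rb_balance (w : List Letter) (n m : ℕ) (h : FitW w n m) :
    m + 2 * rbCaps w = n + 2 * rbCups w := by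
  induction w generalizing n with
  | nil => simp only [FitW] at h; simp [rbCaps, rbCups, h]
  | cons l w ih =>
    obtain ⟨r, h1, h2⟩ := h
    have h3 := ih r h2
    have e1 : rbCaps (l :: w) = rbCap l + rbCaps w := by simp [rbCaps]
    have e2 : rbCups (l :: w) = rbCup l + rbCups w := by simp [rbCups]
    rw [e1, e2]
    cases l with
    | X i e p => simp only [Fit] at h1; simp only [rbCap, rbCup]; omega
    | cup i o => simp only [Fit] at h1; simp only [rbCap, rbCup]; omega
    | cap i => simp only [Fit] at h1; simp only [rbCap, rbCup]; omega

/-- Put a bottom row under a labelling. -/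
private def rbCons {k : Type} [Field k] {M : Type} [AddCommGroup M] [Module k M]
    (A : M →ₗ[k] (ℕ → k)) (B : M →ₗ[k] (ℕ → ℕ → k)) : M →ₗ[k] (ℕ → ℕ → k) where
  toFun x := fun j => match j with
    | 0 => A x
    | j + 1 => B x j
  map_add' a b := by
    funext j
    cases j with
    | zero => simp
    | succ j => simp
  map_smul' c a := by
    funext j
    cases j with
    | zero => simp
    | succ j => simp

private theorem rb_ker {k : Type} [Field k] {M : Type} [AddCommGroup M] [Module k M]
    [FiniteDimensional k M] {W : Type} [AddCommGroup W] [Module k W] [FiniteDimensional k W]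
    (φ : M →ₗ[k] W) :
    Module.finrank k M ≤ Module.finrank k (LinearMap.ker φ) + Module.finrank k W := by
  have h1 := LinearMap.finrank_range_add_finrank_ker φ
  have h2 := Submodule.finrank_le (LinearMap.range φ)
  omega

private theorem rb_open (k : Type) [Field k] (w : List Letter) (n m : ℕ) (h : FitW w n m) :
    ∃ (M : Type) (_ : AddCommGroup M) (_ : Module k M) (_ : FiniteDimensional k M)
      (H : M →ₗ[k] (ℕ → ℕ → k)), Function.Injective H ∧ (∀ x, Val w (H x)) ∧
      (∀ x q, n < q → H x 0 q = 0) ∧
      n + 1 + cs true w + cs false w + rbCups w ≤ Module.finrank k M + rbCaps w := by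
  induction w generalizing n with
  | nil =>
    let H : (Fin (n + 1) → k) →ₗ[k] (ℕ → ℕ → k) :=
      { toFun := fun x j q => if j = 0 then (if h : q ≤ n then x ⟨q, Nat.lt_succ_of_le h⟩ else 0)
          else 0
        map_add' := by
          intro x y
          funext j q
          by_cases h1 : j = 0 <;> by_cases h2 : q ≤ n <;> simp [h1, h2]
        map_smul' := by
          intro c x
          funext j q
          by_cases h1 : j = 0 <;> by_cases h2 : q ≤ n <;> simp [h1, h2] }
    refine ⟨Fin (n + 1) → k, inferInstance, inferInstance, inferInstance, H, ?_, ?_, ?_, ?_⟩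
    · intro x y hxy
      funext q
      have := congrFun (congrFun hxy 0) q.1
      have e : ∀ z : Fin (n + 1) → k, H z 0 q.1 = z q := by
        intro z
        change (if 0 = 0 then (if h : q.1 ≤ n then z ⟨q.1, Nat.lt_succ_of_le h⟩ else 0) else 0) = z q
        rw [if_pos rfl, dif_pos (Nat.lt_succ_iff.mp q.2)]
      rw [e, e] at this
      exact this
    · intro x j
      funext q
      change (if j + 1 = 0 then (if h : q ≤ n then x ⟨q, Nat.lt_succ_of_le h⟩ else 0) else 0) = 0
      rw [if_neg (by omega)]
    · intro x q hq
      change (if 0 = 0 then (if h : q ≤ n then x ⟨q, Nat.lt_succ_of_le h⟩ else 0) else 0) = 0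
      rw [if_pos rfl, dif_neg (by omega)]
    · have e : Module.finrank k (Fin (n + 1) → k) = n + 1 := by simp
      rw [e]
      simp [cs, rbCups, rbCaps]
  | cons l w ih =>
    obtain ⟨r, h1, h2⟩ := h
    obtain ⟨M, iM, iM2, iM3, H, hinj, hval, hsup, hdim⟩ := ih r h2
    have e1 : rbCaps (l :: w) = rbCap l + rbCaps w := by simp [rbCaps]
    have e2 : rbCups (l :: w) = rbCup l + rbCups w := by simp [rbCups]
    have e3 : ∀ σ, cs σ (l :: w) = cnt σ l + cs σ w := by intro σ; simp [cs]
    cases l with
    | X i e p =>
      simp only [Fit] at h1
      obtain ⟨hi, hr⟩ := h1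
      subst hr
      let A : (M × k) →ₗ[k] (ℕ → k) :=
        { toFun := fun x q => if q = i + 1 then x.2 else H x.1 0 q
          map_add' := by
            intro x y
            funext q
            by_cases h : q = i + 1 <;> simp [h]
          map_smul' := by
            intro c x
            funext q
            by_cases h : q = i + 1 <;> simp [h] }
      have hA : ∀ x q, A x q = if q = i + 1 then x.2 else H x.1 0 q := fun _ _ => rfl
      refine ⟨M × k, inferInstance, inferInstance, inferInstance,
        rbCons A (H.comp (LinearMap.fst k M k)), ?_, ?_, ?_, ?_⟩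
      · rw [injective_iff_map_eq_zero]
        intro x hx
        have hA0 : A x = 0 := congrFun hx 0
        have hB : H x.1 = 0 := by
          funext j
          exact congrFun hx (j + 1)
        have hx1 : x.1 = 0 := hinj (by rw [hB, map_zero])
        have hx2 : x.2 = 0 := by
          have := congrFun hA0 (i + 1)
          rw [hA, if_pos rfl] at this
          exact this
        exact Prod.ext hx1 hx2
      · intro x
        refine ⟨?_, hval x.1⟩
        intro q hq
        change H x.1 0 q = A x q
        rw [hA, if_neg hq]
      · intro x q hq
        change A x q = 0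
        rw [hA, if_neg (by omega)]
        exact hsup x.1 q hq
      · have hf : Module.finrank k (M × k) = Module.finrank k M + 1 := by simp
        have hc : cnt true (Letter.X i e p) + cnt false (Letter.X i e p) = 1 := by
          cases e <;> cases p <;> rfl
        rw [hf, e1, e2, e3, e3]
        simp only [rbCup, rbCap]
        omega
    | cup i o =>
      simp only [Fit] at h1
      obtain ⟨hi, hr⟩ := h1
      subst hr
      let φ : M →ₗ[k] k :=
        { toFun := fun x => H x 0 i - H x 0 (i + 2)
          map_add' := by
            intro x y
            simp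
            ring
          map_smul' := by
            intro c x
            simp
            ring }
      let K := LinearMap.ker φ
      have hK : ∀ x : K, H x.1 0 i = H x.1 0 (i + 2) := by
        intro x
        have : φ x.1 = 0 := x.2
        exact sub_eq_zero.mp this
      let A : K →ₗ[k] (ℕ → k) :=
        { toFun := fun x q => if q ≤ i then H x.1 0 q else H x.1 0 (q + 2)
          map_add' := by
            intro x y
            funext q
            by_cases h : q ≤ i <;> simp [h]
          map_smul' := by
            intro c x
            funext q
            by_cases h : q ≤ i <;> simp [h] }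
      have hA : ∀ x q, A x q = if q ≤ i then H x.1 0 q else H x.1 0 (q + 2) := fun _ _ => rfl
      refine ⟨K, inferInstance, inferInstance, inferInstance,
        rbCons A (H.comp K.subtype), ?_, ?_, ?_, ?_⟩
      · rw [injective_iff_map_eq_zero]
        intro x hx
        have hB : H x.1 = 0 := by
          funext j
          exact congrFun hx (j + 1)
        have hx1 : x.1 = 0 := hinj (by rw [hB, map_zero])
        exact Subtype.ext hx1
      · intro x
        refine ⟨⟨?_, ?_⟩, hval x.1⟩
        · intro q hq
          change H x.1 0 q = A x q
          rw [hA, if_pos hq]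
        · intro q hq
          change H x.1 0 (q + 2) = A x q
          rw [hA]
          by_cases h : q ≤ i
          · have hqi : q = i := le_antisymm h hq
            subst hqi
            rw [if_pos le_rfl]
            exact (hK x).symm
          · rw [if_neg h]
      · intro x q hq
        change A x q = 0
        rw [hA, if_neg (by omega)]
        exact hsup x.1 _ (by omega)
      · have hf := rb_ker φ
        have hf2 : Module.finrank k k = 1 := by simp
        rw [hf2] at hf
        have hf3 : Module.finrank k M ≤ Module.finrank k K + 1 := hf
        rw [e1, e2, e3, e3]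
        simp only [rbCup, rbCap, cnt]
        omega
    | cap i =>
      simp only [Fit] at h1
      obtain ⟨hi, hr⟩ := h1
      let A : (M × k) →ₗ[k] (ℕ → k) :=
        { toFun := fun x q => if q ≤ i then H x.1 0 q else if q = i + 1 then x.2
            else H x.1 0 (q - 2)
          map_add' := by
            intro x y
            funext q
            by_cases h : q ≤ i <;> by_cases h' : q = i + 1 <;> simp [h, h']
          map_smul' := by
            intro c x
            funext q
            by_cases h : q ≤ i <;> by_cases h' : q = i + 1 <;> simp [h, h'] }
      have hA : ∀ x q, A x q = if q ≤ i then H x.1 0 q else if q = i + 1 then x.2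
            else H x.1 0 (q - 2) := fun _ _ => rfl
      refine ⟨M × k, inferInstance, inferInstance, inferInstance,
        rbCons A (H.comp (LinearMap.fst k M k)), ?_, ?_, ?_, ?_⟩
      · rw [injective_iff_map_eq_zero]
        intro x hx
        have hA0 : A x = 0 := congrFun hx 0
        have hB : H x.1 = 0 := by
          funext j
          exact congrFun hx (j + 1)
        have hx1 : x.1 = 0 := hinj (by rw [hB, map_zero])
        have hx2 : x.2 = 0 := by
          have := congrFun hA0 (i + 1)
          rw [hA, if_neg (by omega), if_pos rfl] at this
          exact this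
        exact Prod.ext hx1 hx2
      · intro x
        refine ⟨⟨?_, ?_⟩, hval x.1⟩
        · intro q hq
          change H x.1 0 q = A x q
          rw [hA, if_pos hq]
        · intro q hq
          change H x.1 0 q = A x (q + 2)
          rw [hA, if_neg (by omega), if_neg (by omega), Nat.add_sub_cancel]
      · intro x q hq
        change A x q = 0
        rw [hA, if_neg (by omega), if_neg (by omega)]
        exact hsup x.1 _ (by omega)
      · have hf : Module.finrank k (M × k) = Module.finrank k M + 1 := by simp
        rw [hf, e1, e2, e3, e3]
        simp only [rbCup, rbCap, cnt]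
        omega

theorem rankB (k : Type) [Field k] (n : ℕ) (hn : 1 ≤ n) (w : List Letter) (h : FitW w n n) :
    ∃ (M : Type) (_ : AddCommGroup M) (_ : Module k M) (_ : FiniteDimensional k M)
      (H : M →ₗ[k] (ℕ → ℕ → k)), Function.Injective H ∧ (∀ x, VV n w (H x)) ∧
      cs true w + cs false w + 1 ≤ Module.finrank k M := by
  obtain ⟨M, iM, iM2, iM3, H, hinj, hval, hsup, hdim⟩ := rb_open k w n n h
  have hbal := rb_balance w n n h
  let ψ : M →ₗ[k] (Fin n → k) :=
    { toFun := fun x q => H x w.length q.1 - H x 0 (n - q.1)
      map_add' := by
        intro x y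
        funext q
        simp
        ring
      map_smul' := by
        intro c x
        funext q
        simp
        ring }
  let K := LinearMap.ker ψ
  have hK : ∀ x : K, ∀ q, q < n → H x.1 w.length q = H x.1 0 (n - q) := by
    intro x q hq
    have h0 : ψ x.1 = 0 := x.2
    have h1 := congrFun h0 ⟨q, hq⟩
    exact sub_eq_zero.mp h1
  refine ⟨K, inferInstance, inferInstance, inferInstance, H.comp K.subtype, ?_, ?_, ?_⟩
  · intro x y hxy
    exact Subtype.ext (hinj hxy)
  · intro x
    have hpre : Pre w (H x.1) := ((Val_iff_Pre w (H x.1)).mp (hval x.1)).1
    refine ⟨hval x.1, hsup x.1, ?_⟩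
    intro q hq
    change H x.1 w.length q = H x.1 0 (n - q)
    rcases Nat.lt_or_ge q n with hlt | hge
    · exact hK x q hlt
    · have hqn : q = n := le_antisymm hq hge
      subst hqn
      rw [last_word w q q h (H x.1) hpre, Nat.sub_self]
      have a := hK x 0 (by omega)
      rw [Nat.sub_zero] at a
      rw [← a]
      exact first_word w (H x.1) hpre w.length le_rfl
  · have hf := rb_ker ψ
    have hf2 : Module.finrank k (Fin n → k) = n := by simp
    rw [hf2] at hf
    have hf3 : Module.finrank k M ≤ Module.finrank k K + n := hf
    omega

end FPS
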