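import Mathlib
import Pool.Agent.H61.RP.CrossCard
import Pool.Agent.H61.RP.RankA
import Pool.Agent.H61.RP.RankB

/-!
MODULE RankC1 (about 80 lines).  Dimension counts.
`rankA'`: restatement of `rankA` with `lam`: if `lam D.w F v = 0` for all crossings `v` and `F 0 0 + F 0 1 = 0`
then `F = 0` (`D.w[j]? = some (X i e p)` gives `j < D.w.length` and `D.w.get ⟨j, _⟩ = X i e p`).
`dimV`: the linear map `VVs k n w → (CI w → k) × k`, `F ↦ (lam w F, F 0 0 + F 0 1)` is injective by `rankA'`; so
`VVs k n w` is finite-dimensional and its finrank is at most `card (CI w) + 1`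
(`Module.Finite.of_injective`, `LinearMap.finrank_le_finrank_of_injective`).
`rankC1`, `k = ZMod 3` (`2 ≠ 0` there; `Fact (Nat.Prime 3)`): by `rankB` (`FitW D.w n n` from `run_fit`,
`n ≥ 1` as `n` is odd) the finrank of `VVs` is at least `card (CI w) + 1`: so the injective map above is bijective
(`LinearMap.injective_iff_surjective_of_finrank_eq_finrank`), hence for each `v` there is a
valid `F` with `lam w F u = if u = v then 1 else 0`.
-/

namespace FPS

open Letter

theorem rankA' {k : Type} [Field k] (h2 : (2 : k) ≠ 0) {D : Dg} (hK : IsKnot .RP3 D)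
    (hodd : Odd D.s.length) (F : ℕ → ℕ → k) (hF : VV D.s.length D.w F)
    (hlam : ∀ v : CI D.w, lam D.w F v.1 = 0) (h0 : F 0 0 + F 0 1 = 0) : F = 0 := by
  refine rankA h2 hK hodd F hF ?_ h0
  intro j i e p hj
  obtain ⟨hj', hj2⟩ := List.getElem?_eq_some_iff.1 hj
  have h3 : D.w.get ⟨j, hj'⟩ = .X i e p := hj2
  have h5 : isX (D.w.get ⟨j, hj'⟩) = true := by
    rw [h3]
    rfl
  have h4 : lamL (D.w.get ⟨j, hj'⟩) (F j) (F (j + 1)) = 0 := hlam ⟨⟨j, hj'⟩, h5⟩
  rw [h3] at h4
  exact h4

theorem rkC_lamL_add {k : Type} [Field k] (l : Letter) (f g f' g' : ℕ → k) :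
    lamL l (f + f') (g + g') = lamL l f g + lamL l f' g' := by
  cases l with
  | X i e p => simp only [lamL, Pi.add_apply]; ring
  | cup i o => simp [lamL]
  | cap i => simp [lamL]

theorem rkC_lamL_smul {k : Type} [Field k] (c : k) (l : Letter) (f g : ℕ → k) :
    lamL l (c • f) (c • g) = c * lamL l f g := by
  cases l with
  | X i e p => simp only [lamL, Pi.smul_apply, smul_eq_mul]; ring
  | cup i o => simp [lamL]
  | cap i => simp [lamL]

/-- The linear map of the dimension count. -/
def rkCmap (k : Type) [Field k] (n : ℕ) (w : List Letter) :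
    VVs k n w →ₗ[k] (CI w → k) × k where
  toFun F := (fun v => lam w F.1 v.1, F.1 0 0 + F.1 0 1)
  map_add' F G := by
    refine Prod.ext ?_ ?_
    · funext v
      exact rkC_lamL_add _ _ _ _ _
    · change (F.1 0 0 + G.1 0 0) + (F.1 0 1 + G.1 0 1) = (F.1 0 0 + F.1 0 1) + (G.1 0 0 + G.1 0 1)
      ring
  map_smul' c F := by
    refine Prod.ext ?_ ?_
    · funext v
      exact rkC_lamL_smul _ _ _ _
    · change c * F.1 0 0 + c * F.1 0 1 = c * (F.1 0 0 + F.1 0 1)
      ring

theorem rkCmap_inj {k : Type} [Field k] (h2 : (2 : k) ≠ 0) {D : Dg} (hK : IsKnot .RP3 D)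
    (hodd : Odd D.s.length) : Function.Injective (rkCmap k D.s.length D.w) := by
  rw [injective_iff_map_eq_zero]
  intro F hF
  apply Subtype.ext
  refine rankA' h2 hK hodd F.1 F.2 ?_ ?_
  · intro v
    exact congrFun (congrArg Prod.fst hF) v
  · exact congrArg Prod.snd hF

theorem dimV (k : Type) [Field k] (h2 : (2 : k) ≠ 0) {D : Dg} (hK : IsKnot .RP3 D)
    (hodd : Odd D.s.length) : FiniteDimensional k (VVs k D.s.length D.w) ∧
    Module.finrank k (VVs k D.s.length D.w) ≤ Fintype.card (CI D.w) + 1 := by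
  have hinj := rkCmap_inj h2 hK hodd
  have hfin : FiniteDimensional k (VVs k D.s.length D.w) := Module.Finite.of_injective _ hinj
  refine ⟨hfin, ?_⟩
  have h := LinearMap.finrank_le_finrank_of_injective hinj
  rw [Module.finrank_prod, Module.finrank_fintype_fun_eq_card, Module.finrank_self] at h
  exact h

theorem rankC1 {D : Dg} (hK : IsKnot .RP3 D) (hodd : Odd D.s.length) (v : CI D.w) :
    ∃ F : ℕ → ℕ → ZMod 3, VV D.s.length D.w F ∧
      ∀ u : CI D.w, lam D.w F u.1 = if u = v then 1 else 0 := by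
  have h2 : (2 : ZMod 3) ≠ 0 := by decide
  have hinj := rkCmap_inj h2 hK hodd
  obtain ⟨hfin, hle⟩ := dimV (ZMod 3) h2 hK hodd
  have hn : 1 ≤ D.s.length := hodd.pos
  have hfit : FitW D.w D.s.length D.s.length := by
    have h := run_fit D.w D.s D.s.reverse hK.1
    rwa [List.length_reverse] at h
  obtain ⟨M, iM1, iM2, iM3, H, hH, hHV, hM⟩ := rankB (ZMod 3) D.s.length hn D.w hfit
  have hge : Fintype.card (CI D.w) + 1 ≤ Module.finrank (ZMod 3) (VVs (ZMod 3) D.s.length D.w) := by
    rw [card_CI]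
    refine hM.trans ?_
    refine LinearMap.finrank_le_finrank_of_injective
      (f := LinearMap.codRestrict (VVs (ZMod 3) D.s.length D.w) H (fun x => hHV x)) ?_
    intro x y hxy
    apply hH
    exact congrArg Subtype.val hxy
  have heq : Module.finrank (ZMod 3) (VVs (ZMod 3) D.s.length D.w)
      = Module.finrank (ZMod 3) ((CI D.w → ZMod 3) × ZMod 3) := by
    rw [Module.finrank_prod, Module.finrank_fintype_fun_eq_card, Module.finrank_self]
    exact le_antisymm hle hge
  have hsurj := (LinearMap.injective_iff_surjective_of_finrank_eq_finrank heq).1 hinj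
  obtain ⟨F, hF⟩ := hsurj (fun u => if u = v then 1 else 0, 0)
  refine ⟨F.1, F.2, fun u => ?_⟩
  exact congrFun (congrArg Prod.fst hF) u

end FPS
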