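import Mathlib
import Pool.Agent.H61.RP.CrossCard

/-!
MODULE RankC2 (about 70 lines).  Integral lifts with an invertible Gram matrix.
From labellings `F v` over `ZMod 3` dual to the crossings define `A v j q = ((F v j q).val : ℤ)`, and
`a v = (A v : ℚ)`.  They are valid labellings over `ℚ`, because the conditions of `VV` are equalities between
labels and vanishing of labels (`ZMod.val_zero`): prove a general lemma: for a map `τ : k → k'` with
`τ 0 = 0`: `VV n w F → VV n w (fun j q => τ (F j q))` (induction on the word).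
Gram matrix: `Bf w (a v) (a u) = (Bf w (A v) (A u) : ℤ)` (`Bf_cast`), and mod 3 (`Bf_mod3`, `ZMod.natCast_zmod_val`)
it is `∑ x, sgX x * δ_{x v} * δ_{x u} = if v = u then sgX v else 0`.  So the integer Gram matrix maps to a
diagonal matrix mod 3 with nonzero entries: its determinant mod 3 is `∏ sgX v ≠ 0`
(`Matrix.det_diagonal`, `RingHom.map_det`), so the integer determinant and the rational one are nonzero
(`Matrix.det` commutes with `Int.castRingHom ℚ`).
-/

namespace FPS

open Letter

private theorem RankC2_rel {k k' : Type} (τ : k → k') (l : Letter) (f g : ℕ → k)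
    (h : Rel l f g) : Rel l (fun q => τ (f q)) (fun q => τ (g q)) := by
  cases l with
  | X i e p =>
    intro q hq
    exact congrArg τ (h q hq)
  | cup i o => exact ⟨fun q hq => congrArg τ (h.1 q hq), fun q hq => congrArg τ (h.2 q hq)⟩
  | cap i => exact ⟨fun q hq => congrArg τ (h.1 q hq), fun q hq => congrArg τ (h.2 q hq)⟩

private theorem RankC2_val {k k' : Type} [Zero k] [Zero k'] (τ : k → k') (h0 : τ 0 = 0)
    (w : List Letter) (F : ℕ → ℕ → k) (h : Val w F) : Val w (fun j q => τ (F j q)) := by
  induction w generalizing F with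
  | nil =>
    intro j
    funext q
    have h1 : F (j + 1) q = 0 := congrFun (h j) q
    show τ (F (j + 1) q) = 0
    rw [h1, h0]
  | cons l w ih => exact ⟨RankC2_rel τ l _ _ h.1, ih (fun j => F (j + 1)) h.2⟩

private theorem RankC2_vv {k k' : Type} [Zero k] [Zero k'] (τ : k → k') (h0 : τ 0 = 0) (n : ℕ)
    (w : List Letter) (F : ℕ → ℕ → k) (h : VV n w F) : VV n w (fun j q => τ (F j q)) := by
  refine ⟨RankC2_val τ h0 w F h.1, fun q hq => ?_, fun q hq => ?_⟩
  · show τ (F 0 q) = 0
    rw [h.2.1 q hq, h0]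
  · exact congrArg τ (h.2.2 q hq)

theorem rankC2 (n : ℕ) (w : List Letter)
    (h : ∀ v : CI w, ∃ F : ℕ → ℕ → ZMod 3, VV n w F ∧
      ∀ u : CI w, lam w F u.1 = if u = v then 1 else 0) :
    ∃ a : CI w → (ℕ → ℕ → ℚ), (∀ v, VV n w (a v)) ∧
      (Matrix.of fun v u => Bf w (a v) (a u)).det ≠ 0 := by
  have : Fact (Nat.Prime 3) := ⟨Nat.prime_three⟩
  choose F hF hlam using h
  let A : CI w → ℕ → ℕ → ℤ := fun v j q => ((F v j q).val : ℤ)
  have hA : ∀ v, (fun j q => ((A v j q : ℤ) : ZMod 3)) = F v := by
    intro v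
    funext j q
    show (((F v j q).val : ℤ) : ZMod 3) = F v j q
    rw [Int.cast_natCast, ZMod.natCast_zmod_val]
  refine ⟨fun v j q => ((A v j q : ℤ) : ℚ), fun v => ?_, ?_⟩
  · exact RankC2_vv (fun x : ZMod 3 => (((x.val : ℤ)) : ℚ)) (by simp) n w (F v) (hF v)
  · let G : Matrix (CI w) (CI w) ℤ := Matrix.of fun v u => Bf w (A v) (A u)
    have h1 : (Matrix.of fun v u : CI w => Bf w (fun j q => ((A v j q : ℤ) : ℚ))
        (fun j q => ((A u j q : ℤ) : ℚ))) = G.map (Int.castRingHom ℚ) := by
      ext v u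
      exact Bf_cast w (A v) (A u)
    have h2 : G.map (Int.castRingHom (ZMod 3)) =
        Matrix.diagonal fun v : CI w => sgX (w.get v.1) := by
      ext v u
      show ((Bf w (A v) (A u) : ℤ) : ZMod 3) = _
      rw [Bf_mod3, hA, hA, Matrix.diagonal_apply, Finset.sum_eq_single v]
      · rw [hlam, hlam, if_pos rfl, mul_one]
        by_cases hvu : v = u
        · rw [if_pos hvu, if_pos hvu, mul_one]
        · rw [if_neg hvu, if_neg hvu, mul_zero]
      · intro x _ hx
        rw [hlam, if_neg hx, mul_zero, zero_mul]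
      · intro hv
        exact absurd (Finset.mem_univ v) hv
    have h3 : (G.det : ZMod 3) ≠ 0 := by
      have h4 : (G.det : ZMod 3) = (G.map (Int.castRingHom (ZMod 3))).det :=
        RingHom.map_det (Int.castRingHom (ZMod 3)) G
      rw [h4, h2, Matrix.det_diagonal]
      exact Finset.prod_ne_zero_iff.2 fun v _ => sgX_ne_zero _ v.2
    have h5 : G.det ≠ 0 := by
      intro h6
      rw [h6] at h3
      exact h3 Int.cast_zero
    have h7 : (G.map (Int.castRingHom ℚ)).det = (G.det : ℚ) :=
      (RingHom.map_det (Int.castRingHom ℚ) G).symm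
    rw [h1, h7]
    exact Int.cast_ne_zero.2 h5

end FPS
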