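import Mathlib
import Pool.Agent.H61.RP.RankC1
import Pool.Agent.H61.RP.RankC2
import Pool.Agent.H61.RP.LinD

/-!
MODULE RankD (about 70 lines).  `V = VVs ℚ D.s.length D.w`, `B = (BL D.w).domRestrict₁₂ V V` (or
`LinearMap.compl₁₂` with `V.subtype`), symmetric by `Bf_symm`; `a` from `rankC1`, `rankC2`; `dimV ℚ`.
`P` = the range of the family of `E true`, as a submodule of `V` (`LinearMap.codRestrict`, `LinearMap.range`),
`finrank P = finrank M` (injective), on it `0 ≤ Qf = B x x` (`Bf_self`); `N` = the same for `E false`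
(`sg false = -1`).  `linD` gives `finrank M₁ + finrank M₂ ≤ card (CI w) + 2`, and
`card_CI`: `cs true w + cs false w + a + b ≤ cs true w + cs false w + 2`.
-/

namespace FPS

open Letter

theorem rank_bound {D : Dg} (hK : IsKnot .RP3 D) (hodd : Odd D.s.length) {a b : ℤ}
    (h1 : E true D.s.length D.w a) (h2 : E false D.s.length D.w b) : a + b ≤ 2 := by
  classical
  obtain ⟨M₁, _, _, _, H₁, hi₁, hV₁, hq₁, hc₁⟩ := h1
  obtain ⟨M₂, _, _, _, H₂, hi₂, hV₂, hq₂, hc₂⟩ := h2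
  obtain ⟨hfin, hdim⟩ := dimV ℚ two_ne_zero hK hodd
  obtain ⟨A, hAV, hdet⟩ := rankC2 D.s.length D.w (rankC1 hK hodd)
  let V : Submodule ℚ (ℕ → ℕ → ℚ) := VVs ℚ D.s.length D.w
  have hfinV : FiniteDimensional ℚ V := hfin
  let B : V →ₗ[ℚ] V →ₗ[ℚ] ℚ := (BL D.w).domRestrict₁₂ V V
  have hB : ∀ x y : V, B x y = Bf D.w x.1 y.1 := fun x y => rfl
  let G₁ : M₁ →ₗ[ℚ] V := H₁.codRestrict V (fun m => hV₁ m)
  let G₂ : M₂ →ₗ[ℚ] V := H₂.codRestrict V (fun m => hV₂ m)
  have hG₁ : Function.Injective G₁ := by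
    intro x y hxy
    exact hi₁ (congrArg Subtype.val hxy)
  have hG₂ : Function.Injective G₂ := by
    intro x y hxy
    exact hi₂ (congrArg Subtype.val hxy)
  have hdet' : (Matrix.of fun v u => B (⟨A v, hAV v⟩ : V) (⟨A u, hAV u⟩ : V)).det ≠ 0 := hdet
  have hmain := linD B (fun x y => by rw [hB, hB, Bf_symm]) (fun v => (⟨A v, hAV v⟩ : V)) hdet' hdim
    (LinearMap.range G₁) (LinearMap.range G₂)
    (by
      rintro _ ⟨m, rfl⟩
      rw [hB, Bf_self]
      have h : 0 ≤ Qf D.w (H₁ m) := by simpa [sg] using hq₁ m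
      exact h)
    (by
      rintro _ ⟨m, rfl⟩
      rw [hB, Bf_self]
      have h : Qf D.w (H₂ m) ≤ 0 := by simpa [sg] using hq₂ m
      exact h)
  rw [LinearMap.finrank_range_of_inj hG₁, LinearMap.finrank_range_of_inj hG₂, card_CI] at hmain
  omega

end FPS
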