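import Mathlib
import Pool.Agent.H61.RP.Supp

/-!
MODULE SPole (about 250 lines).  A strand is pulled over the pole of the projective plane.
Put `m = t.length + 1` (the number of strands on which `w` runs, `FitW w m m` by `run_fit`), `N = w.length`.
`A` = diagram `(m + 1, w)` (`w` and one more strand on the right), `B` = diagram `(m - 1, w')` with
`w' = cup 0 (!o) :: w.map (shift 1) ++ [cap 0]`.
Let `lv : ℕ → ℕ` be the number of strands of `w` at level `j` (define `lv w m j` by recursion:
`lv [] m j = m`, `lv (l :: w) m 0 = m`, `lv (l :: w) m (j+1) = lv w (m + l.outw - l.inw) j`).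

A labelling `F` of `A`: `F j` for `j ≤ N`, slots `0..lv j` belong to `w`, slot `lv j + 1` is the outer region,
zero beyond.  The letters of `w` do not touch slot `lv j + 1`; `F j (lv j + 1) = F 0 (m+1)` (as `last_word`
but for `FitW w (m+1) (m+1)`; note `Fit l n n'` implies `Fit l (n+1) (n'+1)`), which is
`F N 0 = F 0 0` by the seam and `first_word`.  Also `F j (lv j) = F 0 m` (last_word for `m`) and by the seam
`F N m = F 0 1`, so `F 0 m = F 0 1`.
FORWARD (A to B): `a := F 0 1`.  `G 0 q = if q < m then F 0 (q+1) else 0`;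
`G (j+1) q = if q = 0 then a else if q ≤ lv j + 1 then F j (q-1) else 0` for `j ≤ N`;
`G (N+2) q = if q < m then F N (q+1) else 0`; `G j = 0` for `j > N + 2`.
Relations: cup: `G 1 q = G 0 q` for `q ≤ 0`: `a = F 0 1`; `G 1 (q+2) = G 0 q`: `F 0 (q+1)` for `q+2 ≤ m+1`.
Middle: `Rel (l.shift 1) (G (j+1)) (G (j+2))` from `Rel l (F j) (F (j+1))`.  Cap: `G (N+2) 0 = F N 1` and
`G (N+1) 0 = a`: need `F N 1 = a`: seam `F N 1 = F 0 m = F 0 1`; `G (N+2) q = G (N+1) (q+2) = F N (q+1)`.
Seam for `B`: `G (N+2) q = G 0 (m-1-q)` for `q ≤ m - 1`: `F N (q+1) = F 0 (m - q)`, the seam of `A`.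
The form is the same (shift by one slot).  Injective: `G = 0` implies `F j q = 0` for `q ≤ lv j`, and
`F j (lv j + 1) = F 0 0 = 0`, beyond it 0.
BACKWARD (B to A): `F j q = if q ≤ lv j then G (j+1) (q+1) else if q = lv j + 1 then G 1 1 else 0` for `j ≤ N`.
(`G 1 1` is the label of slot 0 of `w` at its level 0; it is the label of slot 0 of `w` at each level.)
Seam of `A`: `F N q = F 0 (m+1-q)`: `q = 0`: `G (N+1) 1 = G 1 1`; `q = m+1`: same; `1 ≤ q ≤ m`: `G (N+1) (q+1) =
G (N+2) (q-1) = G 0 (m-q) = G 1 (m-q+2)`, correct.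
Injective: `F = 0` gives `G (j+1) (q+1) = 0` for `q ≤ lv j`; `G 0 q = G 1 (q+2) = 0`; `G (j+1) 0 = G 0 0 = 0`.
`cs σ w' = cs σ w`.
-/

namespace FPS

open Letter

/-- Number of strands at each level. -/
private def FitL : List Letter → (ℕ → ℕ) → Prop
  | [], _ => True
  | l :: w, L => Fit l (L 0) (L 1) ∧ FitL w (fun j => L (j + 1))

private theorem exists_fitL (w : List Letter) (n m : ℕ) (h : FitW w n m) :
    ∃ L : ℕ → ℕ, L 0 = n ∧ L w.length = m ∧ FitL w L := by
  induction w generalizing n with
  | nil =>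
    simp only [FitW] at h
    exact ⟨fun _ => n, rfl, h, trivial⟩
  | cons l w ih =>
    obtain ⟨r, h1, h2⟩ := h
    obtain ⟨L, e0, e1, hL⟩ := ih r h2
    refine ⟨fun j => if j = 0 then n else L (j - 1), by simp, ?_, ?_, ?_⟩
    · simp only [List.length_cons]
      rw [if_neg (by omega), Nat.add_sub_cancel, e1]
    · change Fit l n (L 0)
      rw [e0]
      exact h1
    · have : (fun j => (fun j => if j = 0 then n else L (j - 1)) (j + 1)) = L := by
        funext j
        simp
      rw [this]
      exact hL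

private def up (n : ℕ) (a : ℚ) (f : ℕ → ℚ) : ℕ → ℚ :=
  fun q => if q = 0 then a else if q ≤ n + 1 then f (q - 1) else 0

private def dn (m : ℕ) (f : ℕ → ℚ) : ℕ → ℚ := fun q => if q < m then f (q + 1) else 0

private def bw (n : ℕ) (c : ℚ) (g : ℕ → ℚ) : ℕ → ℚ :=
  fun q => if q ≤ n then g (q + 1) else if q = n + 1 then c else 0

private theorem up_zero (n : ℕ) (a : ℚ) (f : ℕ → ℚ) : up n a f 0 = a := by simp [up]

private theorem up_in {n q : ℕ} (a : ℚ) (f : ℕ → ℚ) (h : q ≤ n) : up n a f (q + 1) = f q := by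
  simp [up, h]

private theorem up_out {n q : ℕ} (a : ℚ) (f : ℕ → ℚ) (h : n < q) : up n a f (q + 1) = 0 := by
  simp [up, Nat.not_le.mpr h]

private theorem dn_in {m q : ℕ} (f : ℕ → ℚ) (h : q < m) : dn m f q = f (q + 1) := by
  simp [dn, h]

private theorem dn_out {m q : ℕ} (f : ℕ → ℚ) (h : m ≤ q) : dn m f q = 0 := by
  simp [dn, Nat.not_lt.mpr h]

private theorem bw_in {n q : ℕ} (c : ℚ) (g : ℕ → ℚ) (h : q ≤ n) : bw n c g q = g (q + 1) := by
  simp [bw, h]

private theorem bw_eq (n : ℕ) (c : ℚ) (g : ℕ → ℚ) : bw n c g (n + 1) = c := by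
  simp [bw]

private theorem bw_out {n q : ℕ} (c : ℚ) (g : ℕ → ℚ) (h : n + 1 < q) : bw n c g q = 0 := by
  have h1 : ¬ q ≤ n := by omega
  have h2 : ¬ q = n + 1 := by omega
  simp [bw, h1, h2]

private theorem fit_shift {l : Letter} {n m : ℕ} (h : Fit l n m) :
    Fit (l.shift 1) (n + 1) (m + 1) := by
  cases l <;> simp only [Fit, Letter.shift] at h ⊢ <;> omega

private theorem rel_up {l : Letter} {n m : ℕ} (h : Fit l n m) {f g : ℕ → ℚ} (a : ℚ)
    (hr : Rel l f g) : Rel (l.shift 1) (up n a f) (up m a g) := by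
  cases l with
  | X i e p =>
    simp only [Fit] at h
    obtain ⟨h1, rfl⟩ := h
    simp only [Letter.shift, Rel] at hr ⊢
    intro q hq
    rcases q with _ | q
    · rw [up_zero, up_zero]
    · rcases Nat.lt_or_ge m q with h2 | h2
      · rw [up_out _ _ h2, up_out _ _ h2]
      · rw [up_in _ _ h2, up_in _ _ h2]
        exact hr q (by omega)
  | cup i o =>
    simp only [Fit] at h
    obtain ⟨h1, rfl⟩ := h
    obtain ⟨ha, hb⟩ := hr
    constructor
    · intro q hq
      rcases q with _ | q
      · rw [up_zero, up_zero]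
      · rw [up_in _ _ (by omega), up_in _ _ (by omega)]
        exact ha q (by omega)
    · intro q hq
      rcases q with _ | q
      · omega
      · rcases Nat.lt_or_ge n q with h2 | h2
        · rw [show q + 1 + 2 = q + 2 + 1 by omega, up_out _ _ (by omega), up_out _ _ h2]
        · rw [show q + 1 + 2 = q + 2 + 1 by omega, up_in _ _ (by omega), up_in _ _ h2]
          exact hb q (by omega)
  | cap i =>
    simp only [Fit] at h
    obtain ⟨h1, h2⟩ := h
    obtain ⟨ha, hb⟩ := hr
    constructor
    · intro q hq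
      rcases q with _ | q
      · rw [up_zero, up_zero]
      · rw [up_in _ _ (by omega), up_in _ _ (by omega)]
        exact ha q (by omega)
    · intro q hq
      rcases q with _ | q
      · omega
      · rcases Nat.lt_or_ge m q with h3 | h3
        · rw [show q + 1 + 2 = q + 2 + 1 by omega, up_out _ _ h3, up_out _ _ (by omega)]
        · rw [show q + 1 + 2 = q + 2 + 1 by omega, up_in _ _ h3, up_in _ _ (by omega)]
          exact hb q (by omega)

private theorem wt_up {l : Letter} {n m : ℕ} (h : Fit l n m) (f g : ℕ → ℚ) (a : ℚ) :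
    wt (l.shift 1) (up n a f) (up m a g) = wt l f g := by
  cases l with
  | X i e p =>
    simp only [Fit] at h
    obtain ⟨h1, rfl⟩ := h
    have e0 : up m a f (i + 1) = f i := up_in _ _ (by omega)
    have e2 : up m a f (i + 1 + 2) = f (i + 2) := by
      rw [show i + 1 + 2 = i + 2 + 1 by omega]
      exact up_in _ _ (by omega)
    have e1 : up m a f (i + 1 + 1) = f (i + 1) := up_in _ _ (by omega)
    have e3 : up m a g (i + 1 + 1) = g (i + 1) := up_in _ _ (by omega)
    cases p
    · simp only [Letter.shift, wt, e0, e1, e2, e3]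
    · simp only [Letter.shift, wt, e0, e1, e2, e3]
  | cup i o => rfl
  | cap i => rfl

private theorem rel_bw {l : Letter} {n m : ℕ} (h : Fit l n m) {f g : ℕ → ℚ} (c : ℚ)
    (hr : Rel (l.shift 1) f g) : Rel l (bw n c f) (bw m c g) := by
  cases l with
  | X i e p =>
    simp only [Fit] at h
    obtain ⟨h1, rfl⟩ := h
    simp only [Letter.shift, Rel] at hr ⊢
    intro q hq
    rcases Nat.lt_or_ge m q with h2 | h2
    · rcases Nat.lt_or_ge (m + 1) q with h3 | h3
      · rw [bw_out _ _ h3, bw_out _ _ h3]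
      · obtain rfl : q = m + 1 := by omega
        rw [bw_eq, bw_eq]
    · rw [bw_in _ _ h2, bw_in _ _ h2]
      exact hr (q + 1) (by omega)
  | cup i o =>
    simp only [Fit] at h
    obtain ⟨h1, rfl⟩ := h
    obtain ⟨ha, hb⟩ := hr
    constructor
    · intro q hq
      rw [bw_in _ _ (by omega), bw_in _ _ (by omega)]
      exact ha (q + 1) (by omega)
    · intro q hq
      rcases Nat.lt_or_ge n q with h2 | h2
      · rcases Nat.lt_or_ge (n + 1) q with h3 | h3
        · rw [bw_out _ _ (by omega), bw_out _ _ h3]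
        · obtain rfl : q = n + 1 := by omega
          rw [show n + 1 + 2 = n + 2 + 1 by omega, bw_eq, bw_eq]
      · rw [bw_in _ _ (by omega), bw_in _ _ h2]
        have := hb (q + 1) (by omega)
        rw [show q + 2 + 1 = q + 1 + 2 by omega]
        exact this
  | cap i =>
    simp only [Fit] at h
    obtain ⟨h1, h2⟩ := h
    subst h2
    obtain ⟨ha, hb⟩ := hr
    constructor
    · intro q hq
      rw [bw_in _ _ (by omega), bw_in _ _ (by omega)]
      exact ha (q + 1) (by omega)
    · intro q hq
      rcases Nat.lt_or_ge m q with h2 | h2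
      · rcases Nat.lt_or_ge (m + 1) q with h3 | h3
        · rw [bw_out _ _ (by omega), bw_out _ _ (by omega)]
        · obtain rfl : q = m + 1 := by omega
          rw [show m + 1 + 2 = m + 2 + 1 by omega, bw_eq, bw_eq]
      · rw [bw_in _ _ (by omega), bw_in _ _ (by omega)]
        have := hb (q + 1) (by omega)
        rw [show q + 2 + 1 = q + 1 + 2 by omega]
        exact this

private theorem wt_bw {l : Letter} {n m : ℕ} (h : Fit l n m) (f g : ℕ → ℚ) (c : ℚ) :
    wt l (bw n c f) (bw m c g) = wt (l.shift 1) f g := by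
  cases l with
  | X i e p =>
    simp only [Fit] at h
    obtain ⟨h1, rfl⟩ := h
    have e0 : bw m c f i = f (i + 1) := bw_in _ _ (by omega)
    have e2 : bw m c f (i + 2) = f (i + 1 + 2) := by
      rw [show i + 1 + 2 = i + 2 + 1 by omega]
      exact bw_in _ _ (by omega)
    have e1 : bw m c f (i + 1) = f (i + 1 + 1) := bw_in _ _ (by omega)
    have e3 : bw m c g (i + 1) = g (i + 1 + 1) := bw_in _ _ (by omega)
    cases p
    · simp only [Letter.shift, wt, e0, e1, e2, e3]
    · simp only [Letter.shift, wt, e0, e1, e2, e3]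
  | cup i o => rfl
  | cap i => rfl

private theorem mid_up (w : List Letter) (L : ℕ → ℕ) (F : ℕ → ℕ → ℚ) (a : ℚ) (hL : FitL w L)
    (hF : Pre w F) : Pre (w.map (Letter.shift 1)) (fun j => up (L j) a (F j)) ∧
      Qf (w.map (Letter.shift 1)) (fun j => up (L j) a (F j)) = Qf w F := by
  induction w generalizing L F with
  | nil => exact ⟨trivial, rfl⟩
  | cons l w ih =>
    obtain ⟨h1, h2⟩ := hL
    obtain ⟨h3, h4⟩ := hF
    obtain ⟨h5, h6⟩ := ih (fun j => L (j + 1)) (fun j => F (j + 1)) h2 h4
    refine ⟨⟨rel_up h1 a h3, h5⟩, ?_⟩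
    change wt (l.shift 1) (up (L 0) a (F 0)) (up (L 1) a (F 1)) + _ = wt l (F 0) (F 1) + _
    rw [wt_up h1]
    exact congrArg (fun x => wt l (F 0) (F 1) + x) h6

private theorem mid_bw (w : List Letter) (L : ℕ → ℕ) (G : ℕ → ℕ → ℚ) (c : ℚ) (hL : FitL w L)
    (hG : Pre (w.map (Letter.shift 1)) G) : Pre w (fun j => bw (L j) c (G j)) ∧
      Qf w (fun j => bw (L j) c (G j)) = Qf (w.map (Letter.shift 1)) G := by
  induction w generalizing L G with
  | nil => exact ⟨trivial, rfl⟩
  | cons l w ih =>
    obtain ⟨h1, h2⟩ := hL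
    obtain ⟨h3, h4⟩ := hG
    obtain ⟨h5, h6⟩ := ih (fun j => L (j + 1)) (fun j => G (j + 1)) h2 h4
    refine ⟨⟨rel_bw h1 c h3, h5⟩, ?_⟩
    change wt l (bw (L 0) c (G 0)) (bw (L 1) c (G 1)) + _ = wt (l.shift 1) (G 0) (G 1) + _
    rw [wt_bw h1]
    exact congrArg (fun x => wt (l.shift 1) (G 0) (G 1) + x) h6

/-- Facts on labellings of a shifted word. -/
private theorem one_word (w : List Letter) (G : ℕ → ℕ → ℚ)
    (hG : Pre (w.map (Letter.shift 1)) G) : ∀ j, j ≤ w.length → G j 1 = G 0 1 := by
  induction w generalizing G with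
  | nil =>
    intro j hj
    obtain rfl : j = 0 := by simpa using hj
    rfl
  | cons l w ih =>
    obtain ⟨h3, h4⟩ := hG
    intro j hj
    rcases j with _ | j
    · rfl
    · have h5 := ih (fun j => G (j + 1)) h4 j (by simpa using hj)
      have h6 : G 1 1 = G 0 1 := by
        cases l with
        | X i e p => exact h3 1 (by omega)
        | cup i o => exact h3.1 1 (by omega)
        | cap i => exact h3.1 1 (by omega)
      rw [← h6]
      exact h5

private theorem supp_lev (w : List Letter) (L : ℕ → ℕ) (F : ℕ → ℕ → ℚ)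
    (hL : FitL w L) (hF : Pre w F) (h0 : ∀ q, L 0 < q → F 0 q = 0) :
    ∀ j, j ≤ w.length → ∀ q, L j < q → F j q = 0 := by
  induction w generalizing L F with
  | nil =>
    intro j hj
    obtain rfl : j = 0 := by simpa using hj
    exact h0
  | cons l w ih =>
    obtain ⟨h1, h2⟩ := hL
    obtain ⟨h3, h4⟩ := hF
    intro j hj
    rcases j with _ | j
    · exact h0
    · exact ih (fun j => L (j + 1)) (fun j => F (j + 1)) h2 h4 ((supp_step h1 h3).1 h0) j
        (by simpa using hj)

private theorem last_lev (w : List Letter) (L : ℕ → ℕ) (F : ℕ → ℕ → ℚ)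
    (hL : FitL w L) (hF : Pre w F) :
    ∀ j, j ≤ w.length → F j (L j) = F 0 (L 0) := by
  induction w generalizing L F with
  | nil =>
    intro j hj
    obtain rfl : j = 0 := by simpa using hj
    rfl
  | cons l w ih =>
    obtain ⟨h1, h2⟩ := hL
    obtain ⟨h3, h4⟩ := hF
    intro j hj
    rcases j with _ | j
    · rfl
    · rw [← last_step h1 h3]
      exact ih (fun j => L (j + 1)) (fun j => F (j + 1)) h2 h4 j (by simpa using hj)

private theorem fitL_succ (w : List Letter) (L : ℕ → ℕ) (hL : FitL w L) :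
    FitL w (fun j => L j + 1) := by
  induction w generalizing L with
  | nil => trivial
  | cons l w ih =>
    obtain ⟨h1, h2⟩ := hL
    refine ⟨?_, ih _ h2⟩
    cases l <;> simp only [Fit] at h1 ⊢ <;> omega

private theorem fitL_shift (w : List Letter) (L : ℕ → ℕ) (hL : FitL w L) :
    FitL (w.map (Letter.shift 1)) (fun j => L j + 1) := by
  induction w generalizing L with
  | nil => trivial
  | cons l w ih =>
    obtain ⟨h1, h2⟩ := hL
    exact ⟨fit_shift h1, ih _ h2⟩

private theorem E_map (σ : Bool) (n n' : ℕ) (w w' : List Letter) (e : ℤ)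
    (φ : (ℕ → ℕ → ℚ) →ₗ[ℚ] (ℕ → ℕ → ℚ))
    (h : ∀ F, VV n w F → VV n' w' (φ F) ∧ Qf w' (φ F) = Qf w F ∧ (φ F = 0 → F = 0))
    (hc : cs σ w' = cs σ w) (hE : E σ n w e) : E σ n' w' e := by
  obtain ⟨M, i1, i2, i3, H, hinj, hV, hpos, hdim⟩ := hE
  refine ⟨M, i1, i2, i3, φ.comp H, ?_, ?_, ?_, ?_⟩
  · rw [injective_iff_map_eq_zero]
    intro m hm
    apply hinj
    rw [map_zero]
    exact (h _ (hV m)).2.2 hm
  · intro m
    exact (h _ (hV m)).1
  · intro m
    have h1 := (h _ (hV m)).2.1
    have h2 := hpos m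
    rw [← h1] at h2
    exact h2
  · rw [hc]
    exact hdim

/-- The forward map. -/
private def poleF (N m : ℕ) (L : ℕ → ℕ) : (ℕ → ℕ → ℚ) →ₗ[ℚ] (ℕ → ℕ → ℚ) where
  toFun F := fun j => if j = 0 then dn m (F 0) else if j ≤ N + 1 then
    up (L (j - 1)) (F 0 1) (F (j - 1)) else if j = N + 2 then dn m (F N) else 0
  map_add' a b := by
    funext j q
    by_cases h1 : j = 0
    · by_cases h3 : q < m <;> simp [h1, dn, h3]
    · by_cases h2 : j ≤ N + 1
      · by_cases h3 : q = 0
        · simp [h1, h2, up, h3]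
        · by_cases h4 : q ≤ L (j - 1) + 1 <;> simp [h1, h2, up, h3, h4]
      · by_cases h3 : j = N + 2
        · by_cases h4 : q < m <;> simp [dn, h3, h4]
        · simp [h1, h2, h3]
  map_smul' c a := by
    funext j q
    by_cases h1 : j = 0
    · by_cases h3 : q < m <;> simp [h1, dn, h3]
    · by_cases h2 : j ≤ N + 1
      · by_cases h3 : q = 0
        · simp [h1, h2, up, h3]
        · by_cases h4 : q ≤ L (j - 1) + 1 <;> simp [h1, h2, up, h3, h4]
      · by_cases h3 : j = N + 2
        · by_cases h4 : q < m <;> simp [dn, h3, h4]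
        · simp [h1, h2, h3]

private theorem poleF_zero (N m : ℕ) (L : ℕ → ℕ) (F : ℕ → ℕ → ℚ) :
    poleF N m L F 0 = dn m (F 0) := rfl

private theorem poleF_mid {N m j : ℕ} (L : ℕ → ℕ) (F : ℕ → ℕ → ℚ) (h : j ≤ N) :
    poleF N m L F (j + 1) = up (L j) (F 0 1) (F j) := by
  change (if j + 1 = 0 then dn m (F 0) else if j + 1 ≤ N + 1 then
    up (L (j + 1 - 1)) (F 0 1) (F (j + 1 - 1)) else if j + 1 = N + 2 then dn m (F N) else 0) = _
  rw [if_neg (by omega), if_pos (by omega), Nat.add_sub_cancel]

private theorem poleF_end (N m : ℕ) (L : ℕ → ℕ) (F : ℕ → ℕ → ℚ) :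
    poleF N m L F (N + 2) = dn m (F N) := by
  change (if N + 2 = 0 then dn m (F 0) else if N + 2 ≤ N + 1 then
    up (L (N + 2 - 1)) (F 0 1) (F (N + 2 - 1)) else if N + 2 = N + 2 then dn m (F N) else 0) = _
  rw [if_neg (by omega), if_neg (by omega), if_pos rfl]

private theorem poleF_gt {N m j : ℕ} (L : ℕ → ℕ) (F : ℕ → ℕ → ℚ) (h : N + 2 < j) :
    poleF N m L F j = 0 := by
  change (if j = 0 then dn m (F 0) else if j ≤ N + 1 then
    up (L (j - 1)) (F 0 1) (F (j - 1)) else if j = N + 2 then dn m (F N) else 0) = _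
  rw [if_neg (by omega), if_neg (by omega), if_neg (by omega)]

/-- The backward map. -/
private def poleB (N : ℕ) (L : ℕ → ℕ) : (ℕ → ℕ → ℚ) →ₗ[ℚ] (ℕ → ℕ → ℚ) where
  toFun G := fun j => if j ≤ N then bw (L j) (G 1 1) (G (j + 1)) else 0
  map_add' a b := by
    funext j q
    by_cases h1 : j ≤ N
    · by_cases h3 : q ≤ L j
      · simp [h1, bw, h3]
      · by_cases h4 : q = L j + 1 <;> simp [h1, bw, h3, h4]
    · simp [h1]
  map_smul' c a := by
    funext j q
    by_cases h1 : j ≤ N
    · by_cases h3 : q ≤ L j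
      · simp [h1, bw, h3]
      · by_cases h4 : q = L j + 1 <;> simp [h1, bw, h3, h4]
    · simp [h1]

private theorem poleB_le {N j : ℕ} (L : ℕ → ℕ) (G : ℕ → ℕ → ℚ) (h : j ≤ N) :
    poleB N L G j = bw (L j) (G 1 1) (G (j + 1)) := by
  change (if j ≤ N then bw (L j) (G 1 1) (G (j + 1)) else 0) = _
  rw [if_pos h]

private theorem poleB_gt {N j : ℕ} (L : ℕ → ℕ) (G : ℕ → ℕ → ℚ) (h : N < j) :
    poleB N L G j = 0 := by
  change (if j ≤ N then bw (L j) (G 1 1) (G (j + 1)) else 0) = _
  rw [if_neg (by omega)]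

private theorem poleF_ok (w : List Letter) (m : ℕ) (L : ℕ → ℕ) (o : Bool) (hm : 1 ≤ m)
    (hL0 : L 0 = m) (hLN : L w.length = m) (hL : FitL w L)
    (F : ℕ → ℕ → ℚ) (hF : VV (m + 1) w F) :
    VV (m - 1) ([.cup 0 (!o)] ++ w.map (Letter.shift 1) ++ [.cap 0]) (poleF w.length m L F) ∧
      Qf ([.cup 0 (!o)] ++ w.map (Letter.shift 1) ++ [.cap 0]) (poleF w.length m L F) = Qf w F ∧
      (poleF w.length m L F = 0 → F = 0) := by
  obtain ⟨hV, hs, hseam⟩ := hF
  obtain ⟨hpre, htop⟩ := (Val_iff_Pre w F).1 hV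
  have hlast := last_lev w L F hL hpre w.length le_rfl
  rw [hLN, hL0] at hlast
  have hs1 := hseam 1 (by omega)
  have hsm := hseam m (by omega)
  rw [show m + 1 - 1 = m by omega] at hs1
  rw [show m + 1 - m = 1 by omega] at hsm
  have h01 : F w.length 1 = F 0 1 := by rw [hs1, ← hlast, hsm]
  obtain ⟨hmid, hmidQ⟩ := mid_up w L F (F 0 1) hL hpre
  have hmc : ∀ j, j ≤ (w.map (Letter.shift 1)).length →
      (fun j => poleF w.length m L F (j + 1)) j = (fun j => up (L j) (F 0 1) (F j)) j := by
    intro j hj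
    rw [List.length_map] at hj
    exact poleF_mid L F hj
  have hP1 : Pre (w.map (Letter.shift 1)) (fun j => poleF w.length m L F (j + 1)) :=
    (Pre_congr _ _ _ hmc).2 hmid
  have hQ1 : Qf (w.map (Letter.shift 1)) (fun j => poleF w.length m L F (j + 1)) = Qf w F := by
    rw [Qf_congr _ _ _ hmc, hmidQ]
  have hcup : Rel (.cup 0 (!o)) (poleF w.length m L F 0) (poleF w.length m L F 1) := by
    rw [poleF_zero, poleF_mid (j := 0) L F (Nat.zero_le _), hL0]
    constructor
    · intro q hq
      obtain rfl : q = 0 := by omega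
      rw [up_zero, dn_in _ (by omega)]
    · intro q _
      rcases Nat.lt_or_ge q m with h | h
      · rw [show q + 2 = q + 1 + 1 by omega, up_in _ _ (by omega), dn_in _ h]
      · rw [show q + 2 = q + 1 + 1 by omega, up_out _ _ (by omega), dn_out _ h]
  have hcap : Rel (.cap 0) (poleF w.length m L F (w.length + 1))
      (poleF w.length m L F (w.length + 2)) := by
    rw [poleF_end, poleF_mid L F le_rfl, hLN]
    constructor
    · intro q hq
      obtain rfl : q = 0 := by omega
      rw [up_zero, dn_in _ (by omega)]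
      exact h01
    · intro q _
      rcases Nat.lt_or_ge q m with h | h
      · rw [show q + 2 = q + 1 + 1 by omega, up_in _ _ (by omega), dn_in _ h]
      · rw [show q + 2 = q + 1 + 1 by omega, up_out _ _ (by omega), dn_out _ h]
  refine ⟨⟨?_, ?_, ?_⟩, ?_, ?_⟩
  · rw [Val_append, Pre_append]
    refine ⟨⟨⟨hcup, trivial⟩, ?_⟩, ?_, ?_⟩
    · exact hP1
    · rw [List.length_append, List.length_map, List.length_singleton]
      change Rel (.cap 0) (poleF w.length m L F (0 + (1 + w.length)))
        (poleF w.length m L F (1 + (1 + w.length)))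
      rw [show (0 : ℕ) + (1 + w.length) = w.length + 1 by omega,
        show (1 : ℕ) + (1 + w.length) = w.length + 2 by omega]
      exact hcap
    · intro j
      rw [List.length_append, List.length_map, List.length_singleton]
      exact poleF_gt L F (by omega)
  · intro q hq
    rw [poleF_zero, dn_out _ (by omega)]
  · intro q hq
    rw [List.length_append, List.length_append, List.length_map, List.length_singleton,
      List.length_singleton, show 1 + w.length + 1 = w.length + 2 by omega, poleF_end, poleF_zero,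
      dn_in _ (by omega), dn_in _ (by omega), hseam (q + 1) (by omega)]
    congr 1
    omega
  · rw [Qf_append, Qf_append]
    change (0 + 0) + Qf (w.map (Letter.shift 1)) (fun j => poleF w.length m L F (j + 1)) +
      (0 + 0) = _
    rw [hQ1]
    ring
  · intro h0
    have hA : ∀ j, j ≤ w.length → ∀ q, q ≤ L j → F j q = 0 := by
      intro j hj q hq
      rw [← up_in (F 0 1) (F j) hq, ← poleF_mid (m := m) L F hj, h0]
      rfl
    have h00 : F 0 0 = 0 := hA 0 (Nat.zero_le _) 0 (Nat.zero_le _)
    have hlast2 := last_lev w (fun j => L j + 1) F (fitL_succ w L hL) hpre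
    have hsm1 := hseam (m + 1) le_rfl
    rw [Nat.sub_self, h00] at hsm1
    have hN1 := hlast2 w.length le_rfl
    simp only [hLN, hL0] at hN1
    rw [hsm1] at hN1
    have hsup := supp_lev w (fun j => L j + 1) F (fitL_succ w L hL) hpre
      (by intro q hq; simp only [hL0] at hq; exact hs q hq)
    funext j q
    rcases Nat.lt_or_ge w.length j with hj | hj
    · rw [htop j hj]
      rfl
    · rcases Nat.lt_or_ge (L j) q with hq | hq
      · rcases Nat.lt_or_ge (L j + 1) q with hq2 | hq2
        · exact hsup j hj q hq2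
        · obtain rfl : q = L j + 1 := by omega
          have h5 := hlast2 j hj
          simp only [hL0] at h5
          rw [h5, ← hN1]
          rfl
      · exact hA j hj q hq

private theorem poleB_ok (w : List Letter) (m : ℕ) (L : ℕ → ℕ) (o : Bool) (hm : 1 ≤ m)
    (hL0 : L 0 = m) (hLN : L w.length = m) (hL : FitL w L)
    (G : ℕ → ℕ → ℚ)
    (hG : VV (m - 1) ([.cup 0 (!o)] ++ w.map (Letter.shift 1) ++ [.cap 0]) G) :
    VV (m + 1) w (poleB w.length L G) ∧
      Qf w (poleB w.length L G) = Qf ([.cup 0 (!o)] ++ w.map (Letter.shift 1) ++ [.cap 0]) G ∧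
      (poleB w.length L G = 0 → G = 0) := by
  obtain ⟨hV, hs, hseam⟩ := hG
  rw [Val_append, Pre_append] at hV
  obtain ⟨⟨⟨hcup, _⟩, hpre⟩, hcap, htop⟩ := hV
  replace hpre : Pre (w.map (Letter.shift 1)) (fun j => G (j + 1)) := hpre
  replace hcap : Rel (.cap 0) (G (w.length + 1)) (G (w.length + 2)) := by
    have : Rel (.cap 0) (G (0 + ([Letter.cup 0 (!o)] ++ w.map (Letter.shift 1)).length))
      (G (1 + ([Letter.cup 0 (!o)] ++ w.map (Letter.shift 1)).length)) := hcap
    rw [List.length_append, List.length_map, List.length_singleton] at this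
    rw [show (0 : ℕ) + (1 + w.length) = w.length + 1 by omega,
        show (1 : ℕ) + (1 + w.length) = w.length + 2 by omega] at this
    exact this
  replace htop : ∀ j, w.length + 2 < j → G j = 0 := by
    intro j hj
    have h1 := htop (j - 3 - w.length)
    have h2 : G (j - 3 - w.length + 1 + 1 +
      ([Letter.cup 0 (!o)] ++ w.map (Letter.shift 1)).length) = 0 := h1
    rw [List.length_append, List.length_map, List.length_singleton] at h2
    rw [show j - 3 - w.length + 1 + 1 + (1 + w.length) = j by omega] at h2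
    exact h2
  have hseam' : ∀ q, q ≤ m - 1 → G (w.length + 2) q = G 0 (m - 1 - q) := by
    intro q hq
    have := hseam q hq
    rw [List.length_append, List.length_append, List.length_map, List.length_singleton,
      List.length_singleton, show 1 + w.length + 1 = w.length + 2 by omega] at this
    exact this
  have hone : G (w.length + 1) 1 = G 1 1 := one_word w (fun j => G (j + 1)) hpre w.length le_rfl
  obtain ⟨hmid, hmidQ⟩ := mid_bw w L (fun j => G (j + 1)) (G 1 1) hL hpre
  have hmc : ∀ j, j ≤ w.length →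
      poleB w.length L G j = (fun j => bw (L j) (G 1 1) (G (j + 1))) j := by
    intro j hj
    exact poleB_le L G hj
  refine ⟨⟨?_, ?_, ?_⟩, ?_, ?_⟩
  · rw [Val_iff_Pre]
    exact ⟨(Pre_congr _ _ _ hmc).2 hmid, fun j hj => poleB_gt L G hj⟩
  · intro q hq
    rw [poleB_le L G (Nat.zero_le _), hL0, bw_out _ _ hq]
  · intro q hq
    rw [poleB_le L G (Nat.zero_le _), poleB_le L G le_rfl, hL0, hLN]
    rcases Nat.eq_zero_or_pos q with h | h
    · subst h
      rw [Nat.sub_zero, bw_in _ _ (Nat.zero_le _), bw_eq]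
      exact hone
    · rcases Nat.lt_or_ge m q with h2 | h2
      · obtain rfl : q = m + 1 := by omega
        rw [bw_eq, Nat.sub_self, bw_in _ _ (Nat.zero_le _)]
      · rw [bw_in _ _ h2, bw_in _ _ (by omega)]
        have h3 := hcap.2 (q - 1) (Nat.zero_le _)
        have h4 := hcup.2 (m - q) (Nat.zero_le _)
        have h5 := hseam' (q - 1) (by omega)
        rw [show q - 1 + 2 = q + 1 by omega] at h3
        rw [show m - 1 - (q - 1) = m - q by omega] at h5
        rw [show m + 1 - q + 1 = m - q + 2 by omega, h4, ← h3, h5]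
  · rw [Qf_append, Qf_append]
    change _ = (0 + 0) + Qf (w.map (Letter.shift 1)) (fun j => G (j + 1)) + (0 + 0)
    rw [Qf_congr _ _ _ hmc, hmidQ]
    ring
  · intro h0
    have hA : ∀ j, j ≤ w.length → ∀ q, q ≤ L j → G (j + 1) (q + 1) = 0 := by
      intro j hj q hq
      rw [← bw_in (G 1 1) (G (j + 1)) hq, ← poleB_le L G hj, h0]
      rfl
    have hG0 : G 0 = 0 := by
      funext q
      rcases Nat.lt_or_ge q m with h | h
      · have h4 := hcup.2 q (Nat.zero_le _)
        rw [← h4]
        exact hA 0 (Nat.zero_le _) (q + 1) (by omega)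
      · exact hs q (by omega)
    have hz : ∀ j, j ≤ w.length → G (j + 1) 0 = 0 := by
      intro j hj
      have h1 := first_word (w.map (Letter.shift 1)) (fun j => G (j + 1)) hpre j
        (by rw [List.length_map]; exact hj)
      have h2 : G 1 0 = G 0 0 := hcup.1 0 le_rfl
      have h3 : G (j + 1) 0 = G 1 0 := h1
      rw [h3, h2, hG0]
      rfl
    have hG1 : ∀ q, (fun j => L j + 1) 0 < q → (fun j => G (j + 1)) 0 q = 0 := by
      intro q hq
      simp only [hL0] at hq
      have h4 := hcup.2 (q - 2) (Nat.zero_le _)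
      rw [show q - 2 + 2 = q by omega] at h4
      change G 1 q = 0
      rw [h4, hG0]
      rfl
    have hsup := supp_lev (w.map (Letter.shift 1)) (fun j => L j + 1) (fun j => G (j + 1))
      (fitL_shift w L hL) hpre hG1
    have hGj : ∀ j, j ≤ w.length → G (j + 1) = 0 := by
      intro j hj
      funext q
      rcases q with _ | q
      · exact hz j hj
      · rcases Nat.lt_or_ge (L j) q with hq | hq
        · exact hsup j (by rw [List.length_map]; exact hj) (q + 1) (Nat.add_lt_add_right hq 1)
        · exact hA j hj q hq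
    funext j
    rcases j with _ | j
    · exact hG0
    · rcases Nat.lt_or_ge w.length j with hj | hj
      · rcases Nat.lt_or_ge (w.length + 1) j with hj2 | hj2
        · exact htop (j + 1) (by omega)
        · obtain rfl : j = w.length + 1 := by omega
          funext q
          have h3 := hcap.2 q (Nat.zero_le _)
          change G (w.length + 2) q = 0
          rw [h3, hGj w.length le_rfl]
          rfl
      · exact hGj j hj

private theorem cs_shift (σ : Bool) (w : List Letter) :
    cs σ (w.map (Letter.shift 1)) = cs σ w := by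
  induction w with
  | nil => rfl
  | cons l w ih =>
    have h1 : cnt σ (l.shift 1) = cnt σ l := by cases l <;> rfl
    change cnt σ (l.shift 1) + cs σ (w.map (Letter.shift 1)) = cnt σ l + cs σ w
    rw [h1, ih]

theorem E_pole (σ : Bool) (t : List Bool) (o : Bool) (w : List Letter)
    (hw : run (o :: t) w = some (o :: t.reverse)) (e : ℤ) :
    E σ ((o :: t) ++ [o]).length w e ↔
      E σ t.length ([.cup 0 (!o)] ++ w.map (Letter.shift 1) ++ [.cap 0]) e := by
  have h1 := run_fit w (o :: t) (o :: t.reverse) hw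
  simp only [List.length_cons, List.length_reverse] at h1
  obtain ⟨L, hL0, hLN, hL⟩ := exists_fitL w _ _ h1
  have e1 : ((o :: t) ++ [o]).length = (t.length + 1) + 1 := by simp
  have e2 : t.length = (t.length + 1) - 1 := by omega
  have hc : cs σ ([.cup 0 (!o)] ++ w.map (Letter.shift 1) ++ [.cap 0]) = cs σ w := by
    rw [cs_append, cs_append, cs_shift]
    change 0 + cs σ w + 0 = cs σ w
    omega
  rw [e1]
  constructor
  · intro hE
    exact E_map σ (t.length + 1 + 1) t.length w
      ([Letter.cup 0 (!o)] ++ w.map (Letter.shift 1) ++ [Letter.cap 0]) e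
      (poleF w.length (t.length + 1) L)
      (fun F hF => poleF_ok w (t.length + 1) L o (by omega) hL0 hLN hL F hF) hc hE
  · intro hE
    exact E_map σ t.length (t.length + 1 + 1)
      ([Letter.cup 0 (!o)] ++ w.map (Letter.shift 1) ++ [Letter.cap 0]) w e
      (poleB w.length L)
      (fun G hG => poleB_ok w (t.length + 1) L o (by omega) hL0 hLN hL G hG) hc.symm hE

end FPS
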