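import Mathlib
import Pool.Agent.H61.RP.Supp

/-!
MODULE SRot (about 200 lines).  The seam rotation.
Put `n = s.length`, `n' = t.length`, `N = w.length`; `Fit l n n'` by `act_fit`.  The diagram
`⟨s, l :: w⟩` is a link: `run t w = some s.reverse`, so `FitW w n' n`.

FORWARD.  `F` a valid labelling of `(n, l :: w)`, levels `0..N+1`, `F (N+1) q = F 0 (n - q)` for `q ≤ n`,
`F j = 0` for `j > N + 1`.  New labelling of `(n', w ++ [l.flip n])`, levels `0..N+1`:
`G j = F (j + 1)` for `j ≤ N`, `G (N+1) q = if q ≤ n' then F 1 (n' - q) else 0`, `G j = 0` for `j > N + 1`.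
(Linear map `toFun := fun F j q => if j ≤ N then F (j+1) q else if j = N+1 then (if q ≤ n' then F 1 (n' - q)
else 0) else 0`.)  Valid: `Val_append`/`Pre_append`; the last relation `Rel (l.flip n) (F (N+1)) (G (N+1))`:
for `q ≤ n` the left argument is `F 0 (n - q)`, for `q > n` it is 0 (`supp_word`, with `F 1 q = 0` for `q > n'` by
`supp_step`), so it says that `Rel l f g` implies `Rel (l.flip n) (rev n f) (rev n' g)` where
`rev n f q = if q ≤ n then f (n - q) else 0` and `f`, `g` vanish beyond `n`, `n'` (cases on `l`, `omega`).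
The support and the seam for `G`: `G 0 = F 1`, `G (N+1) q = F 1 (n' - q)`.
Injective: `G = 0` gives `F j = 0` for `j ≥ 1`, `F 0 q = F (N+1) (n - q) = 0` for `q ≤ n`, `F 0 q = 0` for `q > n`.
Form: `Qf (w ++ [l.flip n]) G = Qf w (fun j => F (j+1)) + wt (l.flip n) (G N ...) ` and
`wt (l.flip n) (rev n f) (rev n' g) = wt l f g` (for `X i`: left and right are exchanged, and `qq` is
symmetric in its first two and in its last two arguments).
`cs σ (w ++ [l.flip n]) = cs σ (l :: w)`.
BACKWARD.  `G` a valid labelling of `(n', w ++ [l.flip n])`.  New `F`: `F 0 q = if q ≤ n then G N (n - q) else 0`,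
`F (j+1) = G j` for `j ≤ N`, `F j = 0` for `j > N + 1`.  `Rel l (F 0) (F 1)`: `F 1 = G 0 = rev n' (G (N+1))`,
`F 0 = rev n (G N)`, and `Rel (l.flip n) (G N) (G (N+1))`.
-/

namespace FPS

open Letter

/-- The reversed labelling of a level of `n` strands. -/
private def rv (n : ℕ) (f : ℕ → ℚ) : ℕ → ℚ := fun q => if q ≤ n then f (n - q) else 0

private theorem rv_le {n q : ℕ} (f : ℕ → ℚ) (h : q ≤ n) : rv n f q = f (n - q) := by
  simp [rv, h]

private theorem rv_gt {n q : ℕ} (f : ℕ → ℚ) (h : n < q) : rv n f q = 0 := by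
  simp [rv, Nat.not_le.mpr h]

private theorem fit_flip {l : Letter} {n m : ℕ} (h : Fit l n m) : Fit (l.flip n) n m := by
  cases l <;> simp only [Fit, Letter.flip] at h ⊢ <;> omega

private theorem flip_flip {l : Letter} {n m : ℕ} (h : Fit l n m) : (l.flip n).flip n = l := by
  cases l with
  | X i e p =>
    simp only [Fit] at h
    simp only [Letter.flip]
    rw [show n - 2 - (n - 2 - i) = i by omega]
  | cup i o =>
    simp only [Fit] at h
    simp only [Letter.flip, Bool.not_not]
    rw [show n - (n - i) = i by omega]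
  | cap i =>
    simp only [Fit] at h
    simp only [Letter.flip]
    rw [show n - 2 - (n - 2 - i) = i by omega]

private theorem rel_flip {l : Letter} {n m : ℕ} (h : Fit l n m) {f g : ℕ → ℚ}
    (hr : Rel l f g) : Rel (l.flip n) (rv n f) (rv m g) := by
  cases l with
  | X i e p =>
    simp only [Fit] at h
    obtain ⟨h1, rfl⟩ := h
    simp only [Letter.flip, Rel] at hr ⊢
    intro q hq
    rcases Nat.lt_or_ge m q with hqm | hqm
    · rw [rv_gt _ hqm, rv_gt _ hqm]
    · rw [rv_le _ hqm, rv_le _ hqm]
      exact hr _ (by omega)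
  | cup i o =>
    simp only [Fit] at h
    obtain ⟨h1, rfl⟩ := h
    obtain ⟨ha, hb⟩ := hr
    constructor
    · intro q hq
      rw [rv_le _ (by omega), rv_le _ (by omega)]
      have := hb (n - q) (by omega)
      rw [show n - q + 2 = n + 2 - q by omega] at this
      exact this
    · intro q hq
      rcases Nat.lt_or_ge n q with hqm | hqm
      · rw [rv_gt _ (by omega), rv_gt _ hqm]
      · rw [rv_le _ (by omega), rv_le _ hqm]
        have := ha (n - q) (by omega)
        rw [show n + 2 - (q + 2) = n - q by omega]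
        exact this
  | cap i =>
    simp only [Fit] at h
    obtain ⟨h1, h2⟩ := h
    obtain ⟨ha, hb⟩ := hr
    constructor
    · intro q hq
      rw [rv_le _ (by omega), rv_le _ (by omega)]
      have := hb (m - q) (by omega)
      rw [this, show m - q + 2 = n - q by omega]
    · intro q hq
      rcases Nat.lt_or_ge m q with hqm | hqm
      · rw [rv_gt _ hqm, rv_gt _ (by omega)]
      · rw [rv_le _ hqm, rv_le _ (by omega)]
        have := ha (m - q) (by omega)
        rw [this, show n - (q + 2) = m - q by omega]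

private theorem wt_flip {l : Letter} {n m : ℕ} (h : Fit l n m) (f g : ℕ → ℚ) :
    wt (l.flip n) (rv n f) (rv m g) = wt l f g := by
  cases l with
  | X i e p =>
    simp only [Fit] at h
    obtain ⟨h1, rfl⟩ := h
    have e0 : rv m f (m - 2 - i) = f (i + 2) := by
      rw [rv_le _ (by omega), show m - (m - 2 - i) = i + 2 by omega]
    have e2 : rv m f (m - 2 - i + 2) = f i := by
      rw [rv_le _ (by omega), show m - (m - 2 - i + 2) = i by omega]
    have e1 : rv m f (m - 2 - i + 1) = f (i + 1) := by
      rw [rv_le _ (by omega), show m - (m - 2 - i + 1) = i + 1 by omega]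
    have e3 : rv m g (m - 2 - i + 1) = g (i + 1) := by
      rw [rv_le _ (by omega), show m - (m - 2 - i + 1) = i + 1 by omega]
    cases p
    · simp only [Letter.flip, wt, e0, e1, e2, e3, qq]
      ring
    · simp only [Letter.flip, wt, e0, e1, e2, e3, qq]
      ring
  | cup i o => rfl
  | cap i => rfl

private theorem cnt_flip (σ : Bool) (l : Letter) (n : ℕ) : cnt σ (l.flip n) = cnt σ l := by
  cases l <;> rfl

private theorem E_map (σ : Bool) (n n' : ℕ) (w w' : List Letter) (e : ℤ)
    (φ : (ℕ → ℕ → ℚ) →ₗ[ℚ] (ℕ → ℕ → ℚ))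
    (h : ∀ F, VV n w F → VV n' w' (φ F) ∧ Qf w' (φ F) = Qf w F ∧ (φ F = 0 → F = 0))
    (hc : cs σ w' = cs σ w) (hE : E σ n w e) : E σ n' w' e := by
  obtain ⟨M, i1, i2, i3, H, hinj, hV, hpos, hdim⟩ := hE
  refine ⟨M, i1, i2, i3, φ.comp H, ?_, ?_, ?_, ?_⟩
  · rw [injective_iff_map_eq_zero]
    intro m hm
    apply hinj
    rw [map_zero]
    exact (h _ (hV m)).2.2 hm
  · intro m
    exact (h _ (hV m)).1
  · intro m
    have h1 := (h _ (hV m)).2.1
    have h2 := hpos m
    rw [← h1] at h2
    exact h2
  · rw [hc]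
    exact hdim

/-- The forward map. -/
private def rotF (N n' : ℕ) : (ℕ → ℕ → ℚ) →ₗ[ℚ] (ℕ → ℕ → ℚ) where
  toFun F := fun j => if j ≤ N then F (j + 1) else if j = N + 1 then rv n' (F 1) else 0
  map_add' a b := by
    funext j q
    by_cases h1 : j ≤ N
    · simp [h1]
    · by_cases h2 : j = N + 1
      · by_cases h3 : q ≤ n' <;> simp [h2, rv, h3]
      · simp [h1, h2]
  map_smul' c a := by
    funext j q
    by_cases h1 : j ≤ N
    · simp [h1]
    · by_cases h2 : j = N + 1
      · by_cases h3 : q ≤ n' <;> simp [h2, rv, h3]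
      · simp [h1, h2]

private theorem rotF_le {N n' j : ℕ} (F : ℕ → ℕ → ℚ) (h : j ≤ N) : rotF N n' F j = F (j + 1) := by
  change (if j ≤ N then F (j + 1) else if j = N + 1 then rv n' (F 1) else 0) = _
  rw [if_pos h]

private theorem rotF_eq {N n' : ℕ} (F : ℕ → ℕ → ℚ) : rotF N n' F (N + 1) = rv n' (F 1) := by
  change (if N + 1 ≤ N then F (N + 1 + 1) else if N + 1 = N + 1 then rv n' (F 1) else 0) = _
  rw [if_neg (by omega), if_pos rfl]

private theorem rotF_gt {N n' j : ℕ} (F : ℕ → ℕ → ℚ) (h : N + 1 < j) : rotF N n' F j = 0 := by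
  change (if j ≤ N then F (j + 1) else if j = N + 1 then rv n' (F 1) else 0) = _
  rw [if_neg (by omega), if_neg (by omega)]

/-- The backward map. -/
private def rotB (N n : ℕ) : (ℕ → ℕ → ℚ) →ₗ[ℚ] (ℕ → ℕ → ℚ) where
  toFun G := fun j => if j = 0 then rv n (G N) else if j ≤ N + 1 then G (j - 1) else 0
  map_add' a b := by
    funext j q
    by_cases h1 : j = 0
    · by_cases h3 : q ≤ n <;> simp [h1, rv, h3]
    · by_cases h2 : j ≤ N + 1 <;> simp [h1, h2]
  map_smul' c a := by
    funext j q
    by_cases h1 : j = 0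
    · by_cases h3 : q ≤ n <;> simp [h1, rv, h3]
    · by_cases h2 : j ≤ N + 1 <;> simp [h1, h2]

private theorem rotB_zero {N n : ℕ} (G : ℕ → ℕ → ℚ) : rotB N n G 0 = rv n (G N) := by
  change (if (0 : ℕ) = 0 then rv n (G N) else if 0 ≤ N + 1 then G (0 - 1) else 0) = _
  rw [if_pos rfl]

private theorem rotB_succ {N n j : ℕ} (G : ℕ → ℕ → ℚ) (h : j ≤ N) : rotB N n G (j + 1) = G j := by
  change (if j + 1 = 0 then rv n (G N) else if j + 1 ≤ N + 1 then G (j + 1 - 1) else 0) = _
  rw [if_neg (by omega), if_pos (by omega), Nat.add_sub_cancel]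

private theorem rotB_gt {N n j : ℕ} (G : ℕ → ℕ → ℚ) (h : N < j) : rotB N n G (j + 1) = 0 := by
  change (if j + 1 = 0 then rv n (G N) else if j + 1 ≤ N + 1 then G (j + 1 - 1) else 0) = _
  rw [if_neg (by omega), if_neg (by omega)]

private theorem rotF_ok {l : Letter} {w : List Letter} {n n' : ℕ} (hl : Fit l n n')
    (hw : FitW w n' n) (F : ℕ → ℕ → ℚ) (hF : VV n (l :: w) F) :
    VV n' (w ++ [l.flip n]) (rotF w.length n' F) ∧
      Qf (w ++ [l.flip n]) (rotF w.length n' F) = Qf (l :: w) F ∧
      (rotF w.length n' F = 0 → F = 0) := by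
  obtain ⟨hV, hs, hseam⟩ := hF
  obtain ⟨hr, hVw⟩ := hV
  have hVw' := (Val_iff_Pre w (fun j => F (j + 1))).1 hVw
  obtain ⟨hpre, htop⟩ := hVw'
  have hs1 : ∀ q, n' < q → F 1 q = 0 := (supp_step hl hr).1 hs
  have hsN : ∀ q, n < q → F (w.length + 1) q = 0 := by
    have := supp_word w n' n hw (fun j => F (j + 1)) hpre hs1
    exact this
  have hN : F (w.length + 1) = rv n (F 0) := by
    funext q
    rcases Nat.lt_or_ge n q with hq | hq
    · rw [hsN q hq, rv_gt _ hq]
    · rw [rv_le _ hq]
      have := hseam q hq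
      rw [List.length_cons] at this
      exact this
  have hpreG : Pre w (rotF w.length n' F) :=
    (Pre_congr w _ _ (fun j hj => rotF_le F hj)).2 hpre
  have hQG : Qf w (rotF w.length n' F) = Qf w (fun j => F (j + 1)) :=
    Qf_congr w _ _ (fun j hj => rotF_le F hj)
  have e0 : rotF w.length n' F (0 + w.length) = rv n (F 0) := by
    rw [Nat.zero_add, rotF_le F le_rfl, hN]
  have e1 : rotF w.length n' F (1 + w.length) = rv n' (F 1) := by
    rw [Nat.add_comm, rotF_eq]
  refine ⟨⟨?_, ?_, ?_⟩, ?_, ?_⟩
  · rw [Val_append]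
    refine ⟨hpreG, ?_, ?_⟩
    · change Rel (l.flip n) (rotF w.length n' F (0 + w.length)) (rotF w.length n' F (1 + w.length))
      rw [e0, e1]
      exact rel_flip hl hr
    · intro j
      exact rotF_gt F (by omega)
  · intro q hq
    rw [rotF_le F (Nat.zero_le _)]
    exact hs1 q hq
  · intro q hq
    rw [List.length_append, List.length_singleton, rotF_eq, rotF_le F (Nat.zero_le _), rv_le _ hq]
  · rw [Qf_append, hQG]
    change _ + (wt (l.flip n) (rotF w.length n' F (0 + w.length))
      (rotF w.length n' F (1 + w.length)) + 0) = wt l (F 0) (F 1) + _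
    rw [e0, e1, wt_flip hl]
    ring
  · intro h0
    have hj : ∀ j, F (j + 1) = 0 := by
      intro j
      rcases Nat.lt_or_ge w.length j with h | h
      · exact htop j h
      · rw [← rotF_le (n' := n') F h, h0]
        rfl
    funext j
    rcases j with _ | j
    · funext q
      rcases Nat.lt_or_ge n q with hq | hq
      · exact hs q hq
      · have h1 := congrFun hN (n - q)
        rw [hj, rv_le _ (by omega), show n - (n - q) = q by omega] at h1
        exact h1.symm
    · exact hj j

private theorem rotB_ok {l : Letter} {w : List Letter} {n n' : ℕ} (hl : Fit l n n')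
    (hw : FitW w n' n) (G : ℕ → ℕ → ℚ) (hG : VV n' (w ++ [l.flip n]) G) :
    VV n (l :: w) (rotB w.length n G) ∧
      Qf (l :: w) (rotB w.length n G) = Qf (w ++ [l.flip n]) G ∧
      (rotB w.length n G = 0 → G = 0) := by
  obtain ⟨hV, hs, hseam⟩ := hG
  rw [Val_append] at hV
  obtain ⟨hpre, hr, htop⟩ := hV
  replace hr : Rel (l.flip n) (G w.length) (G (w.length + 1)) := by
    have : Rel (l.flip n) (G (0 + w.length)) (G (1 + w.length)) := hr
    rw [Nat.zero_add, Nat.add_comm] at this
    exact this
  replace htop : ∀ j, w.length + 1 < j → G j = 0 := by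
    intro j hj
    have : G (j - 2 - w.length + 1 + 1 + w.length) = 0 := htop (j - 2 - w.length)
    rw [show j - 2 - w.length + 1 + 1 + w.length = j by omega] at this
    exact this
  have hsN : ∀ q, n < q → G w.length q = 0 := supp_word w n' n hw G hpre hs
  have hsN1 : ∀ q, n' < q → G (w.length + 1) q = 0 := (supp_step (fit_flip hl) hr).1 hsN
  have hseam' : ∀ q, q ≤ n' → G (w.length + 1) q = G 0 (n' - q) := by
    intro q hq
    have := hseam q hq
    rw [List.length_append, List.length_singleton] at this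
    exact this
  have hG0 : rv n' (G (w.length + 1)) = G 0 := by
    funext q
    rcases Nat.lt_or_ge n' q with hq | hq
    · rw [rv_gt _ hq, hs q hq]
    · rw [rv_le _ hq, hseam' _ (by omega), show n' - (n' - q) = q by omega]
  have hrel := rel_flip (fit_flip hl) hr
  rw [flip_flip hl, hG0] at hrel
  have hwt := wt_flip (fit_flip hl) (G w.length) (G (w.length + 1))
  rw [flip_flip hl, hG0] at hwt
  have hB1 : rotB w.length n G 1 = G 0 := rotB_succ G (Nat.zero_le _)
  have hcg : ∀ j, j ≤ w.length → (fun j => rotB w.length n G (j + 1)) j = G j :=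
    fun j hj => rotB_succ G hj
  refine ⟨⟨?_, ?_, ?_⟩, ?_, ?_⟩
  · refine ⟨?_, ?_⟩
    · rw [rotB_zero, hB1]
      exact hrel
    · rw [Val_iff_Pre]
      exact ⟨(Pre_congr w _ _ hcg).2 hpre, fun j hj => rotB_gt G hj⟩
  · intro q hq
    rw [rotB_zero, rv_gt _ hq]
  · intro q hq
    rw [List.length_cons, rotB_succ G le_rfl, rotB_zero, rv_le _ (by omega),
      show n - (n - q) = q by omega]
  · rw [Qf_append]
    change wt l (rotB w.length n G 0) (rotB w.length n G 1) +
      Qf w (fun j => rotB w.length n G (j + 1)) = Qf w G +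
      (wt (l.flip n) (G (0 + w.length)) (G (1 + w.length)) + 0)
    rw [rotB_zero, hB1, hwt, Qf_congr w _ _ hcg, Nat.zero_add, Nat.add_comm 1]
    ring
  · intro h0
    have hj : ∀ j, j ≤ w.length → G j = 0 := by
      intro j h
      rw [← rotB_succ (n := n) G h, h0]
      rfl
    funext j
    rcases Nat.lt_or_ge w.length j with h | h
    · rcases Nat.lt_or_ge (w.length + 1) j with h2 | h2
      · exact htop j h2
      · obtain rfl : j = w.length + 1 := by omega
        funext q
        rcases Nat.lt_or_ge n' q with hq | hq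
        · exact hsN1 q hq
        · rw [hseam' q hq, hj 0 (Nat.zero_le _)]
          rfl
    · exact hj j h

theorem E_rot (σ : Bool) (s t : List Bool) (l : Letter) (w : List Letter) (h : act l s = some t)
    (hL : IsLink .RP3 ⟨s, l :: w⟩) (e : ℤ) :
    E σ s.length (l :: w) e ↔ E σ t.length (w ++ [l.flip s.length]) e := by
  have hl : Fit l s.length t.length := act_fit l s t h
  have hw : FitW w t.length s.length := by
    have h1 : run s (l :: w) = some s.reverse := hL
    simp only [run, h, Option.bind_some] at h1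
    have h2 := run_fit w t s.reverse h1
    rw [List.length_reverse] at h2
    exact h2
  have hc : cs σ (w ++ [l.flip s.length]) = cs σ (l :: w) := by
    simp only [cs, List.map_append, List.map_cons, List.map_nil, List.sum_append, List.sum_cons,
      List.sum_nil, cnt_flip]
    omega
  constructor
  · exact E_map σ _ _ _ _ e (rotF w.length t.length) (fun F hF => rotF_ok hl hw F hF) hc
  · exact E_map σ _ _ _ _ e (rotB w.length s.length) (fun G hG => rotB_ok hl hw G hG) hc.symm

end FPS
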