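import Mathlib
import Pool.Agent.H61.RP.LFarX
import Pool.Agent.H61.RP.LFarU
import Pool.Agent.H61.RP.LFarA
import Pool.Agent.H61.RP.LZig
import Pool.Agent.H61.RP.LTurn
import Pool.Agent.H61.RP.LR1
import Pool.Agent.H61.RP.LR1A
import Pool.Agent.H61.RP.LR2
import Pool.Agent.H61.RP.LR3
import Pool.Agent.H61.RP.LBS
import Pool.Agent.H61.RP.SRot
import Pool.Agent.H61.RP.SPole
import Pool.Agent.H61.RP.Parity
import Pool.Agent.H61.RP.RankD
import Pool.Agent.H61.RP.ELine
import Pool.Agent.H61.RP.KnotChk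
import Pool.Agent.H61.RP.Cert
import Pool.Agent.H61.RP.MovieChk

/-!
Assembly (helper61 does this one).
-/

namespace FPS

open Letter

theorem LT_loc (σ : Bool) {x y : List Letter} (h : Loc x y) :
    LT σ x y (cs σ y - cs σ x) ∧ LT σ y x (cs σ x - cs σ y) := by
  cases h with
  | far l₁ l₂ h =>
    have hc : (cs σ [l₁, l₂.shift l₁.outw] : ℤ) - cs σ [l₂.shift l₁.inw, l₁] = 0 := by
      cases l₁ <;> cases l₂ <;> simp [cs, cnt, Letter.shift] <;> ring
    have hc' : (cs σ [l₂.shift l₁.inw, l₁] : ℤ) - cs σ [l₁, l₂.shift l₁.outw] = 0 := by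
      linarith
    rw [hc, hc']
    cases l₁ with
    | X i e p => exact LT_farX σ i e p l₂ h
    | cup i o => exact LT_farU σ i o l₂ h
    | cap i => exact LT_farA σ i l₂ h
  | zigR i o => simpa [cs, cnt] using LT_zigR σ i o
  | zigL i o => simpa [cs, cnt] using LT_zigL σ i o
  | turnU i o e p =>
    have hc : cs σ [.cup (i + 1) o, .X i (!e) (!p)] = cs σ [.cup i o, .X (i + 1) e p] := by
      cases e <;> cases p <;> simp [cs, cnt]
    rw [hc, sub_self]
    exact LT_turnU σ i o e p
  | turnA i e p =>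
    have hc : cs σ [.X i (!e) (!p), .cap (i + 1)] = cs σ [.X (i + 1) e p, .cap i] := by
      cases e <;> cases p <;> simp [cs, cnt]
    rw [hc, sub_self]
    exact LT_turnA σ i e p
  | r1U i o e =>
    have h := LT_r1U σ i o e
    have hc : (cs σ [.cup i (!o)] : ℤ) = 0 := by simp [cs, cnt]
    rw [hc, zero_sub, sub_zero]
    exact h
  | r1A i e =>
    have h := LT_r1A σ i e
    have hc : (cs σ [.cap i] : ℤ) = 0 := by simp [cs, cnt]
    rw [hc, zero_sub, sub_zero]
    exact h
  | r2 i e p =>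
    have h := LT_r2 σ i e p
    have hc : (cs σ [.X i e p, .X i (!e) p] : ℤ) = 1 := by
      cases σ <;> cases e <;> cases p <;> simp [cs, cnt]
    have hc' : (cs σ [] : ℤ) = 0 := by simp [cs]
    rw [hc, hc', zero_sub, sub_zero]
    exact h
  | r3 i a b c p q r h hp =>
    have hc : cs σ [.X (i + 1) c r, .X i b q, .X (i + 1) a p] =
        cs σ [.X i a p, .X (i + 1) b q, .X i c r] := by
      simp [cs, cnt]; ring
    rw [hc, sub_self]
    exact LT_r3 σ i a b c p q r h hp

theorem E_iso (σ : Bool) {A B : Dg} (h : Iso .RP3 A B) (hA : IsLink .RP3 A) (e : ℤ) :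
    E σ A.s.length A.w e ↔ E σ B.s.length B.w e := by
  cases h with
  | loc h =>
    obtain ⟨s, u, x, y, v, rfl, rfl, hxy, -⟩ := h
    constructor
    · intro hE
      have := E_of_LT (LT_loc σ hxy).1 s.length u v e hE
      have e1 : e + (↑(cs σ y) - ↑(cs σ x)) + ↑(cs σ x) - ↑(cs σ y) = e := by ring
      rwa [e1] at this
    · intro hE
      have := E_of_LT (LT_loc σ hxy).2 s.length u v e hE
      have e1 : e + (↑(cs σ x) - ↑(cs σ y)) + ↑(cs σ y) - ↑(cs σ x) = e := by ring
      rwa [e1] at this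
  | rot s t l w h => exact E_rot σ s t l w h hA e
  | poleP t o w hw => exact E_pole σ t o w hw e

theorem E_movie (σ : Bool) {A B : Dg} {b c : ℕ} (h : Movie .RP3 A B b c) :
    IsLink .RP3 B → ∀ e : ℤ, E σ A.s.length A.w e → E σ B.s.length B.w (e + b - c) := by
  induction h with
  | refl hA => intro _ e hE; simpa using hE
  | @iso A B C b c hA h m ih =>
    intro hC e hE
    apply ih hC
    rcases h with h | h
    · exact (E_iso σ h hA e).mp hE
    · have hB : IsLink .RP3 B := by
        cases m <;> assumption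
      exact (E_iso σ h hB e).mpr hE
  | @birth A B C b c hA h m ih =>
    intro hC e hE
    obtain ⟨s, u, x, y, v, rfl, rfl, hxy, -⟩ := h
    cases hxy with
    | mk i o =>
      have h1 := E_of_LT (LT_birth σ i o) s.length u v e hE
      have h2 := ih hC _ h1
      have e1 : e + 1 + ↑(cs σ []) - ↑(cs σ [.cup i o, .cap i]) + ↑b - ↑c = e + ↑(b + 1) - ↑c := by
        simp [cs, cnt]; ring
      rwa [e1] at h2
  | @saddle A B C b c hA h m ih =>
    intro hC e hE
    rcases h with h | h
    · obtain ⟨s, u, x, y, v, rfl, rfl, hxy, -⟩ := h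
      cases hxy with
      | mk i o =>
        have h1 := E_of_LT (LT_saddle σ i o).1 s.length u v e hE
        have h2 := ih hC _ h1
        have e1 : e + -1 + ↑(cs σ []) - ↑(cs σ [.cap i, .cup i o]) + ↑b - ↑c =
            e + ↑b - ↑(c + 1) := by
          simp [cs, cnt]; ring
        rwa [e1] at h2
    · obtain ⟨s, u, x, y, v, rfl, rfl, hxy, -⟩ := h
      cases hxy with
      | mk i o =>
        have h1 := E_of_LT (LT_saddle σ i o).2 s.length u v e hE
        have h2 := ih hC _ h1
        have e1 : e + -1 + ↑(cs σ [.cap i, .cup i o]) - ↑(cs σ []) + ↑b - ↑c =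
            e + ↑b - ↑(c + 1) := by
          simp [cs, cnt]; ring
        rwa [e1] at h2

/-- The main theorem. -/
theorem main : ∃ K : Dg, IsKnot .RP3 K ∧ Odd K.s.length ∧ IsKnot .S3 (lift K) ∧
    Concordant .S3 (lift K) line ∧ ¬ Concordant .RP3 K line := by
  refine ⟨Kex, Kex_isKnot, by decide, liftKex_isKnot, ?_, ?_⟩
  · exact ⟨lift Kex, 0, 2, liftKex_isKnot, Movie.refl liftKex_isKnot.1, movie_Kex⟩
  · rintro ⟨C, b, c, hC, h1, h2⟩
    have hodd : Odd C.s.length := (parity_movie h1).mp (by decide)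
    have e1 := E_movie true h1 hC.1 2 E_Kex
    have e2 := E_movie false h2 hC.1 1 (E_line false)
    have := rank_bound hC hodd e1 e2
    linarith

end FPS
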